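import Pool.Agent.H36.QT.D.Db0
import Pool.Agent.H36.QT.D.Db1
import Pool.Agent.H36.QT.D.Db2
import Pool.Agent.H36.QT.D.Db3
import Pool.Agent.H36.QT.D.Db4
import Pool.Agent.H36.QT.D.Db5
import Pool.Agent.H36.QT.D.Db6
import Pool.Agent.H36.QT.D.Db7
import Pool.Agent.H36.QT.D.Db8
import Pool.Agent.H36.QT.D.Db9
import Pool.Agent.H36.QT.D.Ct

set_option autoImplicit false
set_option maxRecDepth 100000
set_option linter.all false

namespace Pool.Agent.H36.QT.D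

open Pool.Agent.H36.QT

/-- data base -/
noncomputable def db : Tr :=
  .nd (nat_lit 4864) (.nd (nat_lit 2304) (.nd (nat_lit 1024) (.nd (nat_lit 512) (.nd (nat_lit 256) (t0) (t1)) (.nd (nat_lit 768) (t2) (t3))) (.nd (nat_lit 1536) (.nd (nat_lit 1280) (t4) (t5)) (.nd (nat_lit 1792) (t6) (.nd (nat_lit 2048) (t7) (t8))))) (.nd (nat_lit 3584) (.nd (nat_lit 2816) (.nd (nat_lit 2560) (t9) (t10)) (.nd (nat_lit 3072) (t11) (.nd (nat_lit 3328) (t12) (t13)))) (.nd (nat_lit 4096) (.nd (nat_lit 3840) (t14) (t15)) (.nd (nat_lit 4352) (t16) (.nd (nat_lit 4608) (t17) (t18)))))) (.nd (nat_lit 7424) (.nd (nat_lit 6144) (.nd (nat_lit 5376) (.nd (nat_lit 5120) (t19) (t20)) (.nd (nat_lit 5632) (t21) (.nd (nat_lit 5888) (t22) (t23)))) (.nd (nat_lit 6656) (.nd (nat_lit 6400) (t24) (t25)) (.nd (nat_lit 6912) (t26) (.nd (nat_lit 7168) (t27) (t28))))) (.nd (nat_lit 8704) (.nd (nat_lit 7936) (.nd (nat_lit 7680) (t29)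 (t30)) (.nd (nat_lit 8192) (t31) (.nd (nat_lit 8448) (t32) (t33)))) (.nd (nat_lit 9216) (.nd (nat_lit 8960) (t34) (t35)) (.nd (nat_lit 9472) (t36) (.nd (nat_lit 9728) (t37) (t38))))))

end Pool.Agent.H36.QT.D
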