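import Pool.Agent.H36.QT.W5
import Pool.Agent.H36.QT.D.Db

set_option autoImplicit false
set_option maxRecDepth 100000
set_option linter.all false

namespace Pool.Agent.H36.QT.D

open Pool.Agent.H36.QT

/-- certificates of the base clauses 0, …, 1499 -/
noncomputable def b0 : List Ce :=
  [.a (nat_lit 480),
   .a (nat_lit 736),
   .a (nat_lit 864),
   .a (nat_lit 896),
   .a (nat_lit 897),
   .a (nat_lit 898),
   .a (nat_lit 899),
   .a (nat_lit 901),
   .a (nat_lit 902),
   .a (nat_lit 903),
   .a (nat_lit 904),
   .a (nat_lit 905),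
   .a (nat_lit 906),
   .a (nat_lit 907),
   .a (nat_lit 912),
   .a (nat_lit 913),
   .a (nat_lit 914),
   .a (nat_lit 915),
   .t [nat_lit 1508832, nat_lit 1540545],
   .t [nat_lit 1477088, nat_lit 1540514],
   .t [nat_lit 1445344, nat_lit 1540483],
   .t [nat_lit 1413600, nat_lit 1540452],
   .t [nat_lit 1318368, nat_lit 1540359],
   .t [nat_lit 1477057, nat_lit 1508770],
   .t [nat_lit 1445313, nat_lit 1508739],
   .t [nat_lit 1413569, nat_lit 1508708],
   .t [nat_lit 1318337, nat_lit 1508615],
   .t [nat_lit 1445282, nat_lit 1476995],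
   .t [nat_lit 1413538, nat_lit 1476964],
   .t [nat_lit 1318306, nat_lit 1476871],
   .t [nat_lit 1413507, nat_lit 1445220],
   .t [nat_lit 1318275, nat_lit 1445127],
   .t [nat_lit 1318244, nat_lit 1413383],
   .t [nat_lit 1771232, nat_lit 1802945],
   .t [nat_lit 1739488, nat_lit 1802914],
   .t [nat_lit 1707744, nat_lit 1802883],
   .t [nat_lit 1677024, nat_lit 1802853],
   .t [nat_lit 1579744, nat_lit 1802758],
   .t [nat_lit 1739457, nat_lit 1771170],
   .t [nat_lit 1707713, nat_lit 1771139],
   .t [nat_lit 1676993, nat_lit 1771109],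
   .t [nat_lit 1579713, nat_lit 1771014],
   .t [nat_lit 1707682, nat_lit 1739395],
   .t [nat_lit 1676962, nat_lit 1739365],
   .t [nat_lit 1579682, nat_lit 1739270],
   .t [nat_lit 1676931, nat_lit 1707621],
   .t [nat_lit 1579651, nat_lit 1707526],
   .t [nat_lit 1579621, nat_lit 1676806],
   .t [nat_lit 1902432, nat_lit 1934145],
   .t [nat_lit 1870688, nat_lit 1934114],
   .t [nat_lit 1838944, nat_lit 1934083],
   .t [nat_lit 1648480, nat_lit 1933897],
   .t [nat_lit 1616736, nat_lit 1933866],
   .t [nat_lit 1870657, nat_lit 1902370],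
   .t [nat_lit 1838913, nat_lit 1902339],
   .t [nat_lit 1648449, nat_lit 1902153],
   .t [nat_lit 1616705, nat_lit 1902122],
   .t [nat_lit 1838882, nat_lit 1870595],
   .t [nat_lit 1648418, nat_lit 1870409],
   .t [nat_lit 1616674, nat_lit 1870378],
   .t [nat_lit 1648387, nat_lit 1838665],
   .t [nat_lit 1616643, nat_lit 1838634],
   .t [nat_lit 1616457, nat_lit 1648170],
   .t [nat_lit 1905536, nat_lit 1966916],
   .t [nat_lit 1873792, nat_lit 1966885],
   .t [nat_lit 1778560, nat_lit 1966792],
   .t [nat_lit 1714048, nat_lit 1966729],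
   .t [nat_lit 1618816, nat_lit 1966636],
   .t [nat_lit 1587072, nat_lit 1966605],
   .t [nat_lit 1873732, nat_lit 1905445],
   .t [nat_lit 1778500, nat_lit 1905352],
   .t [nat_lit 1713988, nat_lit 1905289],
   .t [nat_lit 1618756, nat_lit 1905196],
   .t [nat_lit 1587012, nat_lit 1905165],
   .t [nat_lit 1778469, nat_lit 1873608],
   .t [nat_lit 1713957, nat_lit 1873545],
   .t [nat_lit 1618725, nat_lit 1873452],
   .t [nat_lit 1586981, nat_lit 1873421],
   .t [nat_lit 1713864, nat_lit 1778313],
   .t [nat_lit 1618632, nat_lit 1778220],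
   .t [nat_lit 1586888, nat_lit 1778189],
   .t [nat_lit 1618569, nat_lit 1713708],
   .t [nat_lit 1586825, nat_lit 1713677],
   .t [nat_lit 1586732, nat_lit 1618445],
   .t [nat_lit 1938305, nat_lit 1967972],
   .t [nat_lit 1842049, nat_lit 1967878],
   .t [nat_lit 1811329, nat_lit 1967848],
   .t [nat_lit 1747841, nat_lit 1967786],
   .t [nat_lit 1684353, nat_lit 1967724],
   .t [nat_lit 1652609, nat_lit 1967693],
   .t [nat_lit 1842020, nat_lit 1938182],
   .t [nat_lit 1811300, nat_lit 1938152],
   .t [nat_lit 1747812, nat_lit 1938090],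
   .t [nat_lit 1684324, nat_lit 1938028],
   .t [nat_lit 1652580, nat_lit 1937997],
   .t [nat_lit 1811206, nat_lit 1841896],
   .t [nat_lit 1747718, nat_lit 1841834],
   .t [nat_lit 1684230, nat_lit 1841772],
   .t [nat_lit 1652486, nat_lit 1841741],
   .t [nat_lit 1747688, nat_lit 1811114],
   .t [nat_lit 1684200, nat_lit 1811052],
   .t [nat_lit 1652456, nat_lit 1811021],
   .t [nat_lit 1684138, nat_lit 1747564],
   .t [nat_lit 1652394, nat_lit 1747533],
   .t [nat_lit 1652332, nat_lit 1684045],
   .t [nat_lit 1939330, nat_lit 1968997],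
   .t [nat_lit 1843074, nat_lit 1968903],
   .t [nat_lit 1780610, nat_lit 1968842],
   .t [nat_lit 1716098, nat_lit 1968779],
   .t [nat_lit 1653634, nat_lit 1968718],
   .t [nat_lit 1589122, nat_lit 1968655],
   .t [nat_lit 1843045, nat_lit 1939207],
   .t [nat_lit 1780581, nat_lit 1939146],
   .t [nat_lit 1716069, nat_lit 1939083],
   .t [nat_lit 1653605, nat_lit 1939022],
   .t [nat_lit 1589093, nat_lit 1938959],
   .t [nat_lit 1780487, nat_lit 1842890],
   .t [nat_lit 1715975, nat_lit 1842827],
   .t [nat_lit 1653511, nat_lit 1842766],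
   .t [nat_lit 1588999, nat_lit 1842703],
   .t [nat_lit 1715914, nat_lit 1780363],
   .t [nat_lit 1653450, nat_lit 1780302],
   .t [nat_lit 1588938, nat_lit 1780239],
   .t [nat_lit 1653387, nat_lit 1715790],
   .t [nat_lit 1588875, nat_lit 1715727],
   .t [nat_lit 1588814, nat_lit 1653263],
   .t [nat_lit 1907587, nat_lit 1969990],
   .t [nat_lit 1875843, nat_lit 1969959],
   .t [nat_lit 1812355, nat_lit 1969897],
   .t [nat_lit 1748867, nat_lit 1969835],
   .t [nat_lit 1686403, nat_lit 1969774],
   .t [nat_lit 1621891, nat_lit 1969711],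
   .t [nat_lit 1875782, nat_lit 1907495],
   .t [nat_lit 1812294, nat_lit 1907433],
   .t [nat_lit 1748806, nat_lit 1907371],
   .t [nat_lit 1686342, nat_lit 1907310],
   .t [nat_lit 1621830, nat_lit 1907247],
   .t [nat_lit 1812263, nat_lit 1875689],
   .t [nat_lit 1748775, nat_lit 1875627],
   .t [nat_lit 1686311, nat_lit 1875566],
   .t [nat_lit 1621799, nat_lit 1875503],
   .t [nat_lit 1748713, nat_lit 1812139],
   .t [nat_lit 1686249, nat_lit 1812078],
   .t [nat_lit 1621737, nat_lit 1812015],
   .t [nat_lit 1686187, nat_lit 1748590],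
   .t [nat_lit 1621675, nat_lit 1748527],
   .t [nat_lit 1621614, nat_lit 1686063],
   .t [nat_lit 1749892, nat_lit 1970860],
   .t [nat_lit 1717932, nat_lit 1749645],
   .t [nat_lit 1782661, nat_lit 1971916],
   .t [nat_lit 1719173, nat_lit 1971854],
   .t [nat_lit 1718988, nat_lit 1782414],
   .t [nat_lit 1816454, nat_lit 1972973],
   .t [nat_lit 1752966, nat_lit 1972911],
   .t [nat_lit 1752813, nat_lit 1816239],
   .t [nat_lit 1817479, nat_lit 1973998],
   .t [nat_lit 1785735, nat_lit 1973967],
   .t [nat_lit 1785582, nat_lit 1817295],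
   .t [nat_lit 1880968, nat_lit 1975084],
   .t [nat_lit 1849224, nat_lit 1975053],
   .t [nat_lit 1849132, nat_lit 1880845],
   .t [nat_lit 1914761, nat_lit 1976141],
   .t [nat_lit 1883017, nat_lit 1976110],
   .t [nat_lit 1882957, nat_lit 1914670],
   .t [nat_lit 1946506, nat_lit 1977196],
   .t [nat_lit 1851274, nat_lit 1977103],
   .t [nat_lit 1851244, nat_lit 1946383],
   .t [nat_lit 1948555, nat_lit 1978222],
   .t [nat_lit 1916811, nat_lit 1978191],
   .t [nat_lit 1916782, nat_lit 1948495],
   .t [nat_lit 1921936, nat_lit 1983316],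
   .t [nat_lit 1858448, nat_lit 1983254],
   .t [nat_lit 1858388, nat_lit 1921814],
   .t [nat_lit 1922961, nat_lit 1984341],
   .t [nat_lit 1891217, nat_lit 1984310],
   .t [nat_lit 1891157, nat_lit 1922870],
   .t [nat_lit 1954706, nat_lit 1985396],
   .t [nat_lit 1859474, nat_lit 1985303],
   .t [nat_lit 1859444, nat_lit 1954583],
   .t [nat_lit 1955731, nat_lit 1986421],
   .t [nat_lit 1892243, nat_lit 1986359],
   .t [nat_lit 1892213, nat_lit 1955639],
   .b (nat_lit 137436192),
   .b (nat_lit 170956864),
   .b (nat_lit 271658016),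
   .b (nat_lit 304130144),
   .b (nat_lit 272707616),
   .b (nat_lit 273721472),
   .b (nat_lit 272741408),
   .b (nat_lit 306225344),
   .b (nat_lit 307280896),
   .b (nat_lit 306265088),
   .b (nat_lit 273792000),
   .b (nat_lit 306264096),
   .b (nat_lit 273791008),
   .b (nat_lit 307278912),
   .b (nat_lit 273790016),
   .b (nat_lit 307277920),
   .b (nat_lit 306262112),
   .b (nat_lit 307276928),
   .b (nat_lit 273788032),
   .b (nat_lit 307273952),
   .b (nat_lit 306258144),
   .b (nat_lit 273785986),
   .b (nat_lit 274807840),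
   .b (nat_lit 339852320),
   .b (nat_lit 470853824),
   .b (nat_lit 438347968),
   .b (nat_lit 405842112),
   .b (nat_lit 373336256),
   .b (nat_lit 275818688),
   .b (nat_lit 274806817),
   .b (nat_lit 339851297),
   .b (nat_lit 339850305),
   .b (nat_lit 274804833),
   .b (nat_lit 274803841),
   .b (nat_lit 339845345),
   .b (nat_lit 339845314),
   .b (nat_lit 374389824),
   .b (nat_lit 438385728),
   .b (nat_lit 340900928),
   .b (nat_lit 471902432),
   .b (nat_lit 374384864),
   .b (nat_lit 438380768),
   .b (nat_lit 405874912),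
   .b (nat_lit 373369056),
   .b (nat_lit 438384705),
   .b (nat_lit 340899905),
   .b (nat_lit 438381729),
   .b (nat_lit 405875873),
   .b (nat_lit 275852449),
   .b (nat_lit 275854402),
   .b (nat_lit 340898882),
   .b (nat_lit 275852418),
   .b (nat_lit 340896898),
   .b (nat_lit 340893922),
   .b (nat_lit 309378144),
   .b (nat_lit 308362336),
   .b (nat_lit 472952000),
   .b (nat_lit 309374144),
   .b (nat_lit 439430336),
   .b (nat_lit 405908672),
   .b (nat_lit 275885248),
   .b (nat_lit 308361313),
   .b (nat_lit 439428321),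
   .b (nat_lit 405906657),
   .b (nat_lit 373400801),
   .b (nat_lit 405906626),
   .b (nat_lit 373400770),
   .b (nat_lit 275883202),
   .b (nat_lit 472984800),
   .b (nat_lit 374449378),
   .b (nat_lit 506539233),
   .b (nat_lit 342994114),
   .b (nat_lit 441498752),
   .b (nat_lit 274906240),
   .b (nat_lit 474001600),
   .b (nat_lit 441495744),
   .b (nat_lit 440479936),
   .b (nat_lit 373436608),
   .b (nat_lit 275919040),
   .b (nat_lit 373438593),
   .b (nat_lit 274905217),
   .b (nat_lit 406959265),
   .b (nat_lit 373437601),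
   .b (nat_lit 275920033),
   .b (nat_lit 373437570),
   .b (nat_lit 274904194),
   .b (nat_lit 274903171),
   .b (nat_lit 274902148),
   .b (nat_lit 474037408),
   .b (nat_lit 475050208),
   .b (nat_lit 474034400),
   .b (nat_lit 441528544),
   .b (nat_lit 374485216),
   .b (nat_lit 408008834),
   .b (nat_lit 275953794),
   .b (nat_lit 441563328),
   .b (nat_lit 309475520),
   .b (nat_lit 308458720),
   .b (nat_lit 308459651),
   .b (nat_lit 309474467),
   .b (nat_lit 409025697),
   .b (nat_lit 343030945),
   .b (nat_lit 342012129),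
   .b (nat_lit 342015106),
   .b (nat_lit 343027906),
   .b (nat_lit 443595968),
   .b (nat_lit 507623617),
   .b (nat_lit 507622625),
   .b (nat_lit 409056481),
   .b (nat_lit 375534817),
   .b (nat_lit 507622594),
   .b (nat_lit 275987587),
   .b (nat_lit 476134624),
   .b (nat_lit 375569632),
   .b (nat_lit 508672225),
   .b (nat_lit 375568609),
   .b (nat_lit 508672194),
   .b (nat_lit 410106050),
   .b (nat_lit 376584386),
   .b (nat_lit 276019394),
   .b (nat_lit 508671202),
   .b (nat_lit 375567586),
   .b (nat_lit 276018402),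
   .b (nat_lit 376585379),
   .b (nat_lit 276020387),
   .b (nat_lit 375566563),
   .b (nat_lit 276016325),
   .b (nat_lit 412138752),
   .b (nat_lit 345128192),
   .b (nat_lit 277069056),
   .b (nat_lit 478197056),
   .b (nat_lit 412136768),
   .b (nat_lit 411153728),
   .b (nat_lit 377632064),
   .b (nat_lit 277067072),
   .b (nat_lit 345127169),
   .b (nat_lit 444674337),
   .b (nat_lit 377631009),
   .b (nat_lit 277066017),
   .b (nat_lit 345126146),
   .b (nat_lit 345125123),
   .b (nat_lit 277063972),
   .b (nat_lit 412170560),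
   .b (nat_lit 377665856),
   .b (nat_lit 345157984),
   .b (nat_lit 345159938),
   .b (nat_lit 377663778),
   .b (nat_lit 478264608),
   .b (nat_lit 479245664),
   .b (nat_lit 478262624),
   .b (nat_lit 412202336),
   .b (nat_lit 310621536),
   .b (nat_lit 478262562),
   .b (nat_lit 378681603),
   .b (nat_lit 414235968),
   .b (nat_lit 511785281),
   .b (nat_lit 511783265),
   .b (nat_lit 344174945),
   .b (nat_lit 413252866),
   .b (nat_lit 379731202),
   .b (nat_lit 446807329),
   .b (nat_lit 377699617),
   .b (nat_lit 345191777),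
   .b (nat_lit 345193731),
   .b (nat_lit 480361824),
   .b (nat_lit 345226592),
   .b (nat_lit 512833889),
   .b (nat_lit 345225569),
   .b (nat_lit 480361762),
   .b (nat_lit 414301474),
   .b (nat_lit 380779810),
   .b (nat_lit 377732386),
   .b (nat_lit 480359778),
   .b (nat_lit 345224546),
   .b (nat_lit 380778819),
   .b (nat_lit 345223523),
   .b (nat_lit 345222500),
   .b (nat_lit 478295424),
   .b (nat_lit 444772644),
   .b (nat_lit 511849857),
   .b (nat_lit 411252036),
   .b (nat_lit 480394624),
   .b (nat_lit 446872960),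
   .b (nat_lit 511883649),
   .b (nat_lit 446871937),
   .b (nat_lit 480392578),
   .b (nat_lit 511882626),
   .b (nat_lit 480391555),
   .b (nat_lit 511881603),
   .b (nat_lit 446869891),
   .b (nat_lit 411283843),
   .b (nat_lit 511883588),
   .b (nat_lit 411285828),
   .b (nat_lit 511881572),
   .b (nat_lit 446869860),
   .b (nat_lit 411284805),
   .b (nat_lit 478363040),
   .b (nat_lit 412302752),
   .b (nat_lit 449919393),
   .b (nat_lit 512899489),
   .b (nat_lit 412301729),
   .b (nat_lit 512898466),
   .b (nat_lit 478360994),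
   .b (nat_lit 412300706),
   .b (nat_lit 512898435),
   .b (nat_lit 478360963),
   .b (nat_lit 478362916),
   .b (nat_lit 444841252),
   .b (nat_lit 478360932),
   .b (nat_lit 412300644),
   .b (nat_lit 444838182),
   .b (nat_lit 447921600),
   .b (nat_lit 412335552),
   .b (nat_lit 481442241),
   .b (nat_lit 512932289),
   .b (nat_lit 447920577),
   .b (nat_lit 478394817),
   .b (nat_lit 412334529),
   .b (nat_lit 512932258),
   .b (nat_lit 478394786),
   .b (nat_lit 412334498),
   .b (nat_lit 512932227),
   .b (nat_lit 447920515),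
   .b (nat_lit 512932196),
   .b (nat_lit 412334436),
   .b (nat_lit 478395685),
   .b (nat_lit 478393701),
   .b (nat_lit 412333413),
   .b (nat_lit 480460256),
   .b (nat_lit 414399968),
   .b (nat_lit 446938592),
   .b (nat_lit 414399937),
   .b (nat_lit 446938561),
   .b (nat_lit 480460194),
   .b (nat_lit 414399906),
   .b (nat_lit 480460163),
   .b (nat_lit 446938499),
   .b (nat_lit 480460132),
   .b (nat_lit 446938468),
   .b (nat_lit 511949126),
   .b (nat_lit 511947110),
   .b (nat_lit 446935398),
   .b (nat_lit 414432706),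
   .b (nat_lit 480492901),
   .b (nat_lit 447987139),
   .b (nat_lit 512997734),
   .b (nat_lit 449035716),
   .b (nat_lit 482557349),
   .b (nat_lit 449166792),
   .b (nat_lit 483736969),
   .b (nat_lit 540068928),
   .b (nat_lit 572573792),
   .b (nat_lit 542167104),
   .b (nat_lit 541149344),
   .b (nat_lit 642800640),
   .b (nat_lit 575724544),
   .b (nat_lit 574708736),
   .b (nat_lit 541187072),
   .b (nat_lit 574707744),
   .b (nat_lit 541186080),
   .b (nat_lit 575722560),
   .b (nat_lit 541185088),
   .b (nat_lit 575721568),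
   .b (nat_lit 574705760),
   .b (nat_lit 543181984),
   .b (nat_lit 574704800),
   .b (nat_lit 541183136),
   .b (nat_lit 575717568),
   .b (nat_lit 574701760),
   .b (nat_lit 541181089),
   .b (nat_lit 542234688),
   .b (nat_lit 575750368),
   .b (nat_lit 641817632),
   .b (nat_lit 608295968),
   .b (nat_lit 739297472),
   .b (nat_lit 706791616),
   .b (nat_lit 674285760),
   .b (nat_lit 642828480),
   .b (nat_lit 641812672),
   .b (nat_lit 543217697),
   .b (nat_lit 641816609),
   .b (nat_lit 608294945),
   .b (nat_lit 608293953),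
   .b (nat_lit 641814625),
   .b (nat_lit 608292001),
   .b (nat_lit 641810625),
   .b (nat_lit 608288961),
   .b (nat_lit 707841216),
   .b (nat_lit 641844417),
   .b (nat_lit 544267328),
   .b (nat_lit 609344576),
   .b (nat_lit 740346080),
   .b (nat_lit 706824416),
   .b (nat_lit 674318560),
   .b (nat_lit 642861280),
   .b (nat_lit 543246560),
   .b (nat_lit 609343553),
   .b (nat_lit 706822369),
   .b (nat_lit 674316513),
   .b (nat_lit 642859233),
   .b (nat_lit 609337569),
   .b (nat_lit 609342530),
   .b (nat_lit 609337538),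
   .b (nat_lit 577821792),
   .b (nat_lit 576805984),
   .b (nat_lit 741395680),
   .b (nat_lit 707874016),
   .b (nat_lit 576802016),
   .b (nat_lit 674352352),
   .b (nat_lit 543280352),
   .b (nat_lit 576804961),
   .b (nat_lit 707871969),
   .b (nat_lit 674350305),
   .b (nat_lit 642893025),
   .b (nat_lit 543278305),
   .b (nat_lit 674350274),
   .b (nat_lit 642892994),
   .b (nat_lit 643914849),
   .b (nat_lit 610389217),
   .b (nat_lit 709942400),
   .b (nat_lit 742445248),
   .b (nat_lit 709939392),
   .b (nat_lit 708923584),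
   .b (nat_lit 642928832),
   .b (nat_lit 675402913),
   .b (nat_lit 543315105),
   .b (nat_lit 742481056),
   .b (nat_lit 544365728),
   .b (nat_lit 743493856),
   .b (nat_lit 742478048),
   .b (nat_lit 709972192),
   .b (nat_lit 642961632),
   .b (nat_lit 543346912),
   .b (nat_lit 544364705),
   .b (nat_lit 676452482),
   .b (nat_lit 642963586),
   .b (nat_lit 543348866),
   .b (nat_lit 544363682),
   .b (nat_lit 544362659),
   .b (nat_lit 642957540),
   .b (nat_lit 577919168),
   .b (nat_lit 742511840),
   .b (nat_lit 576902368),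
   .b (nat_lit 576903299),
   .b (nat_lit 577918115),
   .b (nat_lit 677469345),
   .b (nat_lit 611474593),
   .b (nat_lit 776032481),
   .b (nat_lit 610455777),
   .b (nat_lit 610458754),
   .b (nat_lit 611471554),
   .b (nat_lit 712039616),
   .b (nat_lit 645029056),
   .b (nat_lit 776067265),
   .b (nat_lit 645028033),
   .b (nat_lit 776066273),
   .b (nat_lit 677500129),
   .b (nat_lit 644011233),
   .b (nat_lit 543380705),
   .b (nat_lit 776066242),
   .b (nat_lit 645027010),
   .b (nat_lit 644011202),
   .b (nat_lit 644013187),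
   .b (nat_lit 543382659),
   .b (nat_lit 645025987),
   .b (nat_lit 543379651),
   .b (nat_lit 543378660),
   .b (nat_lit 543378629),
   .b (nat_lit 744578272),
   .b (nat_lit 777115873),
   .b (nat_lit 777115842),
   .b (nat_lit 645060802),
   .b (nat_lit 777114850),
   .b (nat_lit 544431267),
   .b (nat_lit 544427237),
   .b (nat_lit 546368512),
   .b (nat_lit 578907136),
   .b (nat_lit 545385472),
   .b (nat_lit 578906144),
   .b (nat_lit 545384480),
   .b (nat_lit 546366528),
   .b (nat_lit 545383488),
   .b (nat_lit 546365536),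
   .b (nat_lit 578904160),
   .b (nat_lit 578898208),
   .b (nat_lit 545376544),
   .b (nat_lit 546358592),
   .b (nat_lit 545375552),
   .b (nat_lit 578896161),
   .b (nat_lit 579920992),
   .b (nat_lit 578932000),
   .b (nat_lit 579954784),
   .b (nat_lit 546424160),
   .b (nat_lit 807455040),
   .b (nat_lit 612450625),
   .b (nat_lit 646016032),
   .b (nat_lit 612494368),
   .b (nat_lit 873516352),
   .b (nat_lit 841010496),
   .b (nat_lit 808504640),
   .b (nat_lit 613469504),
   .b (nat_lit 612486464),
   .b (nat_lit 808511521),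
   .b (nat_lit 580970529),
   .b (nat_lit 646015009),
   .b (nat_lit 612493345),
   .b (nat_lit 612492353),
   .b (nat_lit 646013025),
   .b (nat_lit 646007073),
   .b (nat_lit 646006081),
   .b (nat_lit 612484417),
   .b (nat_lit 548465728),
   .b (nat_lit 547482688),
   .b (nat_lit 874563936),
   .b (nat_lit 841042272),
   .b (nat_lit 808536416),
   .b (nat_lit 580995424),
   .b (nat_lit 547473760),
   .b (nat_lit 547481665),
   .b (nat_lit 841040225),
   .b (nat_lit 808534369),
   .b (nat_lit 613499233),
   .b (nat_lit 580993377),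
   .b (nat_lit 547480642),
   .b (nat_lit 547473698),
   .b (nat_lit 582020192),
   .b (nat_lit 647064672),
   .b (nat_lit 875613536),
   .b (nat_lit 842091872),
   .b (nat_lit 808570208),
   .b (nat_lit 613535072),
   .b (nat_lit 581029216),
   .b (nat_lit 647063649),
   .b (nat_lit 842089825),
   .b (nat_lit 647054689),
   .b (nat_lit 808568161),
   .b (nat_lit 613533025),
   .b (nat_lit 808570146),
   .b (nat_lit 581029154),
   .b (nat_lit 581028131),
   .b (nat_lit 614591553),
   .b (nat_lit 648104289),
   .b (nat_lit 844132352),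
   .b (nat_lit 583036928),
   .b (nat_lit 546467840),
   .b (nat_lit 579006464),
   .b (nat_lit 579004544),
   .b (nat_lit 546464928),
   .b (nat_lit 546461952),
   .b (nat_lit 578998560),
   .b (nat_lit 546456960),
   .b (nat_lit 578994468),
   .b (nat_lit 810602816),
   .b (nat_lit 549507392),
   .b (nat_lit 809587008),
   .b (nat_lit 612553024),
   .b (nat_lit 810600832),
   .b (nat_lit 809585024),
   .b (nat_lit 679561600),
   .b (nat_lit 547506560),
   .b (nat_lit 679567521),
   .b (nat_lit 547512481),
   .b (nat_lit 809582977),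
   .b (nat_lit 679559553),
   .b (nat_lit 612548993),
   .b (nat_lit 612556930),
   .b (nat_lit 547508482),
   .b (nat_lit 612548932),
   .b (nat_lit 545484832),
   .b (nat_lit 844164224),
   .b (nat_lit 746646656),
   .b (nat_lit 680586368),
   .b (nat_lit 550562944),
   .b (nat_lit 713124992),
   .b (nat_lit 679603328),
   .b (nat_lit 646114432),
   .b (nat_lit 545483904),
   .b (nat_lit 876667072),
   .b (nat_lit 844161216),
   .b (nat_lit 680583360),
   .b (nat_lit 583065792),
   .b (nat_lit 550559936),
   .b (nat_lit 843145408),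
   .b (nat_lit 713121984),
   .b (nat_lit 679600320),
   .b (nat_lit 613572800),
   .b (nat_lit 581066944),
   .b (nat_lit 646111424),
   .b (nat_lit 876666112),
   .b (nat_lit 844160256),
   .b (nat_lit 680582400),
   .b (nat_lit 583064832),
   .b (nat_lit 550558976),
   .b (nat_lit 843144448),
   .b (nat_lit 809622784),
   .b (nat_lit 613571840),
   .b (nat_lit 581065984),
   .b (nat_lit 844158272),
   .b (nat_lit 746640704),
   .b (nat_lit 680580416),
   .b (nat_lit 583062848),
   .b (nat_lit 550556992),
   .b (nat_lit 843142464),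
   .b (nat_lit 809620800),
   .b (nat_lit 679597376),
   .b (nat_lit 613569856),
   .b (nat_lit 646108480),
   .b (nat_lit 545477952),
   .b (nat_lit 876662144),
   .b (nat_lit 844156288),
   .b (nat_lit 680578432),
   .b (nat_lit 550555008),
   .b (nat_lit 843140480),
   .b (nat_lit 713117056),
   .b (nat_lit 809618816),
   .b (nat_lit 679595392),
   .b (nat_lit 613567872),
   .b (nat_lit 581062016),
   .b (nat_lit 545475968),
   .b (nat_lit 876661152),
   .b (nat_lit 844155296),
   .b (nat_lit 746637728),
   .b (nat_lit 680577440),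
   .b (nat_lit 583059872),
   .b (nat_lit 843139488),
   .b (nat_lit 713116064),
   .b (nat_lit 809617824),
   .b (nat_lit 679594400),
   .b (nat_lit 581061024),
   .b (nat_lit 646105504),
   .b (nat_lit 545474976),
   .b (nat_lit 713123969),
   .b (nat_lit 679602305),
   .b (nat_lit 646113409),
   .b (nat_lit 545482881),
   .b (nat_lit 713122977),
   .b (nat_lit 809624737),
   .b (nat_lit 679601313),
   .b (nat_lit 613573793),
   .b (nat_lit 581067937),
   .b (nat_lit 545481889),
   .b (nat_lit 843143425),
   .b (nat_lit 809621761),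
   .b (nat_lit 613570817),
   .b (nat_lit 581064961),
   .b (nat_lit 843141409),
   .b (nat_lit 713117985),
   .b (nat_lit 809619745),
   .b (nat_lit 581062945),
   .b (nat_lit 646107425),
   .b (nat_lit 843138433),
   .b (nat_lit 713115009),
   .b (nat_lit 809616769),
   .b (nat_lit 679593345),
   .b (nat_lit 545473921),
   .b (nat_lit 843137441),
   .b (nat_lit 713114017),
   .b (nat_lit 809615777),
   .b (nat_lit 679592353),
   .b (nat_lit 613564833),
   .b (nat_lit 581058977),
   .b (nat_lit 646103457),
   .b (nat_lit 679601282),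
   .b (nat_lit 646112386),
   .b (nat_lit 545481858),
   .b (nat_lit 809620738),
   .b (nat_lit 613569794),
   .b (nat_lit 581063938),
   .b (nat_lit 646111363),
   .b (nat_lit 545480835),
   .b (nat_lit 613568771),
   .b (nat_lit 581062915),
   .b (nat_lit 646105380),
   .b (nat_lit 545474852),
   .b (nat_lit 646104388),
   .b (nat_lit 545473860),
   .b (nat_lit 714138816),
   .b (nat_lit 584115392),
   .b (nat_lit 713155776),
   .b (nat_lit 647128256),
   .b (nat_lit 714132896),
   .b (nat_lit 843173280),
   .b (nat_lit 713149856),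
   .b (nat_lit 843175201),
   .b (nat_lit 579032353),
   .b (nat_lit 843171233),
   .b (nat_lit 713147809),
   .b (nat_lit 647120289),
   .b (nat_lit 579036291),
   .b (nat_lit 647124227),
   .b (nat_lit 579030308),
   .b (nat_lit 552627360),
   .b (nat_lit 551611552),
   .b (nat_lit 876702880),
   .b (nat_lit 746679456),
   .b (nat_lit 583101600),
   .b (nat_lit 550595744),
   .b (nat_lit 549579936),
   .b (nat_lit 548564128),
   .b (nat_lit 545516704),
   .b (nat_lit 877715680),
   .b (nat_lit 551608544),
   .b (nat_lit 876699872),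
   .b (nat_lit 844194016),
   .b (nat_lit 746676448),
   .b (nat_lit 680616160),
   .b (nat_lit 583098592),
   .b (nat_lit 550592736),
   .b (nat_lit 549576928),
   .b (nat_lit 548561120),
   .b (nat_lit 613605600),
   .b (nat_lit 581099744),
   .b (nat_lit 877713728),
   .b (nat_lit 551606592),
   .b (nat_lit 876697920),
   .b (nat_lit 844192064),
   .b (nat_lit 680614208),
   .b (nat_lit 550590784),
   .b (nat_lit 810670400),
   .b (nat_lit 549574976),
   .b (nat_lit 548559168),
   .b (nat_lit 613603648),
   .b (nat_lit 545511744),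
   .b (nat_lit 877711712),
   .b (nat_lit 551604576),
   .b (nat_lit 876695904),
   .b (nat_lit 844190048),
   .b (nat_lit 746672480),
   .b (nat_lit 583094624),
   .b (nat_lit 550588768),
   .b (nat_lit 810668384),
   .b (nat_lit 549572960),
   .b (nat_lit 613601632),
   .b (nat_lit 581095776),
   .b (nat_lit 877709760),
   .b (nat_lit 844188096),
   .b (nat_lit 746670528),
   .b (nat_lit 680610240),
   .b (nat_lit 583092672),
   .b (nat_lit 550586816),
   .b (nat_lit 549571008),
   .b (nat_lit 548555200),
   .b (nat_lit 545507776),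
   .b (nat_lit 877707744),
   .b (nat_lit 876691936),
   .b (nat_lit 844186080),
   .b (nat_lit 746668512),
   .b (nat_lit 680608224),
   .b (nat_lit 583090656),
   .b (nat_lit 810664416),
   .b (nat_lit 613597664),
   .b (nat_lit 581091808),
   .b (nat_lit 746678433),
   .b (nat_lit 680618145),
   .b (nat_lit 583100577),
   .b (nat_lit 550594721),
   .b (nat_lit 549578913),
   .b (nat_lit 548563105),
   .b (nat_lit 545515681),
   .b (nat_lit 876691905),
   .b (nat_lit 844186049),
   .b (nat_lit 746668481),
   .b (nat_lit 680608193),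
   .b (nat_lit 583090625),
   .b (nat_lit 810664385),
   .b (nat_lit 613597633),
   .b (nat_lit 581091777),
   .b (nat_lit 810674306),
   .b (nat_lit 549578882),
   .b (nat_lit 613607554),
   .b (nat_lit 581101698),
   .b (nat_lit 545515650),
   .b (nat_lit 550593698),
   .b (nat_lit 549577890),
   .b (nat_lit 548562082),
   .b (nat_lit 545514658),
   .b (nat_lit 810670338),
   .b (nat_lit 548559106),
   .b (nat_lit 613603586),
   .b (nat_lit 581097730),
   .b (nat_lit 810668322),
   .b (nat_lit 549572898),
   .b (nat_lit 548557090),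
   .b (nat_lit 581095714),
   .b (nat_lit 810665346),
   .b (nat_lit 613598594),
   .b (nat_lit 545506690),
   .b (nat_lit 810664354),
   .b (nat_lit 613597602),
   .b (nat_lit 581091746),
   .b (nat_lit 548561059),
   .b (nat_lit 545513635),
   .b (nat_lit 613597571),
   .b (nat_lit 581091715),
   .b (nat_lit 613597540),
   .b (nat_lit 581091684),
   .b (nat_lit 545507621),
   .b (nat_lit 545506629),
   .b (nat_lit 585166944),
   .b (nat_lit 714174560),
   .b (nat_lit 747694272),
   .b (nat_lit 585164992),
   .b (nat_lit 714172608),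
   .b (nat_lit 584149184),
   .b (nat_lit 844228800),
   .b (nat_lit 746711232),
   .b (nat_lit 680650944),
   .b (nat_lit 583133376),
   .b (nat_lit 550627520),
   .b (nat_lit 582117568),
   .b (nat_lit 647162048),
   .b (nat_lit 579070144),
   .b (nat_lit 747693280),
   .b (nat_lit 585164000),
   .b (nat_lit 714171616),
   .b (nat_lit 584148192),
   .b (nat_lit 876733664),
   .b (nat_lit 746710240),
   .b (nat_lit 680649952),
   .b (nat_lit 583132384),
   .b (nat_lit 550626528),
   .b (nat_lit 582116576),
   .b (nat_lit 647161056),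
   .b (nat_lit 546530528),
   .b (nat_lit 585162016),
   .b (nat_lit 876731680),
   .b (nat_lit 844225824),
   .b (nat_lit 746708256),
   .b (nat_lit 583130400),
   .b (nat_lit 550624544),
   .b (nat_lit 582114592),
   .b (nat_lit 579067168),
   .b (nat_lit 747689312),
   .b (nat_lit 585160032),
   .b (nat_lit 584144224),
   .b (nat_lit 876729696),
   .b (nat_lit 844223840),
   .b (nat_lit 746706272),
   .b (nat_lit 680645984),
   .b (nat_lit 583128416),
   .b (nat_lit 550622560),
   .b (nat_lit 647157088),
   .b (nat_lit 546526560),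
   .b (nat_lit 579065184),
   .b (nat_lit 747687360),
   .b (nat_lit 714165696),
   .b (nat_lit 584142272),
   .b (nat_lit 876727744),
   .b (nat_lit 844221888),
   .b (nat_lit 746704320),
   .b (nat_lit 680644032),
   .b (nat_lit 583126464),
   .b (nat_lit 550620608),
   .b (nat_lit 582110656),
   .b (nat_lit 546524608),
   .b (nat_lit 876725728),
   .b (nat_lit 844219872),
   .b (nat_lit 746702304),
   .b (nat_lit 680642016),
   .b (nat_lit 550618592),
   .b (nat_lit 647153120),
   .b (nat_lit 546522592),
   .b (nat_lit 876730657),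
   .b (nat_lit 844224801),
   .b (nat_lit 582113569),
   .b (nat_lit 579066145),
   .b (nat_lit 714163649),
   .b (nat_lit 876725697),
   .b (nat_lit 844219841),
   .b (nat_lit 746702273),
   .b (nat_lit 680641985),
   .b (nat_lit 550618561),
   .b (nat_lit 647153089),
   .b (nat_lit 546522561),
   .b (nat_lit 876729634),
   .b (nat_lit 844223778),
   .b (nat_lit 746706210),
   .b (nat_lit 583128354),
   .b (nat_lit 550622498),
   .b (nat_lit 582112546),
   .b (nat_lit 579065122),
   .b (nat_lit 876725666),
   .b (nat_lit 844219810),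
   .b (nat_lit 746702242),
   .b (nat_lit 647153058),
   .b (nat_lit 546522530),
   .b (nat_lit 647161987),
   .b (nat_lit 546531459),
   .b (nat_lit 579070083),
   .b (nat_lit 582116515),
   .b (nat_lit 546530467),
   .b (nat_lit 579069091),
   .b (nat_lit 582113539),
   .b (nat_lit 647158019),
   .b (nat_lit 546527491),
   .b (nat_lit 582111523),
   .b (nat_lit 546525475),
   .b (nat_lit 579064099),
   .b (nat_lit 647153027),
   .b (nat_lit 546522499),
   .b (nat_lit 582107555),
   .b (nat_lit 579060131),
   .b (nat_lit 647152996),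
   .b (nat_lit 546522468),
   .b (nat_lit 579063077),
   .b (nat_lit 579060006),
   .b (nat_lit 747727072),
   .b (nat_lit 585197792),
   .b (nat_lit 551676128),
   .b (nat_lit 582150368),
   .b (nat_lit 585193824),
   .b (nat_lit 877779296),
   .b (nat_lit 551672160),
   .b (nat_lit 546560352),
   .b (nat_lit 877779234),
   .b (nat_lit 582146338),
   .b (nat_lit 877774274),
   .b (nat_lit 546555330),
   .b (nat_lit 546564259),
   .b (nat_lit 582140355),
   .b (nat_lit 546555237),
   .b (nat_lit 617672737),
   .b (nat_lit 612593697),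
   .b (nat_lit 612592769),
   .b (nat_lit 648175809),
   .b (nat_lit 612586817),
   .b (nat_lit 612584833),
   .b (nat_lit 648169889),
   .b (nat_lit 612584772),
   .b (nat_lit 911269184),
   .b (nat_lit 812703040),
   .b (nat_lit 682679616),
   .b (nat_lit 618716480),
   .b (nat_lit 552656192),
   .b (nat_lit 910253376),
   .b (nat_lit 811687232),
   .b (nat_lit 650206528),
   .b (nat_lit 616684864),
   .b (nat_lit 615669056),
   .b (nat_lit 612621632),
   .b (nat_lit 911264224),
   .b (nat_lit 812698080),
   .b (nat_lit 748734944),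
   .b (nat_lit 682674656),
   .b (nat_lit 910248416),
   .b (nat_lit 811682272),
   .b (nat_lit 715213280),
   .b (nat_lit 650201568),
   .b (nat_lit 681691616),
   .b (nat_lit 648202720),
   .b (nat_lit 547572192),
   .b (nat_lit 681701441),
   .b (nat_lit 616689729),
   .b (nat_lit 811691169),
   .b (nat_lit 780233889),
   .b (nat_lit 715222177),
   .b (nat_lit 650210465),
   .b (nat_lit 617704609),
   .b (nat_lit 681700513),
   .b (nat_lit 616688801),
   .b (nat_lit 615672993),
   .b (nat_lit 547581089),
   .b (nat_lit 612625569),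
   .b (nat_lit 910254305),
   .b (nat_lit 780230881),
   .b (nat_lit 715219169),
   .b (nat_lit 650207457),
   .b (nat_lit 681697505),
   .b (nat_lit 616685793),
   .b (nat_lit 648208609),
   .b (nat_lit 547578081),
   .b (nat_lit 618715457),
   .b (nat_lit 910252353),
   .b (nat_lit 811686209),
   .b (nat_lit 780228929),
   .b (nat_lit 617699649),
   .b (nat_lit 616683841),
   .b (nat_lit 615668033),
   .b (nat_lit 612620609),
   .b (nat_lit 910250337),
   .b (nat_lit 780226913),
   .b (nat_lit 715215201),
   .b (nat_lit 650203489),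
   .b (nat_lit 617697633),
   .b (nat_lit 616681825),
   .b (nat_lit 648204641),
   .b (nat_lit 612618593),
   .b (nat_lit 910248385),
   .b (nat_lit 811682241),
   .b (nat_lit 780224961),
   .b (nat_lit 715213249),
   .b (nat_lit 650201537),
   .b (nat_lit 681691585),
   .b (nat_lit 648202689),
   .b (nat_lit 547572161),
   .b (nat_lit 910246369),
   .b (nat_lit 811680225),
   .b (nat_lit 780222945),
   .b (nat_lit 715211233),
   .b (nat_lit 650199521),
   .b (nat_lit 617693665),
   .b (nat_lit 681689569),
   .b (nat_lit 616677857),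
   .b (nat_lit 648200673),
   .b (nat_lit 681700482),
   .b (nat_lit 616688770),
   .b (nat_lit 648211586),
   .b (nat_lit 547581058),
   .b (nat_lit 612625538),
   .b (nat_lit 681697474),
   .b (nat_lit 616685762),
   .b (nat_lit 615669954),
   .b (nat_lit 648208578),
   .b (nat_lit 612622530),
   .b (nat_lit 681696514),
   .b (nat_lit 616684802),
   .b (nat_lit 615668994),
   .b (nat_lit 648207618),
   .b (nat_lit 547577090),
   .b (nat_lit 616682818),
   .b (nat_lit 615667010),
   .b (nat_lit 612619586),
   .b (nat_lit 681692546),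
   .b (nat_lit 615665026),
   .b (nat_lit 547573122),
   .b (nat_lit 612617602),
   .b (nat_lit 648202658),
   .b (nat_lit 547572130),
   .b (nat_lit 615665987),
   .b (nat_lit 612618563),
   .b (nat_lit 648202627),
   .b (nat_lit 547572099),
   .b (nat_lit 648202596),
   .b (nat_lit 547572068),
   .b (nat_lit 612617541),
   .b (nat_lit 942730432),
   .b (nat_lit 846261440),
   .b (nat_lit 781249728),
   .b (nat_lit 716238016),
   .b (nat_lit 652274880),
   .b (nat_lit 651259072),
   .b (nat_lit 780266688),
   .b (nat_lit 715254976),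
   .b (nat_lit 617737408),
   .b (nat_lit 649227456),
   .b (nat_lit 646180032),
   .b (nat_lit 878759392),
   .b (nat_lit 846253536),
   .b (nat_lit 781241824),
   .b (nat_lit 845237728),
   .b (nat_lit 910282208),
   .b (nat_lit 811716064),
   .b (nat_lit 780258784),
   .b (nat_lit 715247072),
   .b (nat_lit 617729504),
   .b (nat_lit 613633504),
   .b (nat_lit 581127648),
   .b (nat_lit 845246561),
   .b (nat_lit 651260001),
   .b (nat_lit 651258049),
   .b (nat_lit 910289089),
   .b (nat_lit 780265665),
   .b (nat_lit 650242241),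
   .b (nat_lit 617736385),
   .b (nat_lit 649226433),
   .b (nat_lit 646179009),
   .b (nat_lit 910288097),
   .b (nat_lit 811721953),
   .b (nat_lit 780264673),
   .b (nat_lit 715252961),
   .b (nat_lit 649225441),
   .b (nat_lit 613639393),
   .b (nat_lit 581133537),
   .b (nat_lit 845241633),
   .b (nat_lit 651255073),
   .b (nat_lit 910286113),
   .b (nat_lit 811719969),
   .b (nat_lit 715250977),
   .b (nat_lit 650239265),
   .b (nat_lit 617733409),
   .b (nat_lit 649223457),
   .b (nat_lit 581131553),
   .b (nat_lit 646176033),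
   .b (nat_lit 652268897),
   .b (nat_lit 845239649),
   .b (nat_lit 651253089),
   .b (nat_lit 910284129),
   .b (nat_lit 811717985),
   .b (nat_lit 780260705),
   .b (nat_lit 650237281),
   .b (nat_lit 617731425),
   .b (nat_lit 613635425),
   .b (nat_lit 581129569),
   .b (nat_lit 910282177),
   .b (nat_lit 811716033),
   .b (nat_lit 780258753),
   .b (nat_lit 715247041),
   .b (nat_lit 617729473),
   .b (nat_lit 613633473),
   .b (nat_lit 581127617),
   .b (nat_lit 651249121),
   .b (nat_lit 910280161),
   .b (nat_lit 811714017),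
   .b (nat_lit 780256737),
   .b (nat_lit 715245025),
   .b (nat_lit 650233313),
   .b (nat_lit 617727457),
   .b (nat_lit 649217505),
   .b (nat_lit 613631457),
   .b (nat_lit 646170081),
   .b (nat_lit 910288066),
   .b (nat_lit 780264642),
   .b (nat_lit 715252930),
   .b (nat_lit 650241218),
   .b (nat_lit 649225410),
   .b (nat_lit 646177986),
   .b (nat_lit 910282146),
   .b (nat_lit 811716002),
   .b (nat_lit 715247010),
   .b (nat_lit 613633442),
   .b (nat_lit 581127586),
   .b (nat_lit 613641347),
   .b (nat_lit 581135491),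
   .b (nat_lit 646179971),
   .b (nat_lit 646176963),
   .b (nat_lit 649223427),
   .b (nat_lit 613637379),
   .b (nat_lit 581131523),
   .b (nat_lit 649221443),
   .b (nat_lit 613635395),
   .b (nat_lit 646174019),
   .b (nat_lit 613633411),
   .b (nat_lit 581127555),
   .b (nat_lit 649218467),
   .b (nat_lit 581126563),
   .b (nat_lit 613633380),
   .b (nat_lit 581127524),
   .b (nat_lit 646170918),
   .b (nat_lit 646169926),
   .b (nat_lit 547614786),
   .b (nat_lit 547613858),
   .b (nat_lit 615700802),
   .b (nat_lit 547606882),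
   .b (nat_lit 615694818),
   .b (nat_lit 547604837),
   .b (nat_lit 749792480),
   .b (nat_lit 878800096),
   .b (nat_lit 781282528),
   .b (nat_lit 716270816),
   .b (nat_lit 652307680),
   .b (nat_lit 586247392),
   .b (nat_lit 682749152),
   .b (nat_lit 618786016),
   .b (nat_lit 552725728),
   .b (nat_lit 649260256),
   .b (nat_lit 548629728),
   .b (nat_lit 879811936),
   .b (nat_lit 846290272),
   .b (nat_lit 652303712),
   .b (nat_lit 586243424),
   .b (nat_lit 911334752),
   .b (nat_lit 812768608),
   .b (nat_lit 748805472),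
   .b (nat_lit 618782048),
   .b (nat_lit 552721760),
   .b (nat_lit 613670240),
   .b (nat_lit 581164384),
   .b (nat_lit 781281505),
   .b (nat_lit 716269793),
   .b (nat_lit 652306657),
   .b (nat_lit 586246369),
   .b (nat_lit 911337697),
   .b (nat_lit 748808417),
   .b (nat_lit 682748129),
   .b (nat_lit 618784993),
   .b (nat_lit 552724705),
   .b (nat_lit 649259233),
   .b (nat_lit 548628705),
   .b (nat_lit 942758241),
   .b (nat_lit 846289249),
   .b (nat_lit 781277537),
   .b (nat_lit 652302689),
   .b (nat_lit 586242401),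
   .b (nat_lit 911333729),
   .b (nat_lit 812767585),
   .b (nat_lit 618781025),
   .b (nat_lit 613669217),
   .b (nat_lit 581163361),
   .b (nat_lit 911337666),
   .b (nat_lit 748808386),
   .b (nat_lit 682748098),
   .b (nat_lit 618784962),
   .b (nat_lit 552724674),
   .b (nat_lit 649259202),
   .b (nat_lit 581167298),
   .b (nat_lit 911336674),
   .b (nat_lit 748807394),
   .b (nat_lit 682747106),
   .b (nat_lit 552723682),
   .b (nat_lit 649258210),
   .b (nat_lit 548627682),
   .b (nat_lit 911334690),
   .b (nat_lit 812768546),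
   .b (nat_lit 748805410),
   .b (nat_lit 682745122),
   .b (nat_lit 618781986),
   .b (nat_lit 552721698),
   .b (nat_lit 649256226),
   .b (nat_lit 548625698),
   .b (nat_lit 581164322),
   .b (nat_lit 911332706),
   .b (nat_lit 812766562),
   .b (nat_lit 748803426),
   .b (nat_lit 618780002),
   .b (nat_lit 552719714),
   .b (nat_lit 613668194),
   .b (nat_lit 581162338),
   .b (nat_lit 911330754),
   .b (nat_lit 812764610),
   .b (nat_lit 748801474),
   .b (nat_lit 552717762),
   .b (nat_lit 613666242),
   .b (nat_lit 581160386),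
   .b (nat_lit 911328738),
   .b (nat_lit 812762594),
   .b (nat_lit 748799458),
   .b (nat_lit 682739170),
   .b (nat_lit 618776034),
   .b (nat_lit 649250274),
   .b (nat_lit 548619746),
   .b (nat_lit 613664226),
   .b (nat_lit 548629667),
   .b (nat_lit 613674147),
   .b (nat_lit 581168291),
   .b (nat_lit 649257187),
   .b (nat_lit 548626659),
   .b (nat_lit 649255235),
   .b (nat_lit 613669187),
   .b (nat_lit 613667171),
   .b (nat_lit 581161315),
   .b (nat_lit 649251267),
   .b (nat_lit 548620739),
   .b (nat_lit 649249251),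
   .b (nat_lit 613663203),
   .b (nat_lit 581157347),
   .b (nat_lit 613666149),
   .b (nat_lit 581160293),
   .b (nat_lit 581157222),
   .b (nat_lit 582185059),
   .b (nat_lit 647229539),
   .b (nat_lit 582182115),
   .b (nat_lit 582180131),
   .b (nat_lit 647222627),
   .b (nat_lit 647218659),
   .b (nat_lit 647218534),
   .b (nat_lit 653356257),
   .b (nat_lit 782363873),
   .b (nat_lit 619834593),
   .b (nat_lit 615738593),
   .b (nat_lit 912350561),
   .b (nat_lit 653352289),
   .b (nat_lit 619830625),
   .b (nat_lit 648273249),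
   .b (nat_lit 782363842),
   .b (nat_lit 619834562),
   .b (nat_lit 648277186),
   .b (nat_lit 782355938),
   .b (nat_lit 615730658),
   .b (nat_lit 615734595),
   .b (nat_lit 648268134),
   .b (nat_lit 810701184),
   .b (nat_lit 679657860),
   .b (nat_lit 876762496),
   .b (nat_lit 844256640),
   .b (nat_lit 746739072),
   .b (nat_lit 680678784),
   .b (nat_lit 550655360),
   .b (nat_lit 746743940),
   .b (nat_lit 680683652),
   .b (nat_lit 583166084),
   .b (nat_lit 550660228),
   .b (nat_lit 713222276),
   .b (nat_lit 746742948),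
   .b (nat_lit 550659236),
   .b (nat_lit 680679684),
   .b (nat_lit 550656260),
   .b (nat_lit 713216292),
   .b (nat_lit 550651268),
   .b (nat_lit 713213316),
   .b (nat_lit 713212324),
   .b (nat_lit 551710880),
   .b (nat_lit 844296352),
   .b (nat_lit 877812096),
   .b (nat_lit 844290432),
   .b (nat_lit 680712576),
   .b (nat_lit 550689152),
   .b (nat_lit 877810112),
   .b (nat_lit 844288448),
   .b (nat_lit 746770880),
   .b (nat_lit 583193024),
   .b (nat_lit 550687168),
   .b (nat_lit 844294308),
   .b (nat_lit 844284356),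
   .b (nat_lit 746766788),
   .b (nat_lit 680706500),
   .b (nat_lit 583188932),
   .b (nat_lit 746775717),
   .b (nat_lit 680715429),
   .b (nat_lit 583197861),
   .b (nat_lit 550692005),
   .b (nat_lit 550687013),
   .b (nat_lit 714267040),
   .b (nat_lit 747787712),
   .b (nat_lit 584242624),
   .b (nat_lit 910316929),
   .b (nat_lit 811750785),
   .b (nat_lit 780293505),
   .b (nat_lit 617764225),
   .b (nat_lit 679695745),
   .b (nat_lit 811756676),
   .b (nat_lit 780299396),
   .b (nat_lit 715287684),
   .b (nat_lit 650275972),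
   .b (nat_lit 679701636),
   .b (nat_lit 617767108),
   .b (nat_lit 715283716),
   .b (nat_lit 679695684),
   .b (nat_lit 679693700),
   .b (nat_lit 679692708),
   .b (nat_lit 845305249),
   .b (nat_lit 713248164),
   .b (nat_lit 685825408),
   .b (nat_lit 911367552),
   .b (nat_lit 812801408),
   .b (nat_lit 748838272),
   .b (nat_lit 682777984),
   .b (nat_lit 618814848),
   .b (nat_lit 552754560),
   .b (nat_lit 811785600),
   .b (nat_lit 715316608),
   .b (nat_lit 617799040),
   .b (nat_lit 679730560),
   .b (nat_lit 717312480),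
   .b (nat_lit 911364576),
   .b (nat_lit 812798432),
   .b (nat_lit 748835296),
   .b (nat_lit 618811872),
   .b (nat_lit 811782624),
   .b (nat_lit 780325344),
   .b (nat_lit 715313632),
   .b (nat_lit 650301920),
   .b (nat_lit 617796064),
   .b (nat_lit 549671392),
   .b (nat_lit 911366529),
   .b (nat_lit 682776961),
   .b (nat_lit 618813825),
   .b (nat_lit 552753537),
   .b (nat_lit 811784577),
   .b (nat_lit 780327297),
   .b (nat_lit 617798017),
   .b (nat_lit 679729537),
   .b (nat_lit 717312449),
   .b (nat_lit 911364545),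
   .b (nat_lit 812798401),
   .b (nat_lit 748835265),
   .b (nat_lit 552751553),
   .b (nat_lit 811782593),
   .b (nat_lit 780325313),
   .b (nat_lit 715313601),
   .b (nat_lit 650301889),
   .b (nat_lit 617796033),
   .b (nat_lit 549671361),
   .b (nat_lit 911365506),
   .b (nat_lit 812799362),
   .b (nat_lit 748836226),
   .b (nat_lit 682775938),
   .b (nat_lit 618812802),
   .b (nat_lit 552752514),
   .b (nat_lit 811783554),
   .b (nat_lit 780326274),
   .b (nat_lit 617796994),
   .b (nat_lit 679728514),
   .b (nat_lit 911364483),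
   .b (nat_lit 812798339),
   .b (nat_lit 748835203),
   .b (nat_lit 618811779),
   .b (nat_lit 552751491),
   .b (nat_lit 811782531),
   .b (nat_lit 780325251),
   .b (nat_lit 715313539),
   .b (nat_lit 617795971),
   .b (nat_lit 682781860),
   .b (nat_lit 549678244),
   .b (nat_lit 679734436),
   .b (nat_lit 552755428),
   .b (nat_lit 780329188),
   .b (nat_lit 715317476),
   .b (nat_lit 650305764),
   .b (nat_lit 617799908),
   .b (nat_lit 549675236),
   .b (nat_lit 811784516),
   .b (nat_lit 780327236),
   .b (nat_lit 650303812),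
   .b (nat_lit 549673284),
   .b (nat_lit 679729476),
   .b (nat_lit 811782500),
   .b (nat_lit 780325220),
   .b (nat_lit 715313508),
   .b (nat_lit 650301796),
   .b (nat_lit 617795940),
   .b (nat_lit 549671268),
   .b (nat_lit 811780548),
   .b (nat_lit 780323268),
   .b (nat_lit 650299844),
   .b (nat_lit 549669316),
   .b (nat_lit 811778532),
   .b (nat_lit 780321252),
   .b (nat_lit 715309540)]

theorem okb0 : all5 db b0 (nat_lit 0) = true := by decide +kernel

theorem lenb0 : b0.length = 1500 := by decide +kernel

end Pool.Agent.H36.QT.D
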