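import Pool.Agent.H36.QT.W5
import Pool.Agent.H36.QT.D.Db

set_option autoImplicit false
set_option maxRecDepth 100000
set_option linter.all false

namespace Pool.Agent.H36.QT.D

open Pool.Agent.H36.QT

/-- certificates of the base clauses 1500, …, 2999 -/
noncomputable def b1 : List Ce :=
  [.b (nat_lit 650297828),
   .b (nat_lit 617791972),
   .b (nat_lit 679723492),
   .b (nat_lit 679731397),
   .b (nat_lit 650304773),
   .b (nat_lit 549674245),
   .b (nat_lit 549672261),
   .b (nat_lit 679728453),
   .b (nat_lit 679726469),
   .b (nat_lit 549669285),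
   .b (nat_lit 679725477),
   .b (nat_lit 679723398),
   .b (nat_lit 719379872),
   .b (nat_lit 717348256),
   .b (nat_lit 878861728),
   .b (nat_lit 846355872),
   .b (nat_lit 652369312),
   .b (nat_lit 586309024),
   .b (nat_lit 845340064),
   .b (nat_lit 746806688),
   .b (nat_lit 680746400),
   .b (nat_lit 583228832),
   .b (nat_lit 713285024),
   .b (nat_lit 751883744),
   .b (nat_lit 878859744),
   .b (nat_lit 846353888),
   .b (nat_lit 781342176),
   .b (nat_lit 652367328),
   .b (nat_lit 845338080),
   .b (nat_lit 651351520),
   .b (nat_lit 746804704),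
   .b (nat_lit 680744416),
   .b (nat_lit 583226848),
   .b (nat_lit 550720992),
   .b (nat_lit 878860705),
   .b (nat_lit 781343137),
   .b (nat_lit 716331425),
   .b (nat_lit 652368289),
   .b (nat_lit 845339041),
   .b (nat_lit 680745377),
   .b (nat_lit 583227809),
   .b (nat_lit 713284001),
   .b (nat_lit 878859713),
   .b (nat_lit 846353857),
   .b (nat_lit 781342145),
   .b (nat_lit 586307009),
   .b (nat_lit 845338049),
   .b (nat_lit 651351489),
   .b (nat_lit 746804673),
   .b (nat_lit 680744385),
   .b (nat_lit 583226817),
   .b (nat_lit 550720961),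
   .b (nat_lit 878859682),
   .b (nat_lit 846353826),
   .b (nat_lit 781342114),
   .b (nat_lit 652367266),
   .b (nat_lit 586306978),
   .b (nat_lit 845338018),
   .b (nat_lit 746804642),
   .b (nat_lit 680744354),
   .b (nat_lit 583226786),
   .b (nat_lit 878859651),
   .b (nat_lit 846353795),
   .b (nat_lit 781342083),
   .b (nat_lit 652367235),
   .b (nat_lit 586306947),
   .b (nat_lit 845337987),
   .b (nat_lit 651351427),
   .b (nat_lit 746804611),
   .b (nat_lit 680744323),
   .b (nat_lit 550720899),
   .b (nat_lit 651356356),
   .b (nat_lit 651355364),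
   .b (nat_lit 746808548),
   .b (nat_lit 680748260),
   .b (nat_lit 583230692),
   .b (nat_lit 550724836),
   .b (nat_lit 845339940),
   .b (nat_lit 651353380),
   .b (nat_lit 746806564),
   .b (nat_lit 583228708),
   .b (nat_lit 550722852),
   .b (nat_lit 713284900),
   .b (nat_lit 845337956),
   .b (nat_lit 651351396),
   .b (nat_lit 746804580),
   .b (nat_lit 680744292),
   .b (nat_lit 583226724),
   .b (nat_lit 550720868),
   .b (nat_lit 845336004),
   .b (nat_lit 746802628),
   .b (nat_lit 680742340),
   .b (nat_lit 583224772),
   .b (nat_lit 550718916),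
   .b (nat_lit 713280964),
   .b (nat_lit 845333988),
   .b (nat_lit 651347428),
   .b (nat_lit 746800612),
   .b (nat_lit 680740324),
   .b (nat_lit 550716900),
   .b (nat_lit 713278948),
   .b (nat_lit 713286853),
   .b (nat_lit 746802597),
   .b (nat_lit 680742309),
   .b (nat_lit 583224741),
   .b (nat_lit 713280933),
   .b (nat_lit 713281830),
   .b (nat_lit 713278854),
   .b (nat_lit 713277862),
   .b (nat_lit 911399298),
   .b (nat_lit 812833154),
   .b (nat_lit 618846594),
   .b (nat_lit 552786306),
   .b (nat_lit 911397314),
   .b (nat_lit 812831170),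
   .b (nat_lit 748868034),
   .b (nat_lit 552784322),
   .b (nat_lit 549704130),
   .b (nat_lit 812838053),
   .b (nat_lit 748874917),
   .b (nat_lit 682814629),
   .b (nat_lit 549711013),
   .b (nat_lit 549706053),
   .b (nat_lit 549704037),
   .b (nat_lit 549702085),
   .b (nat_lit 719417568),
   .b (nat_lit 879910336),
   .b (nat_lit 749886912),
   .b (nat_lit 878894528),
   .b (nat_lit 846388672),
   .b (nat_lit 716365248),
   .b (nat_lit 586341824),
   .b (nat_lit 746839488),
   .b (nat_lit 680779200),
   .b (nat_lit 583261632),
   .b (nat_lit 550755776),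
   .b (nat_lit 685890016),
   .b (nat_lit 879909344),
   .b (nat_lit 878893536),
   .b (nat_lit 846387680),
   .b (nat_lit 781375968),
   .b (nat_lit 716364256),
   .b (nat_lit 652401120),
   .b (nat_lit 551770592),
   .b (nat_lit 680778208),
   .b (nat_lit 583260640),
   .b (nat_lit 550754784),
   .b (nat_lit 879909313),
   .b (nat_lit 878893505),
   .b (nat_lit 846387649),
   .b (nat_lit 781375937),
   .b (nat_lit 716364225),
   .b (nat_lit 586340801),
   .b (nat_lit 680778177),
   .b (nat_lit 583260609),
   .b (nat_lit 550754753),
   .b (nat_lit 879909282),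
   .b (nat_lit 878893474),
   .b (nat_lit 846387618),
   .b (nat_lit 716364194),
   .b (nat_lit 652401058),
   .b (nat_lit 586340770),
   .b (nat_lit 879908290),
   .b (nat_lit 749884866),
   .b (nat_lit 878892482),
   .b (nat_lit 846386626),
   .b (nat_lit 781374914),
   .b (nat_lit 586339778),
   .b (nat_lit 746837442),
   .b (nat_lit 680777154),
   .b (nat_lit 583259586),
   .b (nat_lit 550753730),
   .b (nat_lit 550760611),
   .b (nat_lit 878893443),
   .b (nat_lit 846387587),
   .b (nat_lit 781375875),
   .b (nat_lit 551770499),
   .b (nat_lit 680778115),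
   .b (nat_lit 879907267),
   .b (nat_lit 749883843),
   .b (nat_lit 878891459),
   .b (nat_lit 846385603),
   .b (nat_lit 781373891),
   .b (nat_lit 716362179),
   .b (nat_lit 586338755),
   .b (nat_lit 746836419),
   .b (nat_lit 583258563),
   .b (nat_lit 550752707),
   .b (nat_lit 781379812),
   .b (nat_lit 716368100),
   .b (nat_lit 652404964),
   .b (nat_lit 586344676),
   .b (nat_lit 551774436),
   .b (nat_lit 878893412),
   .b (nat_lit 846387556),
   .b (nat_lit 781375844),
   .b (nat_lit 652400996),
   .b (nat_lit 586340708),
   .b (nat_lit 551770468),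
   .b (nat_lit 680778084),
   .b (nat_lit 746842309),
   .b (nat_lit 583264453),
   .b (nat_lit 550758597),
   .b (nat_lit 551773413),
   .b (nat_lit 551771429),
   .b (nat_lit 746839333),
   .b (nat_lit 583261477),
   .b (nat_lit 550755621),
   .b (nat_lit 551769445),
   .b (nat_lit 746837349),
   .b (nat_lit 680777061),
   .b (nat_lit 583259493),
   .b (nat_lit 550753637),
   .b (nat_lit 746835397),
   .b (nat_lit 680775109),
   .b (nat_lit 583257541),
   .b (nat_lit 550751685),
   .b (nat_lit 551765477),
   .b (nat_lit 746833381),
   .b (nat_lit 680773093),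
   .b (nat_lit 550749669),
   .b (nat_lit 746832326),
   .b (nat_lit 680772038),
   .b (nat_lit 583254470),
   .b (nat_lit 714332579),
   .b (nat_lit 747853251),
   .b (nat_lit 584308163),
   .b (nat_lit 584309030),
   .b (nat_lit 714327494),
   .b (nat_lit 879942082),
   .b (nat_lit 551803237),
   .b (nat_lit 619863425),
   .b (nat_lit 681794945),
   .b (nat_lit 782389729),
   .b (nat_lit 616780257),
   .b (nat_lit 681789924),
   .b (nat_lit 912416161),
   .b (nat_lit 653417889),
   .b (nat_lit 811818401),
   .b (nat_lit 715349409),
   .b (nat_lit 650337697),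
   .b (nat_lit 912414177),
   .b (nat_lit 811816417),
   .b (nat_lit 780359137),
   .b (nat_lit 650335713),
   .b (nat_lit 617829857),
   .b (nat_lit 811814372),
   .b (nat_lit 780357092),
   .b (nat_lit 715345380),
   .b (nat_lit 617827812),
   .b (nat_lit 780361926),
   .b (nat_lit 715350214),
   .b (nat_lit 619896194),
   .b (nat_lit 681827714),
   .b (nat_lit 782422498),
   .b (nat_lit 616813026),
   .b (nat_lit 616815941),
   .b (nat_lit 946920928),
   .b (nat_lit 913464800),
   .b (nat_lit 912448992),
   .b (nat_lit 812867040),
   .b (nat_lit 748903904),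
   .b (nat_lit 682843616),
   .b (nat_lit 618880480),
   .b (nat_lit 715382240),
   .b (nat_lit 650370528),
   .b (nat_lit 617864672),
   .b (nat_lit 784462049),
   .b (nat_lit 720461249),
   .b (nat_lit 686939585),
   .b (nat_lit 913464769),
   .b (nat_lit 912448961),
   .b (nat_lit 653450689),
   .b (nat_lit 812867009),
   .b (nat_lit 748903873),
   .b (nat_lit 682843585),
   .b (nat_lit 715382209),
   .b (nat_lit 650370497),
   .b (nat_lit 617864641),
   .b (nat_lit 945904097),
   .b (nat_lit 913463777),
   .b (nat_lit 783440353),
   .b (nat_lit 812866017),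
   .b (nat_lit 618879457),
   .b (nat_lit 780392929),
   .b (nat_lit 715381217),
   .b (nat_lit 653455554),
   .b (nat_lit 650375362),
   .b (nat_lit 913464738),
   .b (nat_lit 912448930),
   .b (nat_lit 653450658),
   .b (nat_lit 812866978),
   .b (nat_lit 682843554),
   .b (nat_lit 618880418),
   .b (nat_lit 552820130),
   .b (nat_lit 715382178),
   .b (nat_lit 650370466),
   .b (nat_lit 784455138),
   .b (nat_lit 913462754),
   .b (nat_lit 783439330),
   .b (nat_lit 912446946),
   .b (nat_lit 812864994),
   .b (nat_lit 748901858),
   .b (nat_lit 682841570),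
   .b (nat_lit 618878434),
   .b (nat_lit 780391906),
   .b (nat_lit 650368482),
   .b (nat_lit 617862626),
   .b (nat_lit 913464707),
   .b (nat_lit 912448899),
   .b (nat_lit 653450627),
   .b (nat_lit 812866947),
   .b (nat_lit 748903811),
   .b (nat_lit 682843523),
   .b (nat_lit 618880387),
   .b (nat_lit 552820099),
   .b (nat_lit 715382147),
   .b (nat_lit 617864579),
   .b (nat_lit 913461731),
   .b (nat_lit 783438307),
   .b (nat_lit 912445923),
   .b (nat_lit 812863971),
   .b (nat_lit 748900835),
   .b (nat_lit 618877411),
   .b (nat_lit 780390883),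
   .b (nat_lit 715379171),
   .b (nat_lit 650367459),
   .b (nat_lit 617861603),
   .b (nat_lit 653454564),
   .b (nat_lit 748907748),
   .b (nat_lit 682847460),
   .b (nat_lit 618884324),
   .b (nat_lit 552824036),
   .b (nat_lit 912448868),
   .b (nat_lit 653450596),
   .b (nat_lit 748903780),
   .b (nat_lit 618880356),
   .b (nat_lit 552820068),
   .b (nat_lit 715382116),
   .b (nat_lit 650370404),
   .b (nat_lit 617864548),
   .b (nat_lit 780397765),
   .b (nat_lit 715386053),
   .b (nat_lit 650374341),
   .b (nat_lit 617868485),
   .b (nat_lit 812862949),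
   .b (nat_lit 748899813),
   .b (nat_lit 682839525),
   .b (nat_lit 618876389),
   .b (nat_lit 780389861),
   .b (nat_lit 715378149),
   .b (nat_lit 617860581),
   .b (nat_lit 780392774),
   .b (nat_lit 650369350),
   .b (nat_lit 617863494),
   .b (nat_lit 780390758),
   .b (nat_lit 715379046),
   .b (nat_lit 650367334),
   .b (nat_lit 617861478),
   .b (nat_lit 650365382),
   .b (nat_lit 780386790),
   .b (nat_lit 715375078),
   .b (nat_lit 650363366),
   .b (nat_lit 617857510),
   .b (nat_lit 651423939),
   .b (nat_lit 878927267),
   .b (nat_lit 846421411),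
   .b (nat_lit 716397987),
   .b (nat_lit 652434851),
   .b (nat_lit 586374563),
   .b (nat_lit 878925283),
   .b (nat_lit 846419427),
   .b (nat_lit 781407715),
   .b (nat_lit 652432867),
   .b (nat_lit 651417059),
   .b (nat_lit 846424262),
   .b (nat_lit 651421894),
   .b (nat_lit 651418918),
   .b (nat_lit 651416934),
   .b (nat_lit 651412966),
   .b (nat_lit 783479010),
   .b (nat_lit 913497538),
   .b (nat_lit 812899778),
   .b (nat_lit 748936642),
   .b (nat_lit 682876354),
   .b (nat_lit 552852930),
   .b (nat_lit 913496546),
   .b (nat_lit 783473122),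
   .b (nat_lit 812898786),
   .b (nat_lit 682875362),
   .b (nat_lit 812903653),
   .b (nat_lit 812899685),
   .b (nat_lit 748936549),
   .b (nat_lit 618913125),
   .b (nat_lit 552852837),
   .b (nat_lit 552853735),
   .b (nat_lit 879975875),
   .b (nat_lit 749952451),
   .b (nat_lit 846454211),
   .b (nat_lit 716430787),
   .b (nat_lit 586407363),
   .b (nat_lit 879974883),
   .b (nat_lit 846453219),
   .b (nat_lit 781441507),
   .b (nat_lit 716429795),
   .b (nat_lit 652466659),
   .b (nat_lit 846457062),
   .b (nat_lit 846453094),
   .b (nat_lit 781441382),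
   .b (nat_lit 652466534),
   .b (nat_lit 586406246),
   .b (nat_lit 781444327),
   .b (nat_lit 716432615),
   .b (nat_lit 652469479),
   .b (nat_lit 913530339),
   .b (nat_lit 653516134),
   .b (nat_lit 717410756),
   .b (nat_lit 717446564),
   .b (nat_lit 717479364),
   .b (nat_lit 685988324),
   .b (nat_lit 717478372),
   .b (nat_lit 717484229),
   .b (nat_lit 751000997),
   .b (nat_lit 685989285),
   .b (nat_lit 717479333),
   .b (nat_lit 750999013),
   .b (nat_lit 685987301),
   .b (nat_lit 717476294),
   .b (nat_lit 686021093),
   .b (nat_lit 720625094),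
   .b (nat_lit 720625063),
   .b (nat_lit 814804224),
   .b (nat_lit 880862528),
   .b (nat_lit 814802240),
   .b (nat_lit 813819200),
   .b (nat_lit 613705024),
   .b (nat_lit 847339809),
   .b (nat_lit 581198113),
   .b (nat_lit 814836032),
   .b (nat_lit 548694336),
   .b (nat_lit 880894304),
   .b (nat_lit 547676512),
   .b (nat_lit 548692258),
   .b (nat_lit 880930080),
   .b (nat_lit 582249760),
   .b (nat_lit 881911136),
   .b (nat_lit 880928096),
   .b (nat_lit 814867808),
   .b (nat_lit 613737824),
   .b (nat_lit 581231968),
   .b (nat_lit 848390433),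
   .b (nat_lit 582248737),
   .b (nat_lit 613738785),
   .b (nat_lit 880928034),
   .b (nat_lit 582247714),
   .b (nat_lit 613738755),
   .b (nat_lit 582246691),
   .b (nat_lit 613729640),
   .b (nat_lit 816901440),
   .b (nat_lit 615804224),
   .b (nat_lit 581266752),
   .b (nat_lit 914450753),
   .b (nat_lit 581265729),
   .b (nat_lit 914448737),
   .b (nat_lit 849437025),
   .b (nat_lit 614785377),
   .b (nat_lit 581263713),
   .b (nat_lit 815918338),
   .b (nat_lit 614788354),
   .b (nat_lit 581266690),
   .b (nat_lit 615802178),
   .b (nat_lit 581264706),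
   .b (nat_lit 615801155),
   .b (nat_lit 581257576),
   .b (nat_lit 849472801),
   .b (nat_lit 649358625),
   .b (nat_lit 914482529),
   .b (nat_lit 648340833),
   .b (nat_lit 649356611),
   .b (nat_lit 883027296),
   .b (nat_lit 915499361),
   .b (nat_lit 883027234),
   .b (nat_lit 582315298),
   .b (nat_lit 883025250),
   .b (nat_lit 615835971),
   .b (nat_lit 814903552),
   .b (nat_lit 880960896),
   .b (nat_lit 814900608),
   .b (nat_lit 746874240),
   .b (nat_lit 680813952),
   .b (nat_lit 550790528),
   .b (nat_lit 880959904),
   .b (nat_lit 847438240),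
   .b (nat_lit 746873248),
   .b (nat_lit 680812960),
   .b (nat_lit 583295392),
   .b (nat_lit 847438116),
   .b (nat_lit 746873124),
   .b (nat_lit 583295268),
   .b (nat_lit 550789412),
   .b (nat_lit 746874117),
   .b (nat_lit 680810760),
   .b (nat_lit 583291176),
   .b (nat_lit 550785320),
   .b (nat_lit 714368416),
   .b (nat_lit 584344868),
   .b (nat_lit 814934400),
   .b (nat_lit 551840128),
   .b (nat_lit 880992704),
   .b (nat_lit 549773760),
   .b (nat_lit 549775621),
   .b (nat_lit 551837989),
   .b (nat_lit 585396512),
   .b (nat_lit 848488864),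
   .b (nat_lit 747923872),
   .b (nat_lit 585394592),
   .b (nat_lit 680847776),
   .b (nat_lit 583330208),
   .b (nat_lit 882009536),
   .b (nat_lit 747922880),
   .b (nat_lit 680846784),
   .b (nat_lit 583329216),
   .b (nat_lit 550823360),
   .b (nat_lit 585394468),
   .b (nat_lit 585393445),
   .b (nat_lit 583329061),
   .b (nat_lit 680838600),
   .b (nat_lit 550815176),
   .b (nat_lit 583323945),
   .b (nat_lit 681861505),
   .b (nat_lit 616849732),
   .b (nat_lit 914515329),
   .b (nat_lit 813917569),
   .b (nat_lit 780428673),
   .b (nat_lit 715416961),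
   .b (nat_lit 617899393),
   .b (nat_lit 914514337),
   .b (nat_lit 849502625),
   .b (nat_lit 780427681),
   .b (nat_lit 715415969),
   .b (nat_lit 650404257),
   .b (nat_lit 813917508),
   .b (nat_lit 780428612),
   .b (nat_lit 650405188),
   .b (nat_lit 617899332),
   .b (nat_lit 650404102),
   .b (nat_lit 715414792),
   .b (nat_lit 617897224),
   .b (nat_lit 820047232),
   .b (nat_lit 816999808),
   .b (nat_lit 849538432),
   .b (nat_lit 682913152),
   .b (nat_lit 552889728),
   .b (nat_lit 681897344),
   .b (nat_lit 550858112),
   .b (nat_lit 885055968),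
   .b (nat_lit 883057120),
   .b (nat_lit 914547168),
   .b (nat_lit 849535456),
   .b (nat_lit 748970464),
   .b (nat_lit 682910176),
   .b (nat_lit 681894368),
   .b (nat_lit 616882656),
   .b (nat_lit 583360992),
   .b (nat_lit 550855136),
   .b (nat_lit 819030401),
   .b (nat_lit 816998785),
   .b (nat_lit 914549121),
   .b (nat_lit 849537409),
   .b (nat_lit 813951361),
   .b (nat_lit 748972417),
   .b (nat_lit 682912129),
   .b (nat_lit 618948993),
   .b (nat_lit 552888705),
   .b (nat_lit 681896321),
   .b (nat_lit 550857089),
   .b (nat_lit 851534273),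
   .b (nat_lit 883057089),
   .b (nat_lit 914547137),
   .b (nat_lit 849535425),
   .b (nat_lit 748970433),
   .b (nat_lit 552886721),
   .b (nat_lit 681894337),
   .b (nat_lit 616882625),
   .b (nat_lit 583360961),
   .b (nat_lit 550855105),
   .b (nat_lit 583364866),
   .b (nat_lit 816997762),
   .b (nat_lit 914548098),
   .b (nat_lit 813950338),
   .b (nat_lit 748971394),
   .b (nat_lit 682911106),
   .b (nat_lit 618947970),
   .b (nat_lit 552887682),
   .b (nat_lit 681895298),
   .b (nat_lit 550856066),
   .b (nat_lit 883057058),
   .b (nat_lit 914547106),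
   .b (nat_lit 849535394),
   .b (nat_lit 748970402),
   .b (nat_lit 682910114),
   .b (nat_lit 618946978),
   .b (nat_lit 552886690),
   .b (nat_lit 616882594),
   .b (nat_lit 583360930),
   .b (nat_lit 883057027),
   .b (nat_lit 914547075),
   .b (nat_lit 849535363),
   .b (nat_lit 748970371),
   .b (nat_lit 682910083),
   .b (nat_lit 618946947),
   .b (nat_lit 552886659),
   .b (nat_lit 681894275),
   .b (nat_lit 550855043),
   .b (nat_lit 914549060),
   .b (nat_lit 813951300),
   .b (nat_lit 682912068),
   .b (nat_lit 618948932),
   .b (nat_lit 552888644),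
   .b (nat_lit 914547044),
   .b (nat_lit 849535332),
   .b (nat_lit 748970340),
   .b (nat_lit 616882532),
   .b (nat_lit 583360868),
   .b (nat_lit 550855012),
   .b (nat_lit 681897221),
   .b (nat_lit 616885509),
   .b (nat_lit 583363845),
   .b (nat_lit 550857989),
   .b (nat_lit 813950277),
   .b (nat_lit 618947909),
   .b (nat_lit 552887621),
   .b (nat_lit 616883525),
   .b (nat_lit 748970247),
   .b (nat_lit 681894151),
   .b (nat_lit 616882439),
   .b (nat_lit 583360775),
   .b (nat_lit 616878440),
   .b (nat_lit 583356776),
   .b (nat_lit 681888200),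
   .b (nat_lit 550848968),
   .b (nat_lit 681886184),
   .b (nat_lit 616874472),
   .b (nat_lit 583352808),
   .b (nat_lit 550848905),
   .b (nat_lit 853601696),
   .b (nat_lit 851570080),
   .b (nat_lit 850554272),
   .b (nat_lit 814968224),
   .b (nat_lit 847506848),
   .b (nat_lit 781479328),
   .b (nat_lit 716467616),
   .b (nat_lit 652504480),
   .b (nat_lit 586444192),
   .b (nat_lit 715451808),
   .b (nat_lit 650440096),
   .b (nat_lit 948037088),
   .b (nat_lit 819062240),
   .b (nat_lit 915564000),
   .b (nat_lit 881026528),
   .b (nat_lit 814966240),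
   .b (nat_lit 781477344),
   .b (nat_lit 716465632),
   .b (nat_lit 652502496),
   .b (nat_lit 715449824),
   .b (nat_lit 650438112),
   .b (nat_lit 617932256),
   .b (nat_lit 584410592),
   .b (nat_lit 852586785),
   .b (nat_lit 819065121),
   .b (nat_lit 652505377),
   .b (nat_lit 584413473),
   .b (nat_lit 851569057),
   .b (nat_lit 915564961),
   .b (nat_lit 850553249),
   .b (nat_lit 814967201),
   .b (nat_lit 847505825),
   .b (nat_lit 781478305),
   .b (nat_lit 716466593),
   .b (nat_lit 652503457),
   .b (nat_lit 715450785),
   .b (nat_lit 650439073),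
   .b (nat_lit 915563969),
   .b (nat_lit 881026497),
   .b (nat_lit 814966209),
   .b (nat_lit 781477313),
   .b (nat_lit 716465601),
   .b (nat_lit 715449793),
   .b (nat_lit 650438081),
   .b (nat_lit 617932225),
   .b (nat_lit 584410561),
   .b (nat_lit 948037026),
   .b (nat_lit 915563938),
   .b (nat_lit 881026466),
   .b (nat_lit 814966178),
   .b (nat_lit 781477282),
   .b (nat_lit 716465570),
   .b (nat_lit 652502434),
   .b (nat_lit 715449762),
   .b (nat_lit 650438050),
   .b (nat_lit 715452675),
   .b (nat_lit 915563907),
   .b (nat_lit 881026435),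
   .b (nat_lit 814966147),
   .b (nat_lit 781477251),
   .b (nat_lit 716465539),
   .b (nat_lit 652502403),
   .b (nat_lit 586442115),
   .b (nat_lit 715449731),
   .b (nat_lit 584410499),
   .b (nat_lit 915562915),
   .b (nat_lit 850551203),
   .b (nat_lit 881025443),
   .b (nat_lit 847503779),
   .b (nat_lit 781476259),
   .b (nat_lit 716464547),
   .b (nat_lit 652501411),
   .b (nat_lit 586441123),
   .b (nat_lit 715448739),
   .b (nat_lit 650437027),
   .b (nat_lit 881028388),
   .b (nat_lit 847506724),
   .b (nat_lit 716467492),
   .b (nat_lit 652504356),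
   .b (nat_lit 586444068),
   .b (nat_lit 584412452),
   .b (nat_lit 881026404),
   .b (nat_lit 814966116),
   .b (nat_lit 781477220),
   .b (nat_lit 652502372),
   .b (nat_lit 586442084),
   .b (nat_lit 715449700),
   .b (nat_lit 650437988),
   .b (nat_lit 584410468),
   .b (nat_lit 617933062),
   .b (nat_lit 584411398),
   .b (nat_lit 847503654),
   .b (nat_lit 716464422),
   .b (nat_lit 652501286),
   .b (nat_lit 586440998),
   .b (nat_lit 715449607),
   .b (nat_lit 650437895),
   .b (nat_lit 617932039),
   .b (nat_lit 584410375),
   .b (nat_lit 584408360),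
   .b (nat_lit 650433896),
   .b (nat_lit 617928040),
   .b (nat_lit 584406376),
   .b (nat_lit 715443656),
   .b (nat_lit 617926088),
   .b (nat_lit 584404424),
   .b (nat_lit 715441640),
   .b (nat_lit 650429928),
   .b (nat_lit 617924072),
   .b (nat_lit 584404361),
   .b (nat_lit 817031554),
   .b (nat_lit 551905666),
   .b (nat_lit 883089858),
   .b (nat_lit 549839298),
   .b (nat_lit 549841221),
   .b (nat_lit 551903589),
   .b (nat_lit 886140352),
   .b (nat_lit 885124544),
   .b (nat_lit 884108736),
   .b (nat_lit 850587072),
   .b (nat_lit 881061312),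
   .b (nat_lit 750022080),
   .b (nat_lit 682945984),
   .b (nat_lit 552922560),
   .b (nat_lit 583396800),
   .b (nat_lit 550890944),
   .b (nat_lit 853633504),
   .b (nat_lit 820111840),
   .b (nat_lit 915597792),
   .b (nat_lit 850586080),
   .b (nat_lit 815000032),
   .b (nat_lit 750021088),
   .b (nat_lit 749005280),
   .b (nat_lit 682944992),
   .b (nat_lit 585460192),
   .b (nat_lit 583395808),
   .b (nat_lit 550889952),
   .b (nat_lit 949053889),
   .b (nat_lit 915597761),
   .b (nat_lit 850586049),
   .b (nat_lit 750021057),
   .b (nat_lit 749005249),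
   .b (nat_lit 682944961),
   .b (nat_lit 552921537),
   .b (nat_lit 550889921),
   .b (nat_lit 750022946),
   .b (nat_lit 585462050),
   .b (nat_lit 583397666),
   .b (nat_lit 820111778),
   .b (nat_lit 915597730),
   .b (nat_lit 850586018),
   .b (nat_lit 814999970),
   .b (nat_lit 749005218),
   .b (nat_lit 682944930),
   .b (nat_lit 618981794),
   .b (nat_lit 552921506),
   .b (nat_lit 585460130),
   .b (nat_lit 885122498),
   .b (nat_lit 884106690),
   .b (nat_lit 915596738),
   .b (nat_lit 881059266),
   .b (nat_lit 814998978),
   .b (nat_lit 750020034),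
   .b (nat_lit 749004226),
   .b (nat_lit 682943938),
   .b (nat_lit 552920514),
   .b (nat_lit 915597699),
   .b (nat_lit 850585987),
   .b (nat_lit 749005187),
   .b (nat_lit 682944899),
   .b (nat_lit 618981763),
   .b (nat_lit 552921475),
   .b (nat_lit 585460099),
   .b (nat_lit 550889859),
   .b (nat_lit 884105667),
   .b (nat_lit 915595715),
   .b (nat_lit 850584003),
   .b (nat_lit 881058243),
   .b (nat_lit 750019011),
   .b (nat_lit 682942915),
   .b (nat_lit 552919491),
   .b (nat_lit 915597668),
   .b (nat_lit 814999908),
   .b (nat_lit 749005156),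
   .b (nat_lit 618981732),
   .b (nat_lit 552921444),
   .b (nat_lit 585460068),
   .b (nat_lit 881061157),
   .b (nat_lit 750021925),
   .b (nat_lit 585461029),
   .b (nat_lit 583396645),
   .b (nat_lit 550890789),
   .b (nat_lit 881059173),
   .b (nat_lit 814998885),
   .b (nat_lit 618980709),
   .b (nat_lit 552920421),
   .b (nat_lit 585459045),
   .b (nat_lit 749005063),
   .b (nat_lit 618981639),
   .b (nat_lit 552921351),
   .b (nat_lit 585459975),
   .b (nat_lit 585457959),
   .b (nat_lit 583393575),
   .b (nat_lit 550887719),
   .b (nat_lit 618977640),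
   .b (nat_lit 552917352),
   .b (nat_lit 585455976),
   .b (nat_lit 585453929),
   .b (nat_lit 583387593),
   .b (nat_lit 550881737),
   .b (nat_lit 585449961),
   .b (nat_lit 583385577),
   .b (nat_lit 550880714),
   .b (nat_lit 848554403),
   .b (nat_lit 781511075),
   .b (nat_lit 716499363),
   .b (nat_lit 652536227),
   .b (nat_lit 586475939),
   .b (nat_lit 882075075),
   .b (nat_lit 781510083),
   .b (nat_lit 716498371),
   .b (nat_lit 586474947),
   .b (nat_lit 584443331),
   .b (nat_lit 584444198),
   .b (nat_lit 584443175),
   .b (nat_lit 716496169),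
   .b (nat_lit 584441129),
   .b (nat_lit 584437193),
   .b (nat_lit 750053827),
   .b (nat_lit 585492775),
   .b (nat_lit 816016769),
   .b (nat_lit 782527873),
   .b (nat_lit 619998593),
   .b (nat_lit 715484545),
   .b (nat_lit 617966977),
   .b (nat_lit 916611553),
   .b (nat_lit 782524897),
   .b (nat_lit 715481569),
   .b (nat_lit 650469857),
   .b (nat_lit 617964001),
   .b (nat_lit 619998532),
   .b (nat_lit 715484484),
   .b (nat_lit 619995462),
   .b (nat_lit 715475432),
   .b (nat_lit 650463720),
   .b (nat_lit 849571233),
   .b (nat_lit 653553057),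
   .b (nat_lit 914580961),
   .b (nat_lit 651519457),
   .b (nat_lit 651521286),
   .b (nat_lit 653550918),
   .b (nat_lit 616952130),
   .b (nat_lit 816049538),
   .b (nat_lit 749038978),
   .b (nat_lit 682978690),
   .b (nat_lit 619015554),
   .b (nat_lit 552955266),
   .b (nat_lit 916644322),
   .b (nat_lit 749036002),
   .b (nat_lit 682975714),
   .b (nat_lit 619012578),
   .b (nat_lit 616948194),
   .b (nat_lit 616951109),
   .b (nat_lit 619012423),
   .b (nat_lit 616948039),
   .b (nat_lit 619010378),
   .b (nat_lit 552950090),
   .b (nat_lit 616945994),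
   .b (nat_lit 616940010),
   .b (nat_lit 951119328),
   .b (nat_lit 950136288),
   .b (nat_lit 883125728),
   .b (nat_lit 817065440),
   .b (nat_lit 783576544),
   .b (nat_lit 782560736),
   .b (nat_lit 716533216),
   .b (nat_lit 652570080),
   .b (nat_lit 650505696),
   .b (nat_lit 617999840),
   .b (nat_lit 883125697),
   .b (nat_lit 817065409),
   .b (nat_lit 849604033),
   .b (nat_lit 783576513),
   .b (nat_lit 782560705),
   .b (nat_lit 620031425),
   .b (nat_lit 716533185),
   .b (nat_lit 617999809),
   .b (nat_lit 919693793),
   .b (nat_lit 917662177),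
   .b (nat_lit 817064417),
   .b (nat_lit 914614753),
   .b (nat_lit 849603041),
   .b (nat_lit 782559713),
   .b (nat_lit 716532193),
   .b (nat_lit 652569057),
   .b (nat_lit 650504673),
   .b (nat_lit 950136226),
   .b (nat_lit 821161378),
   .b (nat_lit 883125666),
   .b (nat_lit 817065378),
   .b (nat_lit 849604002),
   .b (nat_lit 783576482),
   .b (nat_lit 716533154),
   .b (nat_lit 652570018),
   .b (nat_lit 586509730),
   .b (nat_lit 650505634),
   .b (nat_lit 950134242),
   .b (nat_lit 918676962),
   .b (nat_lit 917661154),
   .b (nat_lit 883123682),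
   .b (nat_lit 817063394),
   .b (nat_lit 914613730),
   .b (nat_lit 783574498),
   .b (nat_lit 782558690),
   .b (nat_lit 716531170),
   .b (nat_lit 652568034),
   .b (nat_lit 650503650),
   .b (nat_lit 883125635),
   .b (nat_lit 817065347),
   .b (nat_lit 849603971),
   .b (nat_lit 783576451),
   .b (nat_lit 782560643),
   .b (nat_lit 620031363),
   .b (nat_lit 716533123),
   .b (nat_lit 652569987),
   .b (nat_lit 586509699),
   .b (nat_lit 617999747),
   .b (nat_lit 917660131),
   .b (nat_lit 883122659),
   .b (nat_lit 914612707),
   .b (nat_lit 849600995),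
   .b (nat_lit 783573475),
   .b (nat_lit 782557667),
   .b (nat_lit 716530147),
   .b (nat_lit 652567011),
   .b (nat_lit 650502627),
   .b (nat_lit 617996771),
   .b (nat_lit 883125604),
   .b (nat_lit 849603940),
   .b (nat_lit 782560612),
   .b (nat_lit 652569956),
   .b (nat_lit 586509668),
   .b (nat_lit 914614598),
   .b (nat_lit 650504518),
   .b (nat_lit 617998662),
   .b (nat_lit 914612582),
   .b (nat_lit 849600870),
   .b (nat_lit 620028262),
   .b (nat_lit 586506598),
   .b (nat_lit 782560519),
   .b (nat_lit 620031239),
   .b (nat_lit 652569863),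
   .b (nat_lit 586509575),
   .b (nat_lit 783574343),
   .b (nat_lit 650503495),
   .b (nat_lit 586505576),
   .b (nat_lit 650501449),
   .b (nat_lit 716524009),
   .b (nat_lit 652560873),
   .b (nat_lit 650496489),
   .b (nat_lit 617991626),
   .b (nat_lit 650495466),
   .b (nat_lit 850619811),
   .b (nat_lit 653585827),
   .b (nat_lit 915629539),
   .b (nat_lit 651554086),
   .b (nat_lit 653583718),
   .b (nat_lit 883159394),
   .b (nat_lit 883158466),
   .b (nat_lit 817098178),
   .b (nat_lit 750087618),
   .b (nat_lit 683011522),
   .b (nat_lit 552988098),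
   .b (nat_lit 917694946),
   .b (nat_lit 817097186),
   .b (nat_lit 750086626),
   .b (nat_lit 683010530),
   .b (nat_lit 619047394),
   .b (nat_lit 883158373),
   .b (nat_lit 683010375),
   .b (nat_lit 619047239),
   .b (nat_lit 552986951),
   .b (nat_lit 884174275),
   .b (nat_lit 850652611),
   .b (nat_lit 783609283),
   .b (nat_lit 716565955),
   .b (nat_lit 586542531),
   .b (nat_lit 915663331),
   .b (nat_lit 850651619),
   .b (nat_lit 783608291),
   .b (nat_lit 716564963),
   .b (nat_lit 652601827),
   .b (nat_lit 915663206),
   .b (nat_lit 716565799),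
   .b (nat_lit 652602663),
   .b (nat_lit 586542375),
   .b (nat_lit 716563815),
   .b (nat_lit 783642082),
   .b (nat_lit 620096839),
   .b (nat_lit 717513124),
   .b (nat_lit 820146560),
   .b (nat_lit 686059904),
   .b (nat_lit 583430528),
   .b (nat_lit 550924672),
   .b (nat_lit 819128708),
   .b (nat_lit 686057860),
   .b (nat_lit 851632580),
   .b (nat_lit 751067588),
   .b (nat_lit 683991492),
   .b (nat_lit 583426500),
   .b (nat_lit 550920644),
   .b (nat_lit 686056837),
   .b (nat_lit 751067557),
   .b (nat_lit 686055845),
   .b (nat_lit 683991461),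
   .b (nat_lit 583426469),
   .b (nat_lit 583424392),
   .b (nat_lit 583422408),
   .b (nat_lit 550916552),
   .b (nat_lit 583422345),
   .b (nat_lit 719614368),
   .b (nat_lit 717549984),
   .b (nat_lit 584479136),
   .b (nat_lit 550957472),
   .b (nat_lit 719612324),
   .b (nat_lit 717547940),
   .b (nat_lit 717546948),
   .b (nat_lit 584476100),
   .b (nat_lit 550954436),
   .b (nat_lit 719611301),
   .b (nat_lit 717546917),
   .b (nat_lit 584476069),
   .b (nat_lit 550954405),
   .b (nat_lit 717543848),
   .b (nat_lit 584472008),
   .b (nat_lit 550950344),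
   .b (nat_lit 550950281),
   .b (nat_lit 550946220),
   .b (nat_lit 886239680),
   .b (nat_lit 751102404),
   .b (nat_lit 585527589),
   .b (nat_lit 753166757),
   .b (nat_lit 751102373),
   .b (nat_lit 686090661),
   .b (nat_lit 585525669),
   .b (nat_lit 821195137),
   .b (nat_lit 687108481),
   .b (nat_lit 687107460),
   .b (nat_lit 784622052),
   .b (nat_lit 717578724),
   .b (nat_lit 650535396),
   .b (nat_lit 618029540),
   .b (nat_lit 687104390),
   .b (nat_lit 717578630),
   .b (nat_lit 650535302),
   .b (nat_lit 717574632),
   .b (nat_lit 650531304),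
   .b (nat_lit 618025448),
   .b (nat_lit 650532234),
   .b (nat_lit 854749601),
   .b (nat_lit 851669409),
   .b (nat_lit 720662945),
   .b (nat_lit 618066337),
   .b (nat_lit 851668388),
   .b (nat_lit 720661924),
   .b (nat_lit 819160548),
   .b (nat_lit 785671652),
   .b (nat_lit 718628324),
   .b (nat_lit 651584996),
   .b (nat_lit 618063332),
   .b (nat_lit 718631174),
   .b (nat_lit 785671558),
   .b (nat_lit 720659846),
   .b (nat_lit 718628230),
   .b (nat_lit 618063238),
   .b (nat_lit 720658854),
   .b (nat_lit 618061224),
   .b (nat_lit 651580904),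
   .b (nat_lit 618059240),
   .b (nat_lit 618057132),
   .b (nat_lit 821227906),
   .b (nat_lit 686125442),
   .b (nat_lit 818147653),
   .b (nat_lit 684060997),
   .b (nat_lit 686124421),
   .b (nat_lit 751133157),
   .b (nat_lit 686121445),
   .b (nat_lit 684057061),
   .b (nat_lit 619078117),
   .b (nat_lit 686121351),
   .b (nat_lit 553013706),
   .b (nat_lit 820212192),
   .b (nat_lit 786723296),
   .b (nat_lit 784658912),
   .b (nat_lit 719679968),
   .b (nat_lit 717615584),
   .b (nat_lit 652636640),
   .b (nat_lit 888304065),
   .b (nat_lit 919794113),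
   .b (nat_lit 854782401),
   .b (nat_lit 885223873),
   .b (nat_lit 851702209),
   .b (nat_lit 754217409),
   .b (nat_lit 784658881),
   .b (nat_lit 687141313),
   .b (nat_lit 752185793),
   .b (nat_lit 717615553),
   .b (nat_lit 586576321),
   .b (nat_lit 553054657),
   .b (nat_lit 920809890),
   .b (nat_lit 888304034),
   .b (nat_lit 919794082),
   .b (nat_lit 854782370),
   .b (nat_lit 885223842),
   .b (nat_lit 820212130),
   .b (nat_lit 851702178),
   .b (nat_lit 786723234),
   .b (nat_lit 784658850),
   .b (nat_lit 687141282),
   .b (nat_lit 719679906),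
   .b (nat_lit 717615522),
   .b (nat_lit 652636578),
   .b (nat_lit 586576290),
   .b (nat_lit 553054626),
   .b (nat_lit 920809859),
   .b (nat_lit 888304003),
   .b (nat_lit 919794051),
   .b (nat_lit 854782339),
   .b (nat_lit 820212099),
   .b (nat_lit 819196291),
   .b (nat_lit 786723203),
   .b (nat_lit 754217347),
   .b (nat_lit 687141251),
   .b (nat_lit 719679875),
   .b (nat_lit 586576259),
   .b (nat_lit 619114883),
   .b (nat_lit 553054595),
   .b (nat_lit 888303044),
   .b (nat_lit 854781380),
   .b (nat_lit 851701188),
   .b (nat_lit 819195332),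
   .b (nat_lit 754216388),
   .b (nat_lit 784657860),
   .b (nat_lit 687140292),
   .b (nat_lit 752184772),
   .b (nat_lit 717614532),
   .b (nat_lit 586575300),
   .b (nat_lit 553053636),
   .b (nat_lit 919792100),
   .b (nat_lit 820210148),
   .b (nat_lit 819194340),
   .b (nat_lit 786721252),
   .b (nat_lit 784656868),
   .b (nat_lit 752183780),
   .b (nat_lit 719677924),
   .b (nat_lit 717613540),
   .b (nat_lit 652634596),
   .b (nat_lit 619112932),
   .b (nat_lit 885222821),
   .b (nat_lit 820211109),
   .b (nat_lit 851701157),
   .b (nat_lit 786722213),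
   .b (nat_lit 754216357),
   .b (nat_lit 784657829),
   .b (nat_lit 687140261),
   .b (nat_lit 719678885),
   .b (nat_lit 717614501),
   .b (nat_lit 652635557),
   .b (nat_lit 586575269),
   .b (nat_lit 553053605),
   .b (nat_lit 885220837),
   .b (nat_lit 820209125),
   .b (nat_lit 819193317),
   .b (nat_lit 786720229),
   .b (nat_lit 784655845),
   .b (nat_lit 752182757),
   .b (nat_lit 719676901),
   .b (nat_lit 717612517),
   .b (nat_lit 652633573),
   .b (nat_lit 619111909),
   .b (nat_lit 819194246),
   .b (nat_lit 786721158),
   .b (nat_lit 687139206),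
   .b (nat_lit 752183686),
   .b (nat_lit 719677830),
   .b (nat_lit 619112838),
   .b (nat_lit 553052550),
   .b (nat_lit 851698118),
   .b (nat_lit 754213318),
   .b (nat_lit 784654790),
   .b (nat_lit 687137222),
   .b (nat_lit 752181702),
   .b (nat_lit 717611462),
   .b (nat_lit 586572230),
   .b (nat_lit 553050566),
   .b (nat_lit 719679751),
   .b (nat_lit 786720135),
   .b (nat_lit 754214279),
   .b (nat_lit 687138183),
   .b (nat_lit 719676807),
   .b (nat_lit 619111815),
   .b (nat_lit 553051527),
   .b (nat_lit 786719143),
   .b (nat_lit 754213287),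
   .b (nat_lit 784654759),
   .b (nat_lit 687137191),
   .b (nat_lit 719675815),
   .b (nat_lit 717611431),
   .b (nat_lit 652632487),
   .b (nat_lit 586572199),
   .b (nat_lit 687136200),
   .b (nat_lit 717610440),
   .b (nat_lit 586571208),
   .b (nat_lit 553049544),
   .b (nat_lit 719673832),
   .b (nat_lit 717609448),
   .b (nat_lit 652630504),
   .b (nat_lit 619108840),
   .b (nat_lit 752180617),
   .b (nat_lit 719674761),
   .b (nat_lit 652631433),
   .b (nat_lit 619109769),
   .b (nat_lit 553049481),
   .b (nat_lit 752177641),
   .b (nat_lit 719671785),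
   .b (nat_lit 717607401),
   .b (nat_lit 652628457),
   .b (nat_lit 619106793),
   .b (nat_lit 717609386),
   .b (nat_lit 652630442),
   .b (nat_lit 586570154),
   .b (nat_lit 586569162),
   .b (nat_lit 553047498),
   .b (nat_lit 586569099),
   .b (nat_lit 619107723),
   .b (nat_lit 553047435),
   .b (nat_lit 619105740),
   .b (nat_lit 553045452),
   .b (nat_lit 619103724),
   .b (nat_lit 853766563),
   .b (nat_lit 720695715),
   .b (nat_lit 718663974),
   .b (nat_lit 652669222),
   .b (nat_lit 586608934),
   .b (nat_lit 720693670),
   .b (nat_lit 785704390),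
   .b (nat_lit 720692678),
   .b (nat_lit 718661062),
   .b (nat_lit 586606022),
   .b (nat_lit 720692647),
   .b (nat_lit 652662249),
   .b (nat_lit 652662187),
   .b (nat_lit 888336834),
   .b (nat_lit 885256642),
   .b (nat_lit 820244930),
   .b (nat_lit 619147714),
   .b (nat_lit 885256549),
   .b (nat_lit 820244837),
   .b (nat_lit 885255621),
   .b (nat_lit 820242917),
   .b (nat_lit 753232357),
   .b (nat_lit 751167973),
   .b (nat_lit 686156261),
   .b (nat_lit 619145701),
   .b (nat_lit 753232263),
   .b (nat_lit 686156167),
   .b (nat_lit 619145607),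
   .b (nat_lit 553085319),
   .b (nat_lit 751165895),
   .b (nat_lit 619141515),
   .b (nat_lit 553081227),
   .b (nat_lit 619139531),
   .b (nat_lit 754250179),
   .b (nat_lit 754248134),
   .b (nat_lit 752218407),
   .b (nat_lit 719712551),
   .b (nat_lit 652701991),
   .b (nat_lit 586641703),
   .b (nat_lit 786753959),
   .b (nat_lit 754248103),
   .b (nat_lit 719710631),
   .b (nat_lit 652700071),
   .b (nat_lit 586639783),
   .b (nat_lit 754247111),
   .b (nat_lit 719707593),
   .b (nat_lit 719706601),
   .b (nat_lit 652696041),
   .b (nat_lit 652695979),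
   .b (nat_lit 586634699),
   .b (nat_lit 586632654),
   .b (nat_lit 785740257),
   .b (nat_lit 785739236),
   .b (nat_lit 787771718),
   .b (nat_lit 653685062),
   .b (nat_lit 620163398),
   .b (nat_lit 787770758),
   .b (nat_lit 785739142),
   .b (nat_lit 720727430),
   .b (nat_lit 620162438),
   .b (nat_lit 785736166),
   .b (nat_lit 653680042),
   .b (nat_lit 918811106),
   .b (nat_lit 786788834),
   .b (nat_lit 784724450),
   .b (nat_lit 950267365),
   .b (nat_lit 786787813),
   .b (nat_lit 784723429),
   .b (nat_lit 784724295),
   .b (nat_lit 687206727),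
   .b (nat_lit 553120071),
   .b (nat_lit 786787719),
   .b (nat_lit 754281863),
   .b (nat_lit 687205767),
   .b (nat_lit 620195207),
   .b (nat_lit 553119111),
   .b (nat_lit 786784743),
   .b (nat_lit 784720359),
   .b (nat_lit 620192231),
   .b (nat_lit 553116135),
   .b (nat_lit 687201738),
   .b (nat_lit 553115082),
   .b (nat_lit 620191115),
   .b (nat_lit 553115019),
   .b (nat_lit 920875491),
   .b (nat_lit 919859683),
   .b (nat_lit 787804643),
   .b (nat_lit 785773027),
   .b (nat_lit 653750630),
   .b (nat_lit 586674534),
   .b (nat_lit 854846918),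
   .b (nat_lit 787803590),
   .b (nat_lit 785771974),
   .b (nat_lit 720760262),
   .b (nat_lit 586673606),
   .b (nat_lit 919857638),
   .b (nat_lit 785770982),
   .b (nat_lit 787803559),
   .b (nat_lit 720760231),
   .b (nat_lit 653749671),
   .b (nat_lit 586673575),
   .b (nat_lit 785769959),
   .b (nat_lit 653747687),
   .b (nat_lit 586671591),
   .b (nat_lit 653745579),
   .b (nat_lit 586669483),
   .b (nat_lit 586665454),
   .b (nat_lit 754314695),
   .b (nat_lit 786819559),
   .b (nat_lit 719745445),
   .b (nat_lit 687305095),
   .b (nat_lit 754381254),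
   .b (nat_lit 720859559),
   .b (nat_lit 851765672),
   .b (nat_lit 819258824),
   .b (nat_lit 819293576),
   .b (nat_lit 851796456),
   .b (nat_lit 918876520),
   .b (nat_lit 821358952),
   .b (nat_lit 853897576),
   .b (nat_lit 950332872),
   .b (nat_lit 886402504),
   .b (nat_lit 851832264),
   .b (nat_lit 819326408),
   .b (nat_lit 819325416),
   .b (nat_lit 886402441),
   .b (nat_lit 853896585),
   .b (nat_lit 819326345),
   .b (nat_lit 886399465),
   .b (nat_lit 853893609),
   .b (nat_lit 851831210),
   .b (nat_lit 886435273),
   .b (nat_lit 853928425),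
   .b (nat_lit 821423562),
   .b (nat_lit 918940138),
   .b (nat_lit 886469064),
   .b (nat_lit 820441481),
   .b (nat_lit 920023528),
   .b (nat_lit 855011754),
   .b (nat_lit 888566218),
   .b (nat_lit 821522827),
   .b (nat_lit 921104873),
   .b (nat_lit 855077291),
   .b (nat_lit 688969280),
   .b (nat_lit 654464576),
   .b (nat_lit 721474144),
   .b (nat_lit 621957728),
   .b (nat_lit 621958657),
   .b (nat_lit 654463521),
   .b (nat_lit 689004032),
   .b (nat_lit 621993472),
   .b (nat_lit 721508928),
   .b (nat_lit 689003072),
   .b (nat_lit 687987264),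
   .b (nat_lit 654498368),
   .b (nat_lit 553867840),
   .b (nat_lit 689003009),
   .b (nat_lit 621992449),
   .b (nat_lit 621991426),
   .b (nat_lit 654496290),
   .b (nat_lit 553865762),
   .b (nat_lit 621990403),
   .b (nat_lit 553863717),
   .b (nat_lit 721542688),
   .b (nat_lit 722557536),
   .b (nat_lit 721541728),
   .b (nat_lit 689035872),
   .b (nat_lit 587422304),
   .b (nat_lit 721541665),
   .b (nat_lit 655545859),
   .b (nat_lit 691101248),
   .b (nat_lit 723607041),
   .b (nat_lit 691101185),
   .b (nat_lit 690085377),
   .b (nat_lit 656596481),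
   .b (nat_lit 620974690),
   .b (nat_lit 723639904),
   .b (nat_lit 622026336),
   .b (nat_lit 724655649),
   .b (nat_lit 723639841),
   .b (nat_lit 691133985),
   .b (nat_lit 657645089),
   .b (nat_lit 654532129),
   .b (nat_lit 723638881),
   .b (nat_lit 622025313),
   .b (nat_lit 622024290),
   .b (nat_lit 657643075),
   .b (nat_lit 654530115),
   .b (nat_lit 622023267),
   .b (nat_lit 622022245),
   .b (nat_lit 757194274),
   .b (nat_lit 654564898),
   .b (nat_lit 622058082),
   .b (nat_lit 622059011),
   .b (nat_lit 721607296),
   .b (nat_lit 689101316),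
   .b (nat_lit 757227136),
   .b (nat_lit 723705472),
   .b (nat_lit 788683393),
   .b (nat_lit 723704449),
   .b (nat_lit 788682370),
   .b (nat_lit 757225090),
   .b (nat_lit 788681347),
   .b (nat_lit 757224067),
   .b (nat_lit 723702403),
   .b (nat_lit 723705348),
   .b (nat_lit 691199492),
   .b (nat_lit 691198532),
   .b (nat_lit 688085572),
   .b (nat_lit 688084549),
   .b (nat_lit 758275744),
   .b (nat_lit 689135264),
   .b (nat_lit 726751905),
   .b (nat_lit 789732001),
   .b (nat_lit 689134241),
   .b (nat_lit 789730978)]

theorem okb1 : all5 db b1 (nat_lit 1500) = true := by decide +kernel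

theorem lenb1 : b1.length = 1500 := by decide +kernel

end Pool.Agent.H36.QT.D
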