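import Pool.Agent.H36.QT.W5
import Pool.Agent.H36.QT.D.Db

set_option autoImplicit false
set_option maxRecDepth 100000
set_option linter.all false

namespace Pool.Agent.H36.QT.D

open Pool.Agent.H36.QT

/-- certificates of the base clauses 3000, …, 4499 -/
noncomputable def b2 : List Ce :=
  [.b (nat_lit 758273698),
   .b (nat_lit 721639074),
   .b (nat_lit 689133218),
   .b (nat_lit 789730947),
   .b (nat_lit 758273667),
   .b (nat_lit 724753956),
   .b (nat_lit 721640996),
   .b (nat_lit 721640036),
   .b (nat_lit 689134180),
   .b (nat_lit 689133157),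
   .b (nat_lit 788716162),
   .b (nat_lit 688118341),
   .b (nat_lit 721673920),
   .b (nat_lit 689168064),
   .b (nat_lit 760306369),
   .b (nat_lit 789764801),
   .b (nat_lit 755194561),
   .b (nat_lit 721672897),
   .b (nat_lit 689167041),
   .b (nat_lit 789764770),
   .b (nat_lit 689167010),
   .b (nat_lit 789764739),
   .b (nat_lit 721672835),
   .b (nat_lit 755195429),
   .b (nat_lit 721673765),
   .b (nat_lit 721672805),
   .b (nat_lit 689166949),
   .b (nat_lit 689166854),
   .b (nat_lit 691232417),
   .b (nat_lit 723738212),
   .b (nat_lit 757292768),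
   .b (nat_lit 723771104),
   .b (nat_lit 691265248),
   .b (nat_lit 723771073),
   .b (nat_lit 691265217),
   .b (nat_lit 757292706),
   .b (nat_lit 691265186),
   .b (nat_lit 757292675),
   .b (nat_lit 723771011),
   .b (nat_lit 757292645),
   .b (nat_lit 723770981),
   .b (nat_lit 723770886),
   .b (nat_lit 691265030),
   .b (nat_lit 691264070),
   .b (nat_lit 758341283),
   .b (nat_lit 724819494),
   .b (nat_lit 725868228),
   .b (nat_lit 759389861),
   .b (nat_lit 654599744),
   .b (nat_lit 855695968),
   .b (nat_lit 622092896),
   .b (nat_lit 622093825),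
   .b (nat_lit 823225856),
   .b (nat_lit 855730752),
   .b (nat_lit 823224896),
   .b (nat_lit 822209088),
   .b (nat_lit 587557440),
   .b (nat_lit 823224833),
   .b (nat_lit 621077026),
   .b (nat_lit 855764512),
   .b (nat_lit 654634528),
   .b (nat_lit 856779360),
   .b (nat_lit 855763552),
   .b (nat_lit 823257696),
   .b (nat_lit 622127712),
   .b (nat_lit 588606048),
   .b (nat_lit 855763489),
   .b (nat_lit 654633505),
   .b (nat_lit 654632482),
   .b (nat_lit 622126595),
   .b (nat_lit 588604931),
   .b (nat_lit 654631459),
   .b (nat_lit 588598793),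
   .b (nat_lit 825323072),
   .b (nat_lit 654667328),
   .b (nat_lit 857828865),
   .b (nat_lit 825323009),
   .b (nat_lit 824307201),
   .b (nat_lit 623177217),
   .b (nat_lit 622161409),
   .b (nat_lit 825322049),
   .b (nat_lit 654666305),
   .b (nat_lit 654665282),
   .b (nat_lit 623174242),
   .b (nat_lit 622158434),
   .b (nat_lit 654664259),
   .b (nat_lit 654658121),
   .b (nat_lit 857861728),
   .b (nat_lit 858877473),
   .b (nat_lit 857861665),
   .b (nat_lit 656731681),
   .b (nat_lit 655713859),
   .b (nat_lit 654700066),
   .b (nat_lit 922872418),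
   .b (nat_lit 622193250),
   .b (nat_lit 622194179),
   .b (nat_lit 654699075),
   .b (nat_lit 823289472),
   .b (nat_lit 721708672),
   .b (nat_lit 855794336),
   .b (nat_lit 689201824),
   .b (nat_lit 721707556),
   .b (nat_lit 823325184),
   .b (nat_lit 855829120),
   .b (nat_lit 823323264),
   .b (nat_lit 755264128),
   .b (nat_lit 587623040),
   .b (nat_lit 554101376),
   .b (nat_lit 889348800),
   .b (nat_lit 855827136),
   .b (nat_lit 688186048),
   .b (nat_lit 587621056),
   .b (nat_lit 554099392),
   .b (nat_lit 823323140),
   .b (nat_lit 554101252),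
   .b (nat_lit 554100229),
   .b (nat_lit 755261989),
   .b (nat_lit 688185893),
   .b (nat_lit 554099237),
   .b (nat_lit 856877728),
   .b (nat_lit 756312736),
   .b (nat_lit 689236640),
   .b (nat_lit 588671648),
   .b (nat_lit 587655840),
   .b (nat_lit 890398400),
   .b (nat_lit 721741504),
   .b (nat_lit 689235648),
   .b (nat_lit 588670656),
   .b (nat_lit 587654848),
   .b (nat_lit 721742372),
   .b (nat_lit 721741349),
   .b (nat_lit 721738280),
   .b (nat_lit 588666377),
   .b (nat_lit 588665385),
   .b (nat_lit 587688640),
   .b (nat_lit 755296805),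
   .b (nat_lit 825386625),
   .b (nat_lit 723805825),
   .b (nat_lit 857891489),
   .b (nat_lit 691298977),
   .b (nat_lit 691299908),
   .b (nat_lit 723804772),
   .b (nat_lit 621175426),
   .b (nat_lit 688218693),
   .b (nat_lit 827421248),
   .b (nat_lit 826405440),
   .b (nat_lit 689271360),
   .b (nat_lit 827420288),
   .b (nat_lit 891448960),
   .b (nat_lit 857927296),
   .b (nat_lit 825421440),
   .b (nat_lit 822308480),
   .b (nat_lit 788819584),
   .b (nat_lit 757362304),
   .b (nat_lit 721776256),
   .b (nat_lit 654732928),
   .b (nat_lit 622227072),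
   .b (nat_lit 621211264),
   .b (nat_lit 893444832),
   .b (nat_lit 859923168),
   .b (nat_lit 922903264),
   .b (nat_lit 891445984),
   .b (nat_lit 857924320),
   .b (nat_lit 690283232),
   .b (nat_lit 721773280),
   .b (nat_lit 689267424),
   .b (nat_lit 654729952),
   .b (nat_lit 622224096),
   .b (nat_lit 621208288),
   .b (nat_lit 827421185),
   .b (nat_lit 826405377),
   .b (nat_lit 689271297),
   .b (nat_lit 827419265),
   .b (nat_lit 922905217),
   .b (nat_lit 825420417),
   .b (nat_lit 822307457),
   .b (nat_lit 788818561),
   .b (nat_lit 757361281),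
   .b (nat_lit 721775233),
   .b (nat_lit 654731905),
   .b (nat_lit 622226049),
   .b (nat_lit 621210241),
   .b (nat_lit 859923137),
   .b (nat_lit 922903233),
   .b (nat_lit 788816577),
   .b (nat_lit 690283201),
   .b (nat_lit 721773249),
   .b (nat_lit 689267393),
   .b (nat_lit 622224065),
   .b (nat_lit 621208257),
   .b (nat_lit 922904194),
   .b (nat_lit 825419394),
   .b (nat_lit 822306434),
   .b (nat_lit 788817538),
   .b (nat_lit 757360258),
   .b (nat_lit 721774210),
   .b (nat_lit 654730882),
   .b (nat_lit 622225026),
   .b (nat_lit 621209218),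
   .b (nat_lit 922903202),
   .b (nat_lit 891445922),
   .b (nat_lit 857924258),
   .b (nat_lit 788816546),
   .b (nat_lit 757359266),
   .b (nat_lit 690283170),
   .b (nat_lit 689267362),
   .b (nat_lit 654729890),
   .b (nat_lit 622224034),
   .b (nat_lit 621208226),
   .b (nat_lit 922903171),
   .b (nat_lit 891445891),
   .b (nat_lit 857924227),
   .b (nat_lit 788816515),
   .b (nat_lit 757359235),
   .b (nat_lit 721773187),
   .b (nat_lit 654729859),
   .b (nat_lit 622224003),
   .b (nat_lit 621208195),
   .b (nat_lit 857927172),
   .b (nat_lit 825421316),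
   .b (nat_lit 757362180),
   .b (nat_lit 690286084),
   .b (nat_lit 689270276),
   .b (nat_lit 622226948),
   .b (nat_lit 825420356),
   .b (nat_lit 822307396),
   .b (nat_lit 788818500),
   .b (nat_lit 721775172),
   .b (nat_lit 689269316),
   .b (nat_lit 822306373),
   .b (nat_lit 788817477),
   .b (nat_lit 721774149),
   .b (nat_lit 689268293),
   .b (nat_lit 654730821),
   .b (nat_lit 788816485),
   .b (nat_lit 757359205),
   .b (nat_lit 690283109),
   .b (nat_lit 721773157),
   .b (nat_lit 689267301),
   .b (nat_lit 622223973),
   .b (nat_lit 621208165),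
   .b (nat_lit 757359110),
   .b (nat_lit 690283014),
   .b (nat_lit 689267206),
   .b (nat_lit 622223878),
   .b (nat_lit 690281992),
   .b (nat_lit 689266184),
   .b (nat_lit 622222856),
   .b (nat_lit 721771080),
   .b (nat_lit 689265224),
   .b (nat_lit 654727752),
   .b (nat_lit 721769033),
   .b (nat_lit 654725705),
   .b (nat_lit 622220810),
   .b (nat_lit 621205002),
   .b (nat_lit 654725674),
   .b (nat_lit 860975712),
   .b (nat_lit 789869152),
   .b (nat_lit 957410976),
   .b (nat_lit 861990560),
   .b (nat_lit 859958944),
   .b (nat_lit 892497568),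
   .b (nat_lit 858975904),
   .b (nat_lit 855862944),
   .b (nat_lit 823357088),
   .b (nat_lit 789868192),
   .b (nat_lit 758410912),
   .b (nat_lit 691334816),
   .b (nat_lit 655781536),
   .b (nat_lit 654765728),
   .b (nat_lit 622259872),
   .b (nat_lit 827451104),
   .b (nat_lit 923952864),
   .b (nat_lit 892495584),
   .b (nat_lit 823355104),
   .b (nat_lit 758408928),
   .b (nat_lit 723838688),
   .b (nat_lit 691332832),
   .b (nat_lit 722822880),
   .b (nat_lit 655779552),
   .b (nat_lit 860975649),
   .b (nat_lit 827453985),
   .b (nat_lit 855863841),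
   .b (nat_lit 723841569),
   .b (nat_lit 691335713),
   .b (nat_lit 654766625),
   .b (nat_lit 859957921),
   .b (nat_lit 923953825),
   .b (nat_lit 858974881),
   .b (nat_lit 855861921),
   .b (nat_lit 823356065),
   .b (nat_lit 789867169),
   .b (nat_lit 758409889),
   .b (nat_lit 691333793),
   .b (nat_lit 655780513),
   .b (nat_lit 654764705),
   .b (nat_lit 622258849),
   .b (nat_lit 827451073),
   .b (nat_lit 923952833),
   .b (nat_lit 892495553),
   .b (nat_lit 858973889),
   .b (nat_lit 823355073),
   .b (nat_lit 789866177),
   .b (nat_lit 723838657),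
   .b (nat_lit 722822849),
   .b (nat_lit 654763713),
   .b (nat_lit 622257857),
   .b (nat_lit 923952802),
   .b (nat_lit 892495522),
   .b (nat_lit 858973858),
   .b (nat_lit 823355042),
   .b (nat_lit 789866146),
   .b (nat_lit 758408866),
   .b (nat_lit 691332770),
   .b (nat_lit 655779490),
   .b (nat_lit 654763682),
   .b (nat_lit 622257826),
   .b (nat_lit 923952771),
   .b (nat_lit 892495491),
   .b (nat_lit 823355011),
   .b (nat_lit 789866115),
   .b (nat_lit 758408835),
   .b (nat_lit 723838595),
   .b (nat_lit 722822787),
   .b (nat_lit 655779459),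
   .b (nat_lit 622257795),
   .b (nat_lit 923951779),
   .b (nat_lit 892494499),
   .b (nat_lit 858972835),
   .b (nat_lit 855859875),
   .b (nat_lit 789865123),
   .b (nat_lit 758407843),
   .b (nat_lit 691331747),
   .b (nat_lit 655778467),
   .b (nat_lit 654762659),
   .b (nat_lit 622256803),
   .b (nat_lit 858975780),
   .b (nat_lit 855862820),
   .b (nat_lit 758410788),
   .b (nat_lit 723840548),
   .b (nat_lit 691334692),
   .b (nat_lit 654765604),
   .b (nat_lit 858974820),
   .b (nat_lit 855861860),
   .b (nat_lit 823356004),
   .b (nat_lit 789867108),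
   .b (nat_lit 723839588),
   .b (nat_lit 722823780),
   .b (nat_lit 823354981),
   .b (nat_lit 789866085),
   .b (nat_lit 723838565),
   .b (nat_lit 722822757),
   .b (nat_lit 622257765),
   .b (nat_lit 789865990),
   .b (nat_lit 723838470),
   .b (nat_lit 722822662),
   .b (nat_lit 655779334),
   .b (nat_lit 758407718),
   .b (nat_lit 691331622),
   .b (nat_lit 654762534),
   .b (nat_lit 723836456),
   .b (nat_lit 691330600),
   .b (nat_lit 723835496),
   .b (nat_lit 722819688),
   .b (nat_lit 622254696),
   .b (nat_lit 655775305),
   .b (nat_lit 654759497),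
   .b (nat_lit 722817641),
   .b (nat_lit 654759466),
   .b (nat_lit 655812259),
   .b (nat_lit 724887078),
   .b (nat_lit 922937986),
   .b (nat_lit 822340226),
   .b (nat_lit 755329666),
   .b (nat_lit 554166914),
   .b (nat_lit 922936002),
   .b (nat_lit 891478722),
   .b (nat_lit 688251586),
   .b (nat_lit 621241026),
   .b (nat_lit 554164930),
   .b (nat_lit 822340165),
   .b (nat_lit 688253509),
   .b (nat_lit 554166853),
   .b (nat_lit 894529216),
   .b (nat_lit 893513408),
   .b (nat_lit 892530368),
   .b (nat_lit 889417408),
   .b (nat_lit 855895744),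
   .b (nat_lit 823389888),
   .b (nat_lit 721809088),
   .b (nat_lit 689303232),
   .b (nat_lit 654798528),
   .b (nat_lit 622292672),
   .b (nat_lit 587722432),
   .b (nat_lit 828500704),
   .b (nat_lit 855894752),
   .b (nat_lit 823388896),
   .b (nat_lit 756378336),
   .b (nat_lit 721808096),
   .b (nat_lit 689302240),
   .b (nat_lit 654797536),
   .b (nat_lit 622291680),
   .b (nat_lit 587721440),
   .b (nat_lit 957442753),
   .b (nat_lit 855894721),
   .b (nat_lit 823388865),
   .b (nat_lit 788851393),
   .b (nat_lit 721808065),
   .b (nat_lit 689302209),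
   .b (nat_lit 654797505),
   .b (nat_lit 622291649),
   .b (nat_lit 587721409),
   .b (nat_lit 855896610),
   .b (nat_lit 721809954),
   .b (nat_lit 828500642),
   .b (nat_lit 923986594),
   .b (nat_lit 855894690),
   .b (nat_lit 823388834),
   .b (nat_lit 757394082),
   .b (nat_lit 756378274),
   .b (nat_lit 689302178),
   .b (nat_lit 654797474),
   .b (nat_lit 622291618),
   .b (nat_lit 587721378),
   .b (nat_lit 923985602),
   .b (nat_lit 892528322),
   .b (nat_lit 889415362),
   .b (nat_lit 823387842),
   .b (nat_lit 721807042),
   .b (nat_lit 689301186),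
   .b (nat_lit 654796482),
   .b (nat_lit 622290626),
   .b (nat_lit 587720386),
   .b (nat_lit 823390723),
   .b (nat_lit 689304067),
   .b (nat_lit 923986563),
   .b (nat_lit 855894659),
   .b (nat_lit 823388803),
   .b (nat_lit 788851331),
   .b (nat_lit 757394051),
   .b (nat_lit 756378243),
   .b (nat_lit 721808003),
   .b (nat_lit 622291587),
   .b (nat_lit 587721347),
   .b (nat_lit 923984579),
   .b (nat_lit 892527299),
   .b (nat_lit 889414339),
   .b (nat_lit 855892675),
   .b (nat_lit 788849347),
   .b (nat_lit 721806019),
   .b (nat_lit 689300163),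
   .b (nat_lit 654795459),
   .b (nat_lit 622289603),
   .b (nat_lit 587719363),
   .b (nat_lit 889417253),
   .b (nat_lit 855895589),
   .b (nat_lit 788852261),
   .b (nat_lit 757394981),
   .b (nat_lit 721808933),
   .b (nat_lit 654798373),
   .b (nat_lit 855894629),
   .b (nat_lit 823388773),
   .b (nat_lit 788851301),
   .b (nat_lit 757394021),
   .b (nat_lit 756378213),
   .b (nat_lit 721807973),
   .b (nat_lit 689302117),
   .b (nat_lit 587721317),
   .b (nat_lit 823388678),
   .b (nat_lit 756378118),
   .b (nat_lit 622291462),
   .b (nat_lit 757392903),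
   .b (nat_lit 756377095),
   .b (nat_lit 689300999),
   .b (nat_lit 622290439),
   .b (nat_lit 788849191),
   .b (nat_lit 721805863),
   .b (nat_lit 654795303),
   .b (nat_lit 689298953),
   .b (nat_lit 721803849),
   .b (nat_lit 689297993),
   .b (nat_lit 654793289),
   .b (nat_lit 587717193),
   .b (nat_lit 721803818),
   .b (nat_lit 654793258),
   .b (nat_lit 758444579),
   .b (nat_lit 856943267),
   .b (nat_lit 789899939),
   .b (nat_lit 758442659),
   .b (nat_lit 655846051),
   .b (nat_lit 588769955),
   .b (nat_lit 890463939),
   .b (nat_lit 789898947),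
   .b (nat_lit 722855619),
   .b (nat_lit 655845059),
   .b (nat_lit 588768963),
   .b (nat_lit 758442534),
   .b (nat_lit 758441511),
   .b (nat_lit 722853417),
   .b (nat_lit 588766761),
   .b (nat_lit 722852457),
   .b (nat_lit 588765801),
   .b (nat_lit 691368513),
   .b (nat_lit 824405633),
   .b (nat_lit 790916737),
   .b (nat_lit 723873409),
   .b (nat_lit 656830081),
   .b (nat_lit 623308417),
   .b (nat_lit 925000417),
   .b (nat_lit 723870433),
   .b (nat_lit 691364577),
   .b (nat_lit 656827105),
   .b (nat_lit 623305441),
   .b (nat_lit 691367492),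
   .b (nat_lit 691364422),
   .b (nat_lit 691363400),
   .b (nat_lit 857961057),
   .b (nat_lit 857960097),
   .b (nat_lit 825454241),
   .b (nat_lit 791965345),
   .b (nat_lit 657878689),
   .b (nat_lit 656862881),
   .b (nat_lit 926050017),
   .b (nat_lit 825452257),
   .b (nat_lit 724920033),
   .b (nat_lit 657876705),
   .b (nat_lit 857960036),
   .b (nat_lit 657878628),
   .b (nat_lit 791963206),
   .b (nat_lit 724919878),
   .b (nat_lit 657876550),
   .b (nat_lit 657875558),
   .b (nat_lit 927035970),
   .b (nat_lit 788886082),
   .b (nat_lit 824438402),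
   .b (nat_lit 788885122),
   .b (nat_lit 757427842),
   .b (nat_lit 623341186),
   .b (nat_lit 621276802),
   .b (nat_lit 925033186),
   .b (nat_lit 757424866),
   .b (nat_lit 690348770),
   .b (nat_lit 623338210),
   .b (nat_lit 621273826),
   .b (nat_lit 788885061),
   .b (nat_lit 788881991),
   .b (nat_lit 623338055),
   .b (nat_lit 690347530),
   .b (nat_lit 623336970),
   .b (nat_lit 623336010),
   .b (nat_lit 958525152),
   .b (nat_lit 857992928),
   .b (nat_lit 825487072),
   .b (nat_lit 758476512),
   .b (nat_lit 691400416),
   .b (nat_lit 656895712),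
   .b (nat_lit 654831328),
   .b (nat_lit 622325472),
   .b (nat_lit 863071937),
   .b (nat_lit 857992897),
   .b (nat_lit 790949569),
   .b (nat_lit 789933761),
   .b (nat_lit 723906241),
   .b (nat_lit 691400385),
   .b (nat_lit 656895681),
   .b (nat_lit 927066849),
   .b (nat_lit 926083809),
   .b (nat_lit 922970849),
   .b (nat_lit 758475489),
   .b (nat_lit 723905249),
   .b (nat_lit 691399393),
   .b (nat_lit 656894689),
   .b (nat_lit 654830305),
   .b (nat_lit 622324449),
   .b (nat_lit 789934690),
   .b (nat_lit 723907170),
   .b (nat_lit 622326370),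
   .b (nat_lit 958525090),
   .b (nat_lit 829550242),
   .b (nat_lit 891514530),
   .b (nat_lit 857992866),
   .b (nat_lit 825487010),
   .b (nat_lit 789933730),
   .b (nat_lit 758476450),
   .b (nat_lit 691400354),
   .b (nat_lit 656895650),
   .b (nat_lit 654831266),
   .b (nat_lit 622325410),
   .b (nat_lit 958523106),
   .b (nat_lit 926082786),
   .b (nat_lit 922969826),
   .b (nat_lit 825485026),
   .b (nat_lit 758474466),
   .b (nat_lit 723904226),
   .b (nat_lit 691398370),
   .b (nat_lit 656893666),
   .b (nat_lit 654829282),
   .b (nat_lit 622323426),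
   .b (nat_lit 922972739),
   .b (nat_lit 654832195),
   .b (nat_lit 891514499),
   .b (nat_lit 825486979),
   .b (nat_lit 790949507),
   .b (nat_lit 789933699),
   .b (nat_lit 758476419),
   .b (nat_lit 656895619),
   .b (nat_lit 654831235),
   .b (nat_lit 622325379),
   .b (nat_lit 922968803),
   .b (nat_lit 891511523),
   .b (nat_lit 691397347),
   .b (nat_lit 654828259),
   .b (nat_lit 622322403),
   .b (nat_lit 891514469),
   .b (nat_lit 857992805),
   .b (nat_lit 790949477),
   .b (nat_lit 789933669),
   .b (nat_lit 723906149),
   .b (nat_lit 691400293),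
   .b (nat_lit 622325349),
   .b (nat_lit 857992710),
   .b (nat_lit 825486854),
   .b (nat_lit 789933574),
   .b (nat_lit 622325254),
   .b (nat_lit 825485894),
   .b (nat_lit 789932614),
   .b (nat_lit 758475334),
   .b (nat_lit 691399238),
   .b (nat_lit 654830150),
   .b (nat_lit 789931591),
   .b (nat_lit 758474311),
   .b (nat_lit 691398215),
   .b (nat_lit 654829127),
   .b (nat_lit 723903079),
   .b (nat_lit 691396169),
   .b (nat_lit 654827081),
   .b (nat_lit 723901994),
   .b (nat_lit 691396138),
   .b (nat_lit 654827050),
   .b (nat_lit 723901034),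
   .b (nat_lit 622318187),
   .b (nat_lit 892563107),
   .b (nat_lit 859041443),
   .b (nat_lit 791998115),
   .b (nat_lit 657944227),
   .b (nat_lit 655879843),
   .b (nat_lit 924018403),
   .b (nat_lit 892561123),
   .b (nat_lit 724952803),
   .b (nat_lit 657942243),
   .b (nat_lit 655877859),
   .b (nat_lit 859041318),
   .b (nat_lit 791997990),
   .b (nat_lit 724954662),
   .b (nat_lit 657944102),
   .b (nat_lit 655871598),
   .b (nat_lit 788917954),
   .b (nat_lit 923003618),
   .b (nat_lit 757459682),
   .b (nat_lit 757460487),
   .b (nat_lit 788916807),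
   .b (nat_lit 789966531),
   .b (nat_lit 924052195),
   .b (nat_lit 758508259),
   .b (nat_lit 758509095),
   .b (nat_lit 656928481),
   .b (nat_lit 792030790),
   .b (nat_lit 828535424),
   .b (nat_lit 827519616),
   .b (nat_lit 759460480),
   .b (nat_lit 692384384),
   .b (nat_lit 721842816),
   .b (nat_lit 827517572),
   .b (nat_lit 692382340),
   .b (nat_lit 721840772),
   .b (nat_lit 860021444),
   .b (nat_lit 692380356),
   .b (nat_lit 721838788),
   .b (nat_lit 689332932),
   .b (nat_lit 721839749),
   .b (nat_lit 759456421),
   .b (nat_lit 692380325),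
   .b (nat_lit 689332901),
   .b (nat_lit 692378248),
   .b (nat_lit 721836680),
   .b (nat_lit 721834633),
   .b (nat_lit 725935812),
   .b (nat_lit 722888388),
   .b (nat_lit 721872580),
   .b (nat_lit 721868425),
   .b (nat_lit 721868332),
   .b (nat_lit 755395205),
   .b (nat_lit 688349893),
   .b (nat_lit 761557696),
   .b (nat_lit 721908416),
   .b (nat_lit 689402560),
   .b (nat_lit 761555652),
   .b (nat_lit 721906372),
   .b (nat_lit 689400516),
   .b (nat_lit 755429925),
   .b (nat_lit 721908261),
   .b (nat_lit 761555621),
   .b (nat_lit 759491237),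
   .b (nat_lit 755428005),
   .b (nat_lit 689400485),
   .b (nat_lit 761554629),
   .b (nat_lit 721905349),
   .b (nat_lit 689399493),
   .b (nat_lit 721902280),
   .b (nat_lit 689396424),
   .b (nat_lit 721902217),
   .b (nat_lit 721902124),
   .b (nat_lit 829584001),
   .b (nat_lit 723939969),
   .b (nat_lit 723938948),
   .b (nat_lit 725967588),
   .b (nat_lit 723935972),
   .b (nat_lit 793010822),
   .b (nat_lit 723935878),
   .b (nat_lit 723934856),
   .b (nat_lit 863138465),
   .b (nat_lit 860058273),
   .b (nat_lit 727020193),
   .b (nat_lit 860057252),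
   .b (nat_lit 827549412),
   .b (nat_lit 727017188),
   .b (nat_lit 724985572),
   .b (nat_lit 723969764),
   .b (nat_lit 794060422),
   .b (nat_lit 727017094),
   .b (nat_lit 724985478),
   .b (nat_lit 723969670),
   .b (nat_lit 727015080),
   .b (nat_lit 724983464),
   .b (nat_lit 724981418),
   .b (nat_lit 723965610),
   .b (nat_lit 829616770),
   .b (nat_lit 692449922),
   .b (nat_lit 788951682),
   .b (nat_lit 757494402),
   .b (nat_lit 690451074),
   .b (nat_lit 692449861),
   .b (nat_lit 788950661),
   .b (nat_lit 759522021),
   .b (nat_lit 692445925),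
   .b (nat_lit 757490405),
   .b (nat_lit 690447077),
   .b (nat_lit 688382693),
   .b (nat_lit 788947591),
   .b (nat_lit 757490311),
   .b (nat_lit 690446983),
   .b (nat_lit 692443786),
   .b (nat_lit 788945546),
   .b (nat_lit 788943499),
   .b (nat_lit 757486219),
   .b (nat_lit 690442891),
   .b (nat_lit 690445836),
   .b (nat_lit 688380492),
   .b (nat_lit 860091104),
   .b (nat_lit 760574688),
   .b (nat_lit 726004448),
   .b (nat_lit 790000352),
   .b (nat_lit 724005600),
   .b (nat_lit 691499744),
   .b (nat_lit 721941216),
   .b (nat_lit 689435360),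
   .b (nat_lit 863171265),
   .b (nat_lit 893612737),
   .b (nat_lit 827585217),
   .b (nat_lit 793047745),
   .b (nat_lit 726004417),
   .b (nat_lit 724005569),
   .b (nat_lit 691499713),
   .b (nat_lit 721941185),
   .b (nat_lit 689435329),
   .b (nat_lit 929198754),
   .b (nat_lit 896692898),
   .b (nat_lit 863171234),
   .b (nat_lit 893612706),
   .b (nat_lit 860091042),
   .b (nat_lit 795112098),
   .b (nat_lit 793047714),
   .b (nat_lit 726004386),
   .b (nat_lit 790000290),
   .b (nat_lit 758543010),
   .b (nat_lit 788984482),
   .b (nat_lit 757527202),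
   .b (nat_lit 691499682),
   .b (nat_lit 689435298),
   .b (nat_lit 929198723),
   .b (nat_lit 896692867),
   .b (nat_lit 928182915),
   .b (nat_lit 863171203),
   .b (nat_lit 828600963),
   .b (nat_lit 827585155),
   .b (nat_lit 795112067),
   .b (nat_lit 793047683),
   .b (nat_lit 760574595),
   .b (nat_lit 790000259),
   .b (nat_lit 758542979),
   .b (nat_lit 788984451),
   .b (nat_lit 724005507),
   .b (nat_lit 863170244),
   .b (nat_lit 956526276),
   .b (nat_lit 893611716),
   .b (nat_lit 860090052),
   .b (nat_lit 827584196),
   .b (nat_lit 793046724),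
   .b (nat_lit 726003396),
   .b (nat_lit 789999300),
   .b (nat_lit 788983492),
   .b (nat_lit 724004548),
   .b (nat_lit 691498692),
   .b (nat_lit 721940164),
   .b (nat_lit 689434308),
   .b (nat_lit 828599012),
   .b (nat_lit 860089060),
   .b (nat_lit 827583204),
   .b (nat_lit 760572644),
   .b (nat_lit 726002404),
   .b (nat_lit 724003556),
   .b (nat_lit 691497700),
   .b (nat_lit 721939172),
   .b (nat_lit 689433316),
   .b (nat_lit 893612645),
   .b (nat_lit 827585125),
   .b (nat_lit 757527141),
   .b (nat_lit 893611685),
   .b (nat_lit 860090021),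
   .b (nat_lit 795111077),
   .b (nat_lit 793046693),
   .b (nat_lit 789999269),
   .b (nat_lit 788983461),
   .b (nat_lit 691498661),
   .b (nat_lit 689434277),
   .b (nat_lit 893609701),
   .b (nat_lit 828597989),
   .b (nat_lit 827582181),
   .b (nat_lit 760571621),
   .b (nat_lit 726001381),
   .b (nat_lit 724002533),
   .b (nat_lit 691496677),
   .b (nat_lit 721938149),
   .b (nat_lit 689432293),
   .b (nat_lit 758542854),
   .b (nat_lit 724005382),
   .b (nat_lit 689435142),
   .b (nat_lit 827583110),
   .b (nat_lit 760572550),
   .b (nat_lit 758540934),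
   .b (nat_lit 788982406),
   .b (nat_lit 724003462),
   .b (nat_lit 721939078),
   .b (nat_lit 860086982),
   .b (nat_lit 793043654),
   .b (nat_lit 789996230),
   .b (nat_lit 788980422),
   .b (nat_lit 724001478),
   .b (nat_lit 691495622),
   .b (nat_lit 721937094),
   .b (nat_lit 689431238),
   .b (nat_lit 795108999),
   .b (nat_lit 760571527),
   .b (nat_lit 789997191),
   .b (nat_lit 724002439),
   .b (nat_lit 721938055),
   .b (nat_lit 795108007),
   .b (nat_lit 793043623),
   .b (nat_lit 789996199),
   .b (nat_lit 758538919),
   .b (nat_lit 788980391),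
   .b (nat_lit 691495591),
   .b (nat_lit 689431207),
   .b (nat_lit 793042632),
   .b (nat_lit 725999304),
   .b (nat_lit 724000456),
   .b (nat_lit 691494600),
   .b (nat_lit 721936072),
   .b (nat_lit 689430216),
   .b (nat_lit 760569481),
   .b (nat_lit 758537865),
   .b (nat_lit 724000393),
   .b (nat_lit 721936009),
   .b (nat_lit 789994154),
   .b (nat_lit 691493546),
   .b (nat_lit 689429162),
   .b (nat_lit 789993099),
   .b (nat_lit 758535819),
   .b (nat_lit 788977291),
   .b (nat_lit 757520011),
   .b (nat_lit 724000300),
   .b (nat_lit 691494444),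
   .b (nat_lit 721935916),
   .b (nat_lit 723999340),
   .b (nat_lit 721934956),
   .b (nat_lit 689429100),
   .b (nat_lit 724000269),
   .b (nat_lit 691494413),
   .b (nat_lit 689428046),
   .b (nat_lit 721932910),
   .b (nat_lit 862155427),
   .b (nat_lit 790033059),
   .b (nat_lit 758575779),
   .b (nat_lit 861139494),
   .b (nat_lit 794096166),
   .b (nat_lit 727052838),
   .b (nat_lit 758575654),
   .b (nat_lit 725053990),
   .b (nat_lit 790031014),
   .b (nat_lit 758573734),
   .b (nat_lit 794093254),
   .b (nat_lit 727049926),
   .b (nat_lit 790030022),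
   .b (nat_lit 725051078),
   .b (nat_lit 722986694),
   .b (nat_lit 790029991),
   .b (nat_lit 758572711),
   .b (nat_lit 727047849),
   .b (nat_lit 758570665),
   .b (nat_lit 725049001),
   .b (nat_lit 790025899),
   .b (nat_lit 758568619),
   .b (nat_lit 725046955),
   .b (nat_lit 725048877),
   .b (nat_lit 722983533),
   .b (nat_lit 896725698),
   .b (nat_lit 893645506),
   .b (nat_lit 761623234),
   .b (nat_lit 789017282),
   .b (nat_lit 893644485),
   .b (nat_lit 789016261),
   .b (nat_lit 956558053),
   .b (nat_lit 828631781),
   .b (nat_lit 761621221),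
   .b (nat_lit 759556837),
   .b (nat_lit 757557989),
   .b (nat_lit 755493605),
   .b (nat_lit 761623047),
   .b (nat_lit 759558663),
   .b (nat_lit 761621127),
   .b (nat_lit 789015175),
   .b (nat_lit 757557895),
   .b (nat_lit 755493511),
   .b (nat_lit 789011146),
   .b (nat_lit 789011083),
   .b (nat_lit 894694083),
   .b (nat_lit 790065859),
   .b (nat_lit 760605382),
   .b (nat_lit 790063814),
   .b (nat_lit 795144743),
   .b (nat_lit 795142823),
   .b (nat_lit 790063783),
   .b (nat_lit 758606503),
   .b (nat_lit 756542119),
   .b (nat_lit 790062791),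
   .b (nat_lit 790059691),
   .b (nat_lit 927167201),
   .b (nat_lit 794129121),
   .b (nat_lit 724038369),
   .b (nat_lit 691532513),
   .b (nat_lit 958623460),
   .b (nat_lit 724037348),
   .b (nat_lit 691531492),
   .b (nat_lit 796160582),
   .b (nat_lit 794128966),
   .b (nat_lit 792097350),
   .b (nat_lit 691532358),
   .b (nat_lit 796159622),
   .b (nat_lit 794128006),
   .b (nat_lit 724037254),
   .b (nat_lit 724034278),
   .b (nat_lit 691528422),
   .b (nat_lit 724033256),
   .b (nat_lit 691527400),
   .b (nat_lit 691527338),
   .b (nat_lit 724033132),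
   .b (nat_lit 792129190),
   .b (nat_lit 725083878),
   .b (nat_lit 927199970),
   .b (nat_lit 757591781),
   .b (nat_lit 793113159),
   .b (nat_lit 789049927),
   .b (nat_lit 791113351),
   .b (nat_lit 789048967),
   .b (nat_lit 757591687),
   .b (nat_lit 757588711),
   .b (nat_lit 757587595),
   .b (nat_lit 929264355),
   .b (nat_lit 928248547),
   .b (nat_lit 758641379),
   .b (nat_lit 863235782),
   .b (nat_lit 796192454),
   .b (nat_lit 794160838),
   .b (nat_lit 792161990),
   .b (nat_lit 790097606),
   .b (nat_lit 928246502),
   .b (nat_lit 758639334),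
   .b (nat_lit 796192423),
   .b (nat_lit 792161959),
   .b (nat_lit 790097575),
   .b (nat_lit 758640295),
   .b (nat_lit 758638311),
   .b (nat_lit 792157929),
   .b (nat_lit 758636265),
   .b (nat_lit 758636203),
   .b (nat_lit 794194566),
   .b (nat_lit 759689957),
   .b (nat_lit 795243143),
   .b (nat_lit 794260166),
   .b (nat_lit 823454496),
   .b (nat_lit 855960104),
   .b (nat_lit 891580160),
   .b (nat_lit 855994112),
   .b (nat_lit 923036417),
   .b (nat_lit 855993089),
   .b (nat_lit 923035394),
   .b (nat_lit 891578114),
   .b (nat_lit 923034371),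
   .b (nat_lit 891577091),
   .b (nat_lit 855991043),
   .b (nat_lit 823485187),
   .b (nat_lit 824503816),
   .b (nat_lit 823488008),
   .b (nat_lit 855992904),
   .b (nat_lit 823487048),
   .b (nat_lit 855990857),
   .b (nat_lit 898690848),
   .b (nat_lit 865169184),
   .b (nat_lit 892628768),
   .b (nat_lit 825552672),
   .b (nat_lit 924085025),
   .b (nat_lit 825551649),
   .b (nat_lit 924084002),
   .b (nat_lit 892626722),
   .b (nat_lit 825550626),
   .b (nat_lit 857040674),
   .b (nat_lit 924083971),
   .b (nat_lit 892626691),
   .b (nat_lit 858058280),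
   .b (nat_lit 825552424),
   .b (nat_lit 858057320),
   .b (nat_lit 857041512),
   .b (nat_lit 857040457),
   .b (nat_lit 857039465),
   .b (nat_lit 856026944),
   .b (nat_lit 823521088),
   .b (nat_lit 923069249),
   .b (nat_lit 856025921),
   .b (nat_lit 823520065),
   .b (nat_lit 923069218),
   .b (nat_lit 823520034),
   .b (nat_lit 923069187),
   .b (nat_lit 856025859),
   .b (nat_lit 890596873),
   .b (nat_lit 823520777),
   .b (nat_lit 856025673),
   .b (nat_lit 823519817),
   .b (nat_lit 856025642),
   .b (nat_lit 924117795),
   .b (nat_lit 857074281),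
   .b (nat_lit 858091265),
   .b (nat_lit 825585224),
   .b (nat_lit 891645698),
   .b (nat_lit 824569354),
   .b (nat_lit 933293920),
   .b (nat_lit 892694368),
   .b (nat_lit 858124128),
   .b (nat_lit 825618272),
   .b (nat_lit 858124097),
   .b (nat_lit 825618241),
   .b (nat_lit 892694306),
   .b (nat_lit 825618210),
   .b (nat_lit 892694275),
   .b (nat_lit 858124035),
   .b (nat_lit 892694089),
   .b (nat_lit 825617993),
   .b (nat_lit 858123818),
   .b (nat_lit 825617962),
   .b (nat_lit 858122858),
   .b (nat_lit 893678336),
   .b (nat_lit 893675269),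
   .b (nat_lit 826601992),
   .b (nat_lit 823554568),
   .b (nat_lit 823552648),
   .b (nat_lit 822536840),
   .b (nat_lit 856056520),
   .b (nat_lit 856056457),
   .b (nat_lit 822534700),
   .b (nat_lit 894726944),
   .b (nat_lit 827650848),
   .b (nat_lit 856093472),
   .b (nat_lit 823587616),
   .b (nat_lit 865266468),
   .b (nat_lit 827648804),
   .b (nat_lit 823585572),
   .b (nat_lit 894723877),
   .b (nat_lit 827647781),
   .b (nat_lit 823584549),
   .b (nat_lit 860156456),
   .b (nat_lit 827650600),
   .b (nat_lit 856093224),
   .b (nat_lit 860154536),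
   .b (nat_lit 857107112),
   .b (nat_lit 856091304),
   .b (nat_lit 823585448),
   .b (nat_lit 827647688),
   .b (nat_lit 823584456),
   .b (nat_lit 857105065),
   .b (nat_lit 856089257),
   .b (nat_lit 899838784),
   .b (nat_lit 898822976),
   .b (nat_lit 828699456),
   .b (nat_lit 856126272),
   .b (nat_lit 898820932),
   .b (nat_lit 895773508),
   .b (nat_lit 828697412),
   .b (nat_lit 856124228),
   .b (nat_lit 823618372),
   .b (nat_lit 895773477),
   .b (nat_lit 956623653),
   .b (nat_lit 828697381),
   .b (nat_lit 823618341),
   .b (nat_lit 956623560),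
   .b (nat_lit 856124104),
   .b (nat_lit 823618248),
   .b (nat_lit 890663433),
   .b (nat_lit 823620105),
   .b (nat_lit 856124041),
   .b (nat_lit 823618185),
   .b (nat_lit 890659529),
   .b (nat_lit 856122057),
   .b (nat_lit 856123948),
   .b (nat_lit 823618061),
   .b (nat_lit 857172649),
   .b (nat_lit 890693321),
   .b (nat_lit 927232769),
   .b (nat_lit 860189441),
   .b (nat_lit 858157825),
   .b (nat_lit 860188420),
   .b (nat_lit 858156804),
   .b (nat_lit 958685958),
   .b (nat_lit 927228678),
   .b (nat_lit 860185350),
   .b (nat_lit 858153734),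
   .b (nat_lit 824632070),
   .b (nat_lit 860189256),
   .b (nat_lit 827683400),
   .b (nat_lit 825651784),
   .b (nat_lit 827682440),
   .b (nat_lit 858156680),
   .b (nat_lit 825650824),
   .b (nat_lit 824635016),
   .b (nat_lit 860185320),
   .b (nat_lit 858153704),
   .b (nat_lit 825648778),
   .b (nat_lit 858153642),
   .b (nat_lit 928281377),
   .b (nat_lit 825684769),
   .b (nat_lit 825683748),
   .b (nat_lit 959735558),
   .b (nat_lit 928278278),
   .b (nat_lit 861237864),
   .b (nat_lit 858190440),
   .b (nat_lit 858189480),
   .b (nat_lit 825683624),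
   .b (nat_lit 825681640),
   .b (nat_lit 825681578),
   .b (nat_lit 893743874),
   .b (nat_lit 923169538),
   .b (nat_lit 891712258),
   .b (nat_lit 956657413),
   .b (nat_lit 893742853),
   .b (nat_lit 891711237),
   .b (nat_lit 956654343),
   .b (nat_lit 893739783),
   .b (nat_lit 923165447),
   .b (nat_lit 891708167),
   .b (nat_lit 822600455),
   .b (nat_lit 826667530),
   .b (nat_lit 891712010),
   .b (nat_lit 923167370),
   .b (nat_lit 822602378),
   .b (nat_lit 923165386),
   .b (nat_lit 891708106),
   .b (nat_lit 923165323),
   .b (nat_lit 891708043),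
   .b (nat_lit 824667660),
   .b (nat_lit 822602316),
   .b (nat_lit 897807200),
   .b (nat_lit 829748064),
   .b (nat_lit 894792544),
   .b (nat_lit 932377409),
   .b (nat_lit 864285505),
   .b (nat_lit 827716417),
   .b (nat_lit 923202369),
   .b (nat_lit 825717569),
   .b (nat_lit 856159041),
   .b (nat_lit 823653185),
   .b (nat_lit 933393186),
   .b (nat_lit 897807138),
   .b (nat_lit 929329954),
   .b (nat_lit 896824098),
   .b (nat_lit 829748002),
   .b (nat_lit 894792482),
   .b (nat_lit 827716386),
   .b (nat_lit 924218146),
   .b (nat_lit 892760866),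
   .b (nat_lit 923202338),
   .b (nat_lit 825717538),
   .b (nat_lit 933393155),
   .b (nat_lit 932377347),
   .b (nat_lit 897807107),
   .b (nat_lit 896824067),
   .b (nat_lit 927265539),
   .b (nat_lit 894792451),
   .b (nat_lit 862286595),
   .b (nat_lit 860222211),
   .b (nat_lit 924218115),
   .b (nat_lit 892760835),
   .b (nat_lit 923202307),
   .b (nat_lit 891745027),
   .b (nat_lit 858223363),
   .b (nat_lit 856158979),
   .b (nat_lit 823653123),
   .b (nat_lit 864284484),
   .b (nat_lit 829747012),
   .b (nat_lit 862285636),
   .b (nat_lit 860221252),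
   .b (nat_lit 827715396),
   .b (nat_lit 858222404),
   .b (nat_lit 825716548),
   .b (nat_lit 856158020),
   .b (nat_lit 823652164),
   .b (nat_lit 897806117),
   .b (nat_lit 896823077),
   .b (nat_lit 829746981),
   .b (nat_lit 957706021),
   .b (nat_lit 894791461),
   .b (nat_lit 862285605),
   .b (nat_lit 827715365),
   .b (nat_lit 892759845),
   .b (nat_lit 891744037),
   .b (nat_lit 825716517),
   .b (nat_lit 823652133),
   .b (nat_lit 864283398),
   .b (nat_lit 929327878),
   .b (nat_lit 862284550),
   .b (nat_lit 860220166),
   .b (nat_lit 923200262),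
   .b (nat_lit 856156934),
   .b (nat_lit 929326855),
   .b (nat_lit 896820999),
   .b (nat_lit 894789383),
   .b (nat_lit 924215047),
   .b (nat_lit 892757767),
   .b (nat_lit 923199239),
   .b (nat_lit 891741959),
   .b (nat_lit 860221128),
   .b (nat_lit 827715272),
   .b (nat_lit 858222280),
   .b (nat_lit 825716424),
   .b (nat_lit 856157896),
   .b (nat_lit 823652040),
   .b (nat_lit 927263464),
   .b (nat_lit 862284520),
   .b (nat_lit 860220136),
   .b (nat_lit 827714280),
   .b (nat_lit 924216040),
   .b (nat_lit 858221288),
   .b (nat_lit 825715432),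
   .b (nat_lit 856156904),
   .b (nat_lit 823651048),
   .b (nat_lit 827716169),
   .b (nat_lit 924217929),
   .b (nat_lit 892760649),
   .b (nat_lit 825717321),
   .b (nat_lit 823652937),
   .b (nat_lit 957705865),
   .b (nat_lit 894791305),
   .b (nat_lit 892759689),
   .b (nat_lit 891743881),
   .b (nat_lit 858222217),
   .b (nat_lit 825716361),
   .b (nat_lit 856157833),
   .b (nat_lit 823651977),
   .b (nat_lit 862282473),
   .b (nat_lit 924213993),
   .b (nat_lit 892756713),
   .b (nat_lit 858219241),
   .b (nat_lit 827716138),
   .b (nat_lit 892760618),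
   .b (nat_lit 923202090),
   .b (nat_lit 825717290),
   .b (nat_lit 923200170),
   .b (nat_lit 856156842),
   .b (nat_lit 823650986),
   .b (nat_lit 827713226),
   .b (nat_lit 924214986),
   .b (nat_lit 892757706),
   .b (nat_lit 923199178),
   .b (nat_lit 891741898),
   .b (nat_lit 825714378),
   .b (nat_lit 823649994),
   .b (nat_lit 924214923),
   .b (nat_lit 892757643),
   .b (nat_lit 825714315),
   .b (nat_lit 924213931),
   .b (nat_lit 892756651),
   .b (nat_lit 923198123),
   .b (nat_lit 858219179),
   .b (nat_lit 856154795),
   .b (nat_lit 825716268),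
   .b (nat_lit 923200108),
   .b (nat_lit 856156780),
   .b (nat_lit 823650924),
   .b (nat_lit 858222093),
   .b (nat_lit 825716237),
   .b (nat_lit 823651853),
   .b (nat_lit 825715277),
   .b (nat_lit 856156749),
   .b (nat_lit 823650893),
   .b (nat_lit 856154734),
   .b (nat_lit 928314147),
   .b (nat_lit 924250915),
   .b (nat_lit 892793635),
   .b (nat_lit 959769382),
   .b (nat_lit 928312102),
   .b (nat_lit 924248870),
   .b (nat_lit 928311079),
   .b (nat_lit 861267751),
   .b (nat_lit 924247847),
   .b (nat_lit 892790567),
   .b (nat_lit 861270633),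
   .b (nat_lit 924250729),
   .b (nat_lit 857207401),
   .b (nat_lit 892792489),
   .b (nat_lit 859270825),
   .b (nat_lit 857206441),
   .b (nat_lit 924247785),
   .b (nat_lit 892790505),
   .b (nat_lit 924247723),
   .b (nat_lit 892790443),
   .b (nat_lit 857204395),
   .b (nat_lit 859270701),
   .b (nat_lit 857205357),
   .b (nat_lit 828764994),
   .b (nat_lit 923235138),
   .b (nat_lit 956690245),
   .b (nat_lit 828763973),
   .b (nat_lit 956689159),
   .b (nat_lit 923233031),
   .b (nat_lit 923232970),
   .b (nat_lit 923232907),
   .b (nat_lit 891773643),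
   .b (nat_lit 889709259),
   .b (nat_lit 899904323),
   .b (nat_lit 929362755),
   .b (nat_lit 862319427),
   .b (nat_lit 924283715),
   .b (nat_lit 898886470),
   .b (nat_lit 929360710),
   .b (nat_lit 957737798),
   .b (nat_lit 862317382),
   .b (nat_lit 924281670),
   .b (nat_lit 929360679),
   .b (nat_lit 957737767),
   .b (nat_lit 924281639),
   .b (nat_lit 890759975),
   .b (nat_lit 894824137),
   .b (nat_lit 892825289),
   .b (nat_lit 890760905),
   .b (nat_lit 957737705),
   .b (nat_lit 862317289),
   .b (nat_lit 924281577),
   .b (nat_lit 924281515),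
   .b (nat_lit 924280523),
   .b (nat_lit 892823243),
   .b (nat_lit 824700554),
   .b (nat_lit 925262570),
   .b (nat_lit 858256225),
   .b (nat_lit 863334244),
   .b (nat_lit 858255204),
   .b (nat_lit 825749348),
   .b (nat_lit 959803142),
   .b (nat_lit 863334150),
   .b (nat_lit 858255110),
   .b (nat_lit 959803112),
   .b (nat_lit 858255080),
   .b (nat_lit 825749224),
   .b (nat_lit 925299306),
   .b (nat_lit 858255978),
   .b (nat_lit 858255018),
   .b (nat_lit 825749162),
   .b (nat_lit 926312170),
   .b (nat_lit 825747178),
   .b (nat_lit 858254956),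
   .b (nat_lit 896889698),
   .b (nat_lit 829813602),
   .b (nat_lit 891810658),
   .b (nat_lit 896888677),
   .b (nat_lit 958787429),
   .b (nat_lit 829812581),
   .b (nat_lit 891809637),
   .b (nat_lit 896888583),
   .b (nat_lit 958787335),
   .b (nat_lit 891809543),
   .b (nat_lit 958787274),
   .b (nat_lit 829812426),
   .b (nat_lit 891809482),
   .b (nat_lit 958786282),
   .b (nat_lit 927329002),
   .b (nat_lit 925330154),
   .b (nat_lit 923265770),
   .b (nat_lit 923267659),
   .b (nat_lit 925328107),
   .b (nat_lit 923263723),
   .b (nat_lit 891806443),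
   .b (nat_lit 863368035),
   .b (nat_lit 892859235),
   .b (nat_lit 959835974),
   .b (nat_lit 863366982),
   .b (nat_lit 892858151),
   .b (nat_lit 959835881),
   .b (nat_lit 892858089),
   .b (nat_lit 924316267),
   .b (nat_lit 892858027),
   .b (nat_lit 926377707),
   .b (nat_lit 924313323),
   .b (nat_lit 892856043),
   .b (nat_lit 827749000),
   .b (nat_lit 893809413),
   .b (nat_lit 826765836),
   .b (nat_lit 894858112),
   .b (nat_lit 956756864),
   .b (nat_lit 828830592),
   .b (nat_lit 860320640),
   .b (nat_lit 827814784),
   .b (nat_lit 894858021),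
   .b (nat_lit 828830501),
   .b (nat_lit 827814693),
   .b (nat_lit 894857928),
   .b (nat_lit 860320456),
   .b (nat_lit 827814600),
   .b (nat_lit 894857865),
   .b (nat_lit 828830345),
   .b (nat_lit 827814537),
   .b (nat_lit 828830252),
   .b (nat_lit 860320300),
   .b (nat_lit 827814444),
   .b (nat_lit 956754604),
   .b (nat_lit 860318380),
   .b (nat_lit 860320269),
   .b (nat_lit 827814413),
   .b (nat_lit 862384809),
   .b (nat_lit 861368877),
   .b (nat_lit 828863301),
   .b (nat_lit 956787404),
   .b (nat_lit 894923465),
   .b (nat_lit 957835981),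
   .b (nat_lit 829846154),
   .b (nat_lit 826798668),
   .b (nat_lit 959869825),
   .b (nat_lit 928412545),
   .b (nat_lit 863400833),
   .b (nat_lit 829879169),
   .b (nat_lit 860353409),
   .b (nat_lit 827847553),
   .b (nat_lit 860353286),
   .b (nat_lit 827847430),
   .b (nat_lit 928412392),
   .b (nat_lit 860353256),
   .b (nat_lit 827847400),
   .b (nat_lit 863400618),
   .b (nat_lit 860353194),
   .b (nat_lit 827847338),
   .b (nat_lit 860353132),
   .b (nat_lit 827847276),
   .b (nat_lit 958852780),
   .b (nat_lit 829877932),
   .b (nat_lit 860352172),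
   .b (nat_lit 958850796),
   .b (nat_lit 827844332),
   .b (nat_lit 827847245),
   .b (nat_lit 928445222),
   .b (nat_lit 861401709),
   .b (nat_lit 896955266),
   .b (nat_lit 958886786),
   .b (nat_lit 927429506),
   .b (nat_lit 829911938),
   .b (nat_lit 893907842),
   .b (nat_lit 828896130),
   .b (nat_lit 896955237),
   .b (nat_lit 896955143),
   .b (nat_lit 927429383),
   .b (nat_lit 893907719),
   .b (nat_lit 896955082),
   .b (nat_lit 927429322),
   .b (nat_lit 829911754),
   .b (nat_lit 893907658),
   .b (nat_lit 896955019)]

theorem okb2 : all5 db b2 (nat_lit 3000) = true := by decide +kernel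

theorem lenb2 : b2.length = 1500 := by decide +kernel

end Pool.Agent.H36.QT.D
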