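import Pool.Agent.H36.QT.W5
import Pool.Agent.H36.QT.D.Db

set_option autoImplicit false
set_option maxRecDepth 100000
set_option linter.all false

namespace Pool.Agent.H36.QT.D

open Pool.Agent.H36.QT

/-- certificates of the base clauses 4500, …, 5688 -/
noncomputable def b3 : List Ce :=
  [.b (nat_lit 829911691),
   .b (nat_lit 828895883),
   .b (nat_lit 958884588),
   .b (nat_lit 927427308),
   .b (nat_lit 956820204),
   .b (nat_lit 828893932),
   .b (nat_lit 893907534),
   .b (nat_lit 956821134),
   .b (nat_lit 828894862),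
   .b (nat_lit 956818158),
   .b (nat_lit 893903598),
   .b (nat_lit 929493891),
   .b (nat_lit 896988035),
   .b (nat_lit 928478083),
   .b (nat_lit 863466371),
   .b (nat_lit 894956419),
   .b (nat_lit 862450563),
   .b (nat_lit 929493830),
   .b (nat_lit 928478022),
   .b (nat_lit 896987943),
   .b (nat_lit 928477991),
   .b (nat_lit 928477929),
   .b (nat_lit 894956265),
   .b (nat_lit 862450409),
   .b (nat_lit 862450347),
   .b (nat_lit 959934157),
   .b (nat_lit 957869773),
   .b (nat_lit 894955213),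
   .b (nat_lit 959933165),
   .b (nat_lit 928475885),
   .b (nat_lit 957868781),
   .b (nat_lit 862450286),
   .b (nat_lit 957869742),
   .b (nat_lit 862449326),
   .b (nat_lit 957867758),
   .b (nat_lit 929526599),
   .b (nat_lit 897020619),
   .b (nat_lit 927462122),
   .b (nat_lit 958918380),
   .b (nat_lit 863499110),
   .b (nat_lit 959966957),
   .b (nat_lit 897053543),
   .b (nat_lit 929559275),
   .b (nat_lit 897053419),
   .b (nat_lit 864415560),
   .b (nat_lit 898985737),
   .b (nat_lit 864514888),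
   .b (nat_lit 899052297),
   .b (nat_lit 864547688),
   .b (nat_lit 931590954),
   .b (nat_lit 931623754),
   .b (nat_lit 933655307),
   .b (nat_lit 899150697),
   .b (nat_lit 933688107),
   .b (nat_lit 759815856),
   .b (nat_lit 760831633),
   .b (nat_lit 828959408),
   .b (nat_lit 893970128),
   .b (nat_lit 828993168),
   .b (nat_lit 894001904),
   .b (nat_lit 927527536),
   .b (nat_lit 895054448),
   .b (nat_lit 958983856),
   .b (nat_lit 830009008),
   .b (nat_lit 862547632),
   .b (nat_lit 894037680),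
   .b (nat_lit 829025968),
   .b (nat_lit 894035696),
   .b (nat_lit 829023984),
   .b (nat_lit 894038609),
   .b (nat_lit 829026897),
   .b (nat_lit 895053457),
   .b (nat_lit 862547601),
   .b (nat_lit 829025937),
   .b (nat_lit 895050481),
   .b (nat_lit 862544625),
   .b (nat_lit 894034673),
   .b (nat_lit 894035666),
   .b (nat_lit 928576113),
   .b (nat_lit 862580401),
   .b (nat_lit 895084273),
   .b (nat_lit 862579379),
   .b (nat_lit 830074546),
   .b (nat_lit 927590130),
   .b (nat_lit 830074515),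
   .b (nat_lit 862614192),
   .b (nat_lit 829092497),
   .b (nat_lit 863662770),
   .b (nat_lit 830141075),
   .b (nat_lit 929723120),
   .b (nat_lit 897217234),
   .b (nat_lit 929755889),
   .b (nat_lit 897250003),
   .b (nat_lit 898232112),
   .b (nat_lit 899247889),
   .b (nat_lit 898298672),
   .b (nat_lit 899314449),
   .b (nat_lit 931853106),
   .b (nat_lit 932868883),
   .b (nat_lit 898364272),
   .b (nat_lit 931885906),
   .b (nat_lit 899412849),
   .b (nat_lit 932934483),
   .t [nat_lit 1313088, nat_lit 1613507, nat_lit 1704452, nat_lit 1511845, nat_lit 1545607, nat_lit 1576482, nat_lit 1485288, nat_lit 1782414],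
   .t [nat_lit 1348000, nat_lit 1213570, nat_lit 1542471, nat_lit 1770021, nat_lit 1908427, nat_lit 1616705, nat_lit 1486313],
   .t [nat_lit 1511845, nat_lit 1685286, nat_lit 1873452, nat_lit 1782414, nat_lit 1710820, nat_lit 1820371],
   .t [nat_lit 1608195, nat_lit 1585925, nat_lit 1838882, nat_lit 1873452],
   .t [nat_lit 1621891, nat_lit 1742532, nat_lit 1449445, nat_lit 1970860, nat_lit 1773095],
   .t [nat_lit 1705540, nat_lit 1413569, nat_lit 1653387],
   .t [nat_lit 1345888, nat_lit 1213570, nat_lit 1442053, nat_lit 1717932, nat_lit 1317281, nat_lit 1748806, nat_lit 1905289],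
   .t [nat_lit 1448420, nat_lit 1905289, nat_lit 1549739, nat_lit 1748806, nat_lit 1717932],
   .t [nat_lit 1681187, nat_lit 1873545, nat_lit 1707621],
   .t [nat_lit 1611456, nat_lit 1576482, nat_lit 1415651, nat_lit 1706565, nat_lit 1654506, nat_lit 1517963, nat_lit 1802758, nat_lit 1782414],
   .t [nat_lit 1344771, nat_lit 1742532, nat_lit 1711845, nat_lit 1805927, nat_lit 1643137, nat_lit 1909513, nat_lit 1855282, nat_lit 1891157],
   .t [nat_lit 1415651, nat_lit 1443140, nat_lit 1805927, nat_lit 1675937, nat_lit 1517963, nat_lit 1744582, nat_lit 1785582],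
   .t [nat_lit 1415651, nat_lit 1875782, nat_lit 1540359, nat_lit 1838944, nat_lit 1909513, nat_lit 1943339],
   .t [nat_lit 1247457, nat_lit 1681187, nat_lit 1738340, nat_lit 1905289, nat_lit 1875782, nat_lit 1576482, nat_lit 1722032],
   .t [nat_lit 1710820, nat_lit 1905289, nat_lit 1812294],
   .t [nat_lit 1681187, nat_lit 1282245, nat_lit 1873545, nat_lit 1710820, nat_lit 1805927],
   .t [nat_lit 1379681, nat_lit 1443140, nat_lit 1905289, nat_lit 1350051, nat_lit 1748806, nat_lit 1717932],
   .t [nat_lit 1712900, nat_lit 1905289, nat_lit 1845064],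
   .t [nat_lit 1607264, nat_lit 1645281, nat_lit 1351107, nat_lit 1740326, nat_lit 1686187, nat_lit 1933897, nat_lit 1814375],
   .t [nat_lit 1380737, nat_lit 1738340, nat_lit 1453514, nat_lit 1686187],
   .t [nat_lit 1745700, nat_lit 1385832, nat_lit 1870378, nat_lit 1413538, nat_lit 1619625],
   .t [nat_lit 1650530, nat_lit 1968718, nat_lit 1948555],
   .t [nat_lit 1645281, nat_lit 1806982, nat_lit 1508708, nat_lit 1715790],
   .t [nat_lit 1215712, nat_lit 1317281, nat_lit 1376514, nat_lit 1738340, nat_lit 1444165, nat_lit 1679075, nat_lit 1806982, nat_lit 1717932],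
   .t [nat_lit 1480132, nat_lit 1544582, nat_lit 1874541, nat_lit 1585925, nat_lit 1688145, nat_lit 1853232, nat_lit 1817295, nat_lit 1788656],
   .t [nat_lit 1542471, nat_lit 1878888, nat_lit 1417545, nat_lit 1580738, nat_lit 1911563, nat_lit 1779246, nat_lit 1948495, nat_lit 1853232],
   .t [nat_lit 1576482, nat_lit 1617731, nat_lit 1905165, nat_lit 1476964],
   .t [nat_lit 1511845, nat_lit 1816454, nat_lit 1971854, nat_lit 1710820],
   .t [nat_lit 1710820, nat_lit 1482182, nat_lit 1588999, nat_lit 1850188, nat_lit 1905165, nat_lit 1782414, nat_lit 1817295],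
   .t [nat_lit 1645281, nat_lit 1902370, nat_lit 1884013, nat_lit 1739270, nat_lit 1950546, nat_lit 1816239],
   .t [nat_lit 1540545, nat_lit 1574464, nat_lit 1653263],
   .t [nat_lit 1182912, nat_lit 1181857, nat_lit 1410371, nat_lit 1376514, nat_lit 1480132, nat_lit 1448420, nat_lit 1515913, nat_lit 1549739],
   .t [nat_lit 1711845, nat_lit 1873545, nat_lit 1812263],
   .t [nat_lit 1642082, nat_lit 1620681, nat_lit 1837578, nat_lit 1780302, nat_lit 1681187, nat_lit 1884945],
   .t [nat_lit 1509733, nat_lit 1939022, nat_lit 1650530],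
   .t [nat_lit 1449445, nat_lit 1873608, nat_lit 1548714, nat_lit 1517963, nat_lit 1717932, nat_lit 1748775, nat_lit 1782414],
   .t [nat_lit 1213570, nat_lit 1870657, nat_lit 1843045, nat_lit 1748775, nat_lit 1938090, nat_lit 1911563],
   .t [nat_lit 1213570, nat_lit 1870657, nat_lit 1717932, nat_lit 1511845, nat_lit 1913614, nat_lit 1857332],
   .t [nat_lit 1448420, nat_lit 1970860, nat_lit 1687398, nat_lit 1955731],
   .t [nat_lit 1181857, nat_lit 1448420, nat_lit 1771014, nat_lit 1839752, nat_lit 1548714, nat_lit 1583874, nat_lit 1717932, nat_lit 1742532],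
   .t [nat_lit 1247457, nat_lit 1771014, nat_lit 1580738],
   .t [nat_lit 1508832, nat_lit 1648449, nat_lit 1409314, nat_lit 1804871, nat_lit 1908427, nat_lit 1785582],
   .t [nat_lit 1182912, nat_lit 1247457, nat_lit 1409314, nat_lit 1449445, nat_lit 1344771, nat_lit 1480132, nat_lit 1548714, nat_lit 1517963],
   .t [nat_lit 1611456, nat_lit 1737252, nat_lit 1509733, nat_lit 1937997, nat_lit 1650530, nat_lit 1783470],
   .t [nat_lit 1742532, nat_lit 1509733, nat_lit 1937997, nat_lit 1717932, nat_lit 1650530, nat_lit 1782414],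
   .t [nat_lit 1317281, nat_lit 1742532, nat_lit 1585925, nat_lit 1717932, nat_lit 1836616, nat_lit 1806982, nat_lit 1788656],
   .t [nat_lit 1737252, nat_lit 1585925, nat_lit 1806982, nat_lit 1717932, nat_lit 1841741, nat_lit 1611456, nat_lit 1788656],
   .t [nat_lit 1643137, nat_lit 1585925, nat_lit 1771014, nat_lit 1717932, nat_lit 1841741, nat_lit 1742532],
   .t [nat_lit 1713988, nat_lit 1806982, nat_lit 1841741, nat_lit 1914670, nat_lit 1620681, nat_lit 1788656, nat_lit 1884945],
   .t [nat_lit 1442053, nat_lit 1611456, nat_lit 1811021, nat_lit 1788656, nat_lit 1717932, nat_lit 1753745],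
   .t [nat_lit 1215712, nat_lit 1380737, nat_lit 1704452, nat_lit 1410371, nat_lit 1875627, nat_lit 1585925, nat_lit 1857332],
   .t [nat_lit 1278115, nat_lit 1871465, nat_lit 1845064, nat_lit 1808007, nat_lit 1614624, nat_lit 1789681, nat_lit 1921814],
   .t [nat_lit 1905352, nat_lit 1318244, nat_lit 1781575],
   .t [nat_lit 1279170, nat_lit 1772039, nat_lit 1317281, nat_lit 1586888],
   .t [nat_lit 1317281, nat_lit 1738340, nat_lit 1618632, nat_lit 1806982, nat_lit 1789681, nat_lit 1717932],
   .t [nat_lit 1509733, nat_lit 1873608, nat_lit 1548714, nat_lit 1383906, nat_lit 1717932, nat_lit 1748775, nat_lit 1782414],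
   .t [nat_lit 1313088, nat_lit 1380737, nat_lit 1737252, nat_lit 1771170, nat_lit 1618632],
   .t [nat_lit 1682273, nat_lit 1715914, nat_lit 1935947, nat_lit 1771170, nat_lit 1755795],
   .t [nat_lit 1707682, nat_lit 1410371, nat_lit 1935947, nat_lit 1682273, nat_lit 1755795],
   .t [nat_lit 1642082, nat_lit 1706565, nat_lit 1687398, nat_lit 1873452, nat_lit 1815183, nat_lit 1612451, nat_lit 1955639],
   .t [nat_lit 1711845, nat_lit 1509733, nat_lit 1814375, nat_lit 1676962, nat_lit 1873452, nat_lit 1782414, nat_lit 1820371, nat_lit 1955639],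
   .t [nat_lit 1509733, nat_lit 1676962, nat_lit 1748590],
   .t [nat_lit 1610400, nat_lit 1213570, nat_lit 1278115, nat_lit 1870378, nat_lit 1379681, nat_lit 1814375, nat_lit 1955639],
   .t [nat_lit 1317281, nat_lit 1442053, nat_lit 1744582, nat_lit 1808007, nat_lit 1607264, nat_lit 1717932, nat_lit 1789681],
   .t [nat_lit 1740326, nat_lit 1279170, nat_lit 1608195, nat_lit 1542471, nat_lit 1317281, nat_lit 1376514, nat_lit 1816239, nat_lit 1579744],
   .t [nat_lit 1317281, nat_lit 1442053, nat_lit 1939083, nat_lit 1902432, nat_lit 1748806, nat_lit 1717932],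
   .t [nat_lit 1442053, nat_lit 1545607, nat_lit 1908427, nat_lit 1879913, nat_lit 1614624, nat_lit 1779246, nat_lit 1948495],
   .t [nat_lit 1317281, nat_lit 1442053, nat_lit 1744582, nat_lit 1545607, nat_lit 1771232, nat_lit 1816239],
   .t [nat_lit 1317281, nat_lit 1480132, nat_lit 1507621, nat_lit 1544582, nat_lit 1771232, nat_lit 1451464, nat_lit 1817295],
   .t [nat_lit 1513895, nat_lit 1842827, nat_lit 1717932, nat_lit 1748806, nat_lit 1913614],
   .t [nat_lit 1745700, nat_lit 1451464, nat_lit 1948555, nat_lit 1970860, nat_lit 1879913],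
   .t [nat_lit 1318244, nat_lit 1409314, nat_lit 1706565, nat_lit 1845064, nat_lit 1577600, nat_lit 1939207, nat_lit 1919856],
   .t [nat_lit 1577600, nat_lit 1213570, nat_lit 1772039, nat_lit 1744582, nat_lit 1442053, nat_lit 1317281, nat_lit 1717932],
   .t [nat_lit 1317281, nat_lit 1507621, nat_lit 1482182, nat_lit 1939207, nat_lit 1902432, nat_lit 1845064],
   .t [nat_lit 1771232, nat_lit 1317281, nat_lit 1442053, nat_lit 1808007, nat_lit 1744582, nat_lit 1717932],
   .t [nat_lit 1838913, nat_lit 1278115, nat_lit 1574464, nat_lit 1715975, nat_lit 1651338, nat_lit 1840652, nat_lit 1911563],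
   .t [nat_lit 1574464, nat_lit 1901065, nat_lit 1648449],
   .t [nat_lit 1409314, nat_lit 1351107, nat_lit 1577600, nat_lit 1508708, nat_lit 1772039, nat_lit 1838913, nat_lit 1921814],
   .t [nat_lit 1409314, nat_lit 1878888, nat_lit 1935947, nat_lit 1651338, nat_lit 1717932, nat_lit 1348000, nat_lit 1745700],
   .t [nat_lit 1745700, nat_lit 1442053, nat_lit 1611456, nat_lit 1905165, nat_lit 1717932, nat_lit 1884945, nat_lit 1858388],
   .t [nat_lit 1738340, nat_lit 1651338, nat_lit 1717932, nat_lit 1905165, nat_lit 1616705, nat_lit 1688145],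
   .t [nat_lit 1838913, nat_lit 1278115, nat_lit 1574464, nat_lit 1906190, nat_lit 1653511],
   .t [nat_lit 1673795, nat_lit 1445282, nat_lit 1717932, nat_lit 1755795],
   .t [nat_lit 1608195, nat_lit 1445282, nat_lit 1717932, nat_lit 1753745],
   .t [nat_lit 1644162, nat_lit 1608195, nat_lit 1745700, nat_lit 1442053, nat_lit 1871465, nat_lit 1348000, nat_lit 1717932, nat_lit 1688145],
   .t [nat_lit 1644162, nat_lit 1673795, nat_lit 1511845, nat_lit 1451464, nat_lit 1871465, nat_lit 1745700, nat_lit 1717932],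
   .t [nat_lit 1579682, nat_lit 1673795, nat_lit 1738340, nat_lit 1652486, nat_lit 1905165, nat_lit 1838913],
   .t [nat_lit 1579682, nat_lit 1673795, nat_lit 1738340, nat_lit 1938182, nat_lit 1919856, nat_lit 1838913],
   .t [nat_lit 1710820, nat_lit 1872552, nat_lit 1942314, nat_lit 1911563, nat_lit 1748806, nat_lit 1859444],
   .t [nat_lit 1611456, nat_lit 1671713, nat_lit 1650530, nat_lit 1706565, nat_lit 1517963, nat_lit 1934954, nat_lit 1782414],
   .t [nat_lit 1213570, nat_lit 1608195, nat_lit 1838913, nat_lit 1905196, nat_lit 1585925],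
   .t [nat_lit 1182912, nat_lit 1376514, nat_lit 1673795, nat_lit 1841834, nat_lit 1745700, nat_lit 1886995],
   .t [nat_lit 1838913, nat_lit 1673795, nat_lit 1738340, nat_lit 1652394, nat_lit 1905165, nat_lit 1583874],
   .t [nat_lit 1215712, nat_lit 1638913, nat_lit 1579682, nat_lit 1738340, nat_lit 1806982, nat_lit 1706565, nat_lit 1679075],
   .t [nat_lit 1707682, nat_lit 1415651, nat_lit 1742532, nat_lit 1444165, nat_lit 1517963, nat_lit 1544582, nat_lit 1782414],
   .t [nat_lit 1182912, nat_lit 1802914, nat_lit 1509733, nat_lit 1742532, nat_lit 1415651, nat_lit 1785582],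
   .t [nat_lit 1348000, nat_lit 1213570, nat_lit 1444165, nat_lit 1934145, nat_lit 1911563, nat_lit 1486313, nat_lit 1851244],
   .t [nat_lit 1182912, nat_lit 1811300, nat_lit 1442053, nat_lit 1545607, nat_lit 1679075, nat_lit 1940079],
   .t [nat_lit 1410371, nat_lit 1704452, nat_lit 1744582, nat_lit 1805927, nat_lit 1675937, nat_lit 1517963, nat_lit 1782414, nat_lit 1579744],
   .t [nat_lit 1410371, nat_lit 1710820, nat_lit 1744582, nat_lit 1805927, nat_lit 1675937, nat_lit 1517963, nat_lit 1782414],
   .t [nat_lit 1778500, nat_lit 1442053, nat_lit 1348000, nat_lit 1906190, nat_lit 1753745, nat_lit 1620681, nat_lit 1717932],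
   .t [nat_lit 1345888, nat_lit 1213570, nat_lit 1507621, nat_lit 1413600, nat_lit 1720044, nat_lit 1802945, nat_lit 1782414],
   .t [nat_lit 1182912, nat_lit 1213570, nat_lit 1509733, nat_lit 1802945, nat_lit 1907433, nat_lit 1351107, nat_lit 1781575],
   .t [nat_lit 1348000, nat_lit 1213570, nat_lit 1415651, nat_lit 1509733, nat_lit 1773095, nat_lit 1802945, nat_lit 1482182, nat_lit 1621737],
   .t [nat_lit 1508832, nat_lit 1802945, nat_lit 1785582],
   .t [nat_lit 1704452, nat_lit 1542471, nat_lit 1580738, nat_lit 1517963, nat_lit 1413600, nat_lit 1782414],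
   .t [nat_lit 1182912, nat_lit 1213570, nat_lit 1608195, nat_lit 1710820, nat_lit 1802945, nat_lit 1905289, nat_lit 1779246, nat_lit 1588037],
   .t [nat_lit 1316224, nat_lit 1213570, nat_lit 1509733, nat_lit 1814375, nat_lit 1938152, nat_lit 1802945, nat_lit 1711845, nat_lit 1782414],
   .t [nat_lit 1742532, nat_lit 1442053, nat_lit 1577600, nat_lit 1548714, nat_lit 1780239, nat_lit 1717932],
   .t [nat_lit 1650530, nat_lit 1705540, nat_lit 1938182, nat_lit 1517963, nat_lit 1837578, nat_lit 1579713, nat_lit 1782414],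
   .t [nat_lit 1710820, nat_lit 1744582, nat_lit 1814375, nat_lit 1517963, nat_lit 1938090, nat_lit 1782414],
   .t [nat_lit 1213570, nat_lit 1509733, nat_lit 1781575, nat_lit 1839752, nat_lit 1317281, nat_lit 1482182, nat_lit 1921814],
   .t [nat_lit 1380737, nat_lit 1711845, nat_lit 1475846, nat_lit 1513895, nat_lit 1742532, nat_lit 1811114, nat_lit 1782414],
   .t [nat_lit 1579713, nat_lit 1282245, nat_lit 1443140, nat_lit 1906190, nat_lit 1517963, nat_lit 1781575],
   .t [nat_lit 1676993, nat_lit 1705540, nat_lit 1509733, nat_lit 1938028, nat_lit 1650530, nat_lit 1782414],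
   .t [nat_lit 1676993, nat_lit 1711845, nat_lit 1811052, nat_lit 1782414, nat_lit 1508615],
   .t [nat_lit 1676993, nat_lit 1711845, nat_lit 1814375, nat_lit 1938028, nat_lit 1782414, nat_lit 1508708],
   .t [nat_lit 1409314, nat_lit 1706565, nat_lit 1611456, nat_lit 1549739, nat_lit 1783470, nat_lit 1653263, nat_lit 1753745],
   .t [nat_lit 1409314, nat_lit 1742532, nat_lit 1706565, nat_lit 1577600, nat_lit 1549739, nat_lit 1783470, nat_lit 1653263],
   .t [nat_lit 1414594, nat_lit 1474852, nat_lit 1577600, nat_lit 1549739, nat_lit 1706565, nat_lit 1653263],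
   .t [nat_lit 1445313, nat_lit 1279170, nat_lit 1245315, nat_lit 1706565, nat_lit 1545607, nat_lit 1577600, nat_lit 1653263],
   .t [nat_lit 1671713, nat_lit 1642082, nat_lit 1902339, nat_lit 1706565, nat_lit 1782414, nat_lit 1611456, nat_lit 1850188],
   .t [nat_lit 1182912, nat_lit 1448420, nat_lit 1511845, nat_lit 1737252, nat_lit 1851274, nat_lit 1971854, nat_lit 1717932, nat_lit 1616643],
   .t [nat_lit 1738340, nat_lit 1511845, nat_lit 1685286, nat_lit 1873452, nat_lit 1445313, nat_lit 1612451],
   .t [nat_lit 1676993, nat_lit 1449445, nat_lit 1687398, nat_lit 1869416, nat_lit 1515913, nat_lit 1812078, nat_lit 1776295, nat_lit 1955639],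
   .t [nat_lit 1448420, nat_lit 1543526, nat_lit 1905196, nat_lit 1617731],
   .t [nat_lit 1611456, nat_lit 1181857, nat_lit 1738340, nat_lit 1376514, nat_lit 1717932, nat_lit 1548714, nat_lit 1782414, nat_lit 1686063],
   .t [nat_lit 1182912, nat_lit 1477057, nat_lit 1376514, nat_lit 1410371, nat_lit 1448420, nat_lit 1515913, nat_lit 1549739],
   .t [nat_lit 1383906, nat_lit 1543526, nat_lit 1612451, nat_lit 1870378, nat_lit 1814375, nat_lit 1955639],
   .t [nat_lit 1449445, nat_lit 1543526, nat_lit 1814375, nat_lit 1612451, nat_lit 1752813, nat_lit 1873452, nat_lit 1947439],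
   .t [nat_lit 1880968, nat_lit 1778220, nat_lit 1984310],
   .t [nat_lit 1511845, nat_lit 1845064, nat_lit 1619625, nat_lit 1873452, nat_lit 1782414, nat_lit 1712900, nat_lit 1922870],
   .t [nat_lit 1511845, nat_lit 1849224, nat_lit 1971854, nat_lit 1712900],
   .t [nat_lit 1645281, nat_lit 1282245, nat_lit 1939022, nat_lit 1686187, nat_lit 1738340, nat_lit 1814375],
   .t [nat_lit 1279170, nat_lit 1870657, nat_lit 1907371, nat_lit 1814375, nat_lit 1955639],
   .t [nat_lit 1542471, nat_lit 1875627, nat_lit 1747533, nat_lit 1650530, nat_lit 1947439],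
   .t [nat_lit 1383906, nat_lit 1739365, nat_lit 1717932, nat_lit 1513895, nat_lit 1971854, nat_lit 1946506, nat_lit 1687398],
   .t [nat_lit 1607264, nat_lit 1742532, nat_lit 1770021, nat_lit 1946506, nat_lit 1970860, nat_lit 1682273],
   .t [nat_lit 1647361, nat_lit 1875566, nat_lit 1508615, nat_lit 1724082, nat_lit 1857332],
   .t [nat_lit 1443140, nat_lit 1872552, nat_lit 1515913, nat_lit 1812078, nat_lit 1682273, nat_lit 1955639],
   .t [nat_lit 1680161, nat_lit 1875566, nat_lit 1508615],
   .t [nat_lit 1745700, nat_lit 1908427, nat_lit 1783470, nat_lit 1413383, nat_lit 1882957],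
   .t [nat_lit 1739457, nat_lit 1508770, nat_lit 1816239, nat_lit 1621614, nat_lit 1789681],
   .t [nat_lit 1645281, nat_lit 1673795, nat_lit 1740326, nat_lit 1508770, nat_lit 1816239, nat_lit 1621614],
   .t [nat_lit 1617731, nat_lit 1448420, nat_lit 1905289, nat_lit 1549739, nat_lit 1740326, nat_lit 1717932],
   .t [nat_lit 1682273, nat_lit 1642082, nat_lit 1245315, nat_lit 1313088, nat_lit 1544582, nat_lit 1869416, nat_lit 1684045, nat_lit 1947439],
   .t [nat_lit 1515913, nat_lit 1651338, nat_lit 1812078, nat_lit 1485288, nat_lit 1752813, nat_lit 1724082],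
   .t [nat_lit 1642082, nat_lit 1350051, nat_lit 1745700, nat_lit 1485288, nat_lit 1544582, nat_lit 1870409, nat_lit 1651338, nat_lit 1724082],
   .t [nat_lit 1676931, nat_lit 1738340, nat_lit 1511845, nat_lit 1445313, nat_lit 1717932],
   .t [nat_lit 1710820, nat_lit 1839752, nat_lit 1909513, nat_lit 1746477, nat_lit 1685286, nat_lit 1984341, nat_lit 1892243],
   .t [nat_lit 1577600, nat_lit 1685286, nat_lit 1901065, nat_lit 1976141, nat_lit 1710820, nat_lit 1892243],
   .t [nat_lit 1836616, nat_lit 1909513, nat_lit 1654506, nat_lit 1812015, nat_lit 1682273, nat_lit 1951571],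
   .t [nat_lit 1448420, nat_lit 1905196, nat_lit 1687398, nat_lit 1951571],
   .t [nat_lit 1383906, nat_lit 1543526, nat_lit 1776295, nat_lit 1837578, nat_lit 1683299, nat_lit 1950546, nat_lit 1886995, nat_lit 1922870],
   .t [nat_lit 1511845, nat_lit 1840652, nat_lit 1448420, nat_lit 1783470, nat_lit 1687398, nat_lit 1819346, nat_lit 1886995, nat_lit 1955639],
   .t [nat_lit 1348000, nat_lit 1713708, nat_lit 1443140, nat_lit 1933897, nat_lit 1682273, nat_lit 1619625, nat_lit 1755795],
   .t [nat_lit 1577600, nat_lit 1448420, nat_lit 1781575, nat_lit 1901065, nat_lit 1549739, nat_lit 1744582, nat_lit 1717932],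
   .t [nat_lit 1642082, nat_lit 1245315, nat_lit 1313088, nat_lit 1806982, nat_lit 1747688, nat_lit 1724082],
   .t [nat_lit 1617731, nat_lit 1448420, nat_lit 1549739, nat_lit 1740326, nat_lit 1970860, nat_lit 1914761],
   .t [nat_lit 1348000, nat_lit 1802945, nat_lit 1717932, nat_lit 1738340, nat_lit 1782414, nat_lit 1686249],
   .t [nat_lit 1348000, nat_lit 1588037, nat_lit 1544582, nat_lit 1907433, nat_lit 1704452, nat_lit 1782414, nat_lit 1816239, nat_lit 1742532],
   .t [nat_lit 1380737, nat_lit 1676993, nat_lit 1588037, nat_lit 1738340, nat_lit 1782414, nat_lit 1902122, nat_lit 1722032],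
   .t [nat_lit 1588037, nat_lit 1544582, nat_lit 1940079, nat_lit 1782414, nat_lit 1920881, nat_lit 1742532, nat_lit 1722032],
   .t [nat_lit 1739457, nat_lit 1780610, nat_lit 1410371, nat_lit 1588037, nat_lit 1773095, nat_lit 1722032, nat_lit 1908427, nat_lit 1971854],
   .t [nat_lit 1511845, nat_lit 1845064, nat_lit 1619625, nat_lit 1971854, nat_lit 1955731, nat_lit 1712900, nat_lit 1920881],
   .t [nat_lit 1739457, nat_lit 1381762, nat_lit 1934954, nat_lit 1880845, nat_lit 1783470, nat_lit 1920881, nat_lit 1588037, nat_lit 1853232],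
   .t [nat_lit 1647361, nat_lit 1902370, nat_lit 1451464, nat_lit 1935947, nat_lit 1879913, nat_lit 1850188],
   .t [nat_lit 1577600, nat_lit 1676962, nat_lit 1608195, nat_lit 1770021, nat_lit 1845064, nat_lit 1871465, nat_lit 1712900, nat_lit 1922870],
   .t [nat_lit 1742532, nat_lit 1806982, nat_lit 1907310, nat_lit 1789681, nat_lit 1588037, nat_lit 1722032],
   .t [nat_lit 1742532, nat_lit 1444165, nat_lit 1970860, nat_lit 1780610],
   .t [nat_lit 1314081, nat_lit 1376514, nat_lit 1673795, nat_lit 1443140, nat_lit 1348000, nat_lit 1652332],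
   .t [nat_lit 1247457, nat_lit 1836616, nat_lit 1744582, nat_lit 1417545, nat_lit 1779246, nat_lit 1583874, nat_lit 1686187, nat_lit 1656432],
   .t [nat_lit 1742532, nat_lit 1585925, nat_lit 1515913, nat_lit 1779246, nat_lit 1880968, nat_lit 1722032, nat_lit 1970860, nat_lit 1857332],
   .t [nat_lit 1445313, nat_lit 1617731, nat_lit 1901065, nat_lit 1653387, nat_lit 1574464, nat_lit 1713708],
   .t [nat_lit 1278115, nat_lit 1543526, nat_lit 1611456, nat_lit 1972911, nat_lit 1781575, nat_lit 1922961],
   .t [nat_lit 1318337, nat_lit 1653634, nat_lit 1742532, nat_lit 1442053, nat_lit 1574464, nat_lit 1970860, nat_lit 1772039],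
   .t [nat_lit 1250532, nat_lit 1839752, nat_lit 1744582, nat_lit 1548714, nat_lit 1717932, nat_lit 1813071, nat_lit 1585925, nat_lit 1788656],
   .t [nat_lit 1443140, nat_lit 1937997, nat_lit 1682273, nat_lit 1849132, nat_lit 1886995],
   .t [nat_lit 1345888, nat_lit 1966729, nat_lit 1716098],
   .t [nat_lit 1344771, nat_lit 1711845, nat_lit 1510695, nat_lit 1906190, nat_lit 1815183, nat_lit 1647361, nat_lit 1950546, nat_lit 1851244],
   .t [nat_lit 1345888, nat_lit 1213570, nat_lit 1510695, nat_lit 1449445, nat_lit 1413507, nat_lit 1638913, nat_lit 1916782, nat_lit 1950546],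
   .t [nat_lit 1282245, nat_lit 1742532, nat_lit 1653387, nat_lit 1717932, nat_lit 1841741, nat_lit 1913614, nat_lit 1781575],
   .t [nat_lit 1449445, nat_lit 1588875, nat_lit 1840652, nat_lit 1781575, nat_lit 1921814],
   .t [nat_lit 1383906, nat_lit 1442053, nat_lit 1611456, nat_lit 1548714, nat_lit 1772039, nat_lit 1849132, nat_lit 1884945],
   .t [nat_lit 1611456, nat_lit 1383906, nat_lit 1588037, nat_lit 1548714, nat_lit 1914670, nat_lit 1772039, nat_lit 1868328],
   .t [nat_lit 1683299, nat_lit 1511845, nat_lit 1971854, nat_lit 1445220, nat_lit 1717932, nat_lit 1955731],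
   .t [nat_lit 1540452, nat_lit 1588037, nat_lit 1544582, nat_lit 1907247, nat_lit 1715727, nat_lit 1782414, nat_lit 1611456],
   .t [nat_lit 1350051, nat_lit 1781575, nat_lit 1905289, nat_lit 1445220, nat_lit 1744582, nat_lit 1717932],
   .t [nat_lit 1611456, nat_lit 1282245, nat_lit 1737252, nat_lit 1907371, nat_lit 1781575],
   .t [nat_lit 1182912, nat_lit 1507621, nat_lit 1742532, nat_lit 1415651, nat_lit 1812139, nat_lit 1785582],
   .t [nat_lit 1181857, nat_lit 1410371, nat_lit 1642082, nat_lit 1873732, nat_lit 1911563, nat_lit 1855282],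
   .t [nat_lit 1181857, nat_lit 1410371, nat_lit 1904171, nat_lit 1376514, nat_lit 1873732, nat_lit 1614624],
   .t [nat_lit 1247457, nat_lit 1934954, nat_lit 1875782, nat_lit 1855282, nat_lit 1583874, nat_lit 1919856],
   .t [nat_lit 1247457, nat_lit 1376514, nat_lit 1410371, nat_lit 1576482, nat_lit 1345888, nat_lit 1875782, nat_lit 1909513, nat_lit 1853232],
   .t [nat_lit 1182912, nat_lit 1645281, nat_lit 1410371, nat_lit 1278115, nat_lit 1873732, nat_lit 1805927, nat_lit 1911563, nat_lit 1855282],
   .t [nat_lit 1748806, nat_lit 1317281, nat_lit 1442053, nat_lit 1808007, nat_lit 1902432, nat_lit 1717932, nat_lit 1941227],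
   .t [nat_lit 1316224, nat_lit 1671713, nat_lit 1282245, nat_lit 1475846, nat_lit 1513895, nat_lit 1710820, nat_lit 1782414, nat_lit 1820371],
   .t [nat_lit 1345888, nat_lit 1279170, nat_lit 1612451, nat_lit 1671713, nat_lit 1871465, nat_lit 1748775],
   .t [nat_lit 1802914, nat_lit 1752813, nat_lit 1870688, nat_lit 1947439],
   .t [nat_lit 1676962, nat_lit 1278115, nat_lit 1870688, nat_lit 1740326, nat_lit 1907495, nat_lit 1951571],
   .t [nat_lit 1676962, nat_lit 1278115, nat_lit 1870688, nat_lit 1937003, nat_lit 1748775],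
   .t [nat_lit 1247457, nat_lit 1771170, nat_lit 1744582],
   .t [nat_lit 1707682, nat_lit 1679075, nat_lit 1737252, nat_lit 1806982, nat_lit 1870688, nat_lit 1951571, nat_lit 1907495],
   .t [nat_lit 1676962, nat_lit 1278115, nat_lit 1870688, nat_lit 1969959, nat_lit 1955731],
   .t [nat_lit 1215712, nat_lit 1671713, nat_lit 1279170, nat_lit 1509733, nat_lit 1720044, nat_lit 1415651, nat_lit 1782414, nat_lit 1820371],
   .t [nat_lit 1279170, nat_lit 1476964, nat_lit 1675937, nat_lit 1874541, nat_lit 1748775],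
   .t [nat_lit 1345888, nat_lit 1675937, nat_lit 1410371, nat_lit 1737252, nat_lit 1510695, nat_lit 1383906, nat_lit 1916782, nat_lit 1951571],
   .t [nat_lit 1345888, nat_lit 1868328, nat_lit 1942314, nat_lit 1813071, nat_lit 1752813, nat_lit 1650530, nat_lit 1619625],
   .t [nat_lit 1711845, nat_lit 1513895, nat_lit 1873608, nat_lit 1811052, nat_lit 1782414, nat_lit 1685286],
   .t [nat_lit 1712900, nat_lit 1620681, nat_lit 1938028, nat_lit 1782414, nat_lit 1845064, nat_lit 1920881],
   .t [nat_lit 1742532, nat_lit 1938028, nat_lit 1782414, nat_lit 1920881, nat_lit 1588037, nat_lit 1722032],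
   .t [nat_lit 1382881, nat_lit 1507621, nat_lit 1875782, nat_lit 1545607, nat_lit 1902432, nat_lit 1943339, nat_lit 1453514],
   .t [nat_lit 1316224, nat_lit 1445313, nat_lit 1245315, nat_lit 1771109, nat_lit 1686342, nat_lit 1905352],
   .t [nat_lit 1574464, nat_lit 1181857, nat_lit 1934114, nat_lit 1873608, nat_lit 1811300, nat_lit 1788656],
   .t [nat_lit 1577600, nat_lit 1934114, nat_lit 1711845, nat_lit 1772039, nat_lit 1873608, nat_lit 1811300],
   .t [nat_lit 1577600, nat_lit 1707621, nat_lit 1901065, nat_lit 1840652, nat_lit 1648387, nat_lit 1684324, nat_lit 1950546],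
   .t [nat_lit 1574464, nat_lit 1905352, nat_lit 1934145, nat_lit 1788656, nat_lit 1811300],
   .t [nat_lit 1838913, nat_lit 1508739, nat_lit 1913614],
   .t [nat_lit 1313088, nat_lit 1380737, nat_lit 1508615, nat_lit 1580738, nat_lit 1704452, nat_lit 1782414],
   .t [nat_lit 1313088, nat_lit 1704452, nat_lit 1511845, nat_lit 1545607, nat_lit 1908427, nat_lit 1485288, nat_lit 1584962, nat_lit 1782414],
   .t [nat_lit 1583874, nat_lit 1443140, nat_lit 1511845, nat_lit 1772039, nat_lit 1873608, nat_lit 1318337, nat_lit 1717932, nat_lit 1857332],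
   .t [nat_lit 1811300, nat_lit 1905352, nat_lit 1956695],
   .t [nat_lit 1711845, nat_lit 1780487, nat_lit 1548714, nat_lit 1873608, nat_lit 1816239, nat_lit 1857332],
   .t [nat_lit 1509733, nat_lit 1847114, nat_lit 1971854, nat_lit 1954706, nat_lit 1583874, nat_lit 1919856],
   .t [nat_lit 1380737, nat_lit 1508615, nat_lit 1842890, nat_lit 1712900, nat_lit 1782414],
   .t [nat_lit 1509733, nat_lit 1971854, nat_lit 1650530, nat_lit 1954706],
   .t [nat_lit 1213570, nat_lit 1968842, nat_lit 1511845, nat_lit 1717932, nat_lit 1747841, nat_lit 1782414],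
   .t [nat_lit 1676962, nat_lit 1745700, nat_lit 1449445, nat_lit 1511845, nat_lit 1476871, nat_lit 1873452, nat_lit 1785582, nat_lit 1820371],
   .t [nat_lit 1676962, nat_lit 1449445, nat_lit 1476871, nat_lit 1778220, nat_lit 1752813, nat_lit 1820371],
   .t [nat_lit 1707682, nat_lit 1415651, nat_lit 1742532, nat_lit 1509733, nat_lit 1544582, nat_lit 1782414],
   .t [nat_lit 1611456, nat_lit 1576482, nat_lit 1410371, nat_lit 1706565, nat_lit 1385832, nat_lit 1638913, nat_lit 1515913, nat_lit 1782414],
   .t [nat_lit 1182912, nat_lit 1638913, nat_lit 1344771, nat_lit 1710820, nat_lit 1515913, nat_lit 1782414, nat_lit 1819346],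
   .t [nat_lit 1742532, nat_lit 1711845, nat_lit 1814375, nat_lit 1517963, nat_lit 1938090, nat_lit 1782414],
   .t [nat_lit 1611456, nat_lit 1642082, nat_lit 1681187, nat_lit 1706565, nat_lit 1515913, nat_lit 1868328, nat_lit 1782414],
   .t [nat_lit 1345888, nat_lit 1617731, nat_lit 1510695, nat_lit 1868328, nat_lit 1318306, nat_lit 1914670],
   .t [nat_lit 1350051, nat_lit 1449445, nat_lit 1781575, nat_lit 1543526, nat_lit 1906190, nat_lit 1717932, nat_lit 1620681, nat_lit 1753745],
   .t [nat_lit 1712900, nat_lit 1513895, nat_lit 1451464, nat_lit 1875689, nat_lit 1806982, nat_lit 1849132],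
   .t [nat_lit 1317281, nat_lit 1738340, nat_lit 1717932, nat_lit 1806982, nat_lit 1451464, nat_lit 1686249],
   .t [nat_lit 1611456, nat_lit 1344771, nat_lit 1711845, nat_lit 1805927, nat_lit 1671713, nat_lit 1778313],
   .t [nat_lit 1379681, nat_lit 1508770, nat_lit 1837578, nat_lit 1617731, nat_lit 1914670, nat_lit 1884945],
   .t [nat_lit 1313088, nat_lit 1379681, nat_lit 1508770, nat_lit 1618569, nat_lit 1868328, nat_lit 1748590, nat_lit 1681187, nat_lit 1717932],
   .t [nat_lit 1449445, nat_lit 1513895, nat_lit 1971854, nat_lit 1717932, nat_lit 1922961, nat_lit 1687398, nat_lit 1951571],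
   .t [nat_lit 1379681, nat_lit 1508770, nat_lit 1444165, nat_lit 1906190, nat_lit 1617731, nat_lit 1717932, nat_lit 1753745],
   .t [nat_lit 1443140, nat_lit 1839752, nat_lit 1975053, nat_lit 1682273, nat_lit 1922961, nat_lit 1717932, nat_lit 1951571],
   .t [nat_lit 1313088, nat_lit 1682273, nat_lit 1442053, nat_lit 1971854, nat_lit 1508770, nat_lit 1717932, nat_lit 1955731],
   .t [nat_lit 1182912, nat_lit 1638913, nat_lit 1344771, nat_lit 1710820, nat_lit 1586825, nat_lit 1811021],
   .t [nat_lit 1345888, nat_lit 1279170, nat_lit 1868328, nat_lit 1317281, nat_lit 1781575, nat_lit 1914670, nat_lit 1620681],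
   .t [nat_lit 1279170, nat_lit 1739395, nat_lit 1379681, nat_lit 1513895, nat_lit 1453514, nat_lit 1717932],
   .t [nat_lit 1348000, nat_lit 1213570, nat_lit 1739395, nat_lit 1314081, nat_lit 1442053, nat_lit 1717932],
   .t [nat_lit 1645281, nat_lit 1351107, nat_lit 1507621, nat_lit 1543526, nat_lit 1938959, nat_lit 1574464, nat_lit 1814375],
   .t [nat_lit 1617731, nat_lit 1509733, nat_lit 1545607, nat_lit 1875503, nat_lit 1707682, nat_lit 1782414, nat_lit 1922870],
   .t [nat_lit 1711845, nat_lit 1510695, nat_lit 1971854, nat_lit 1681187, nat_lit 1892243],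
   .t [nat_lit 1676962, nat_lit 1711845, nat_lit 1513895, nat_lit 1476995, nat_lit 1782414, nat_lit 1740326, nat_lit 1820371],
   .t [nat_lit 1313088, nat_lit 1704452, nat_lit 1511845, nat_lit 1545607, nat_lit 1580738, nat_lit 1485288, nat_lit 1782414],
   .t [nat_lit 1647361, nat_lit 1705540, nat_lit 1510695, nat_lit 1845064, nat_lit 1908427, nat_lit 1938028, nat_lit 1683299, nat_lit 1782414],
   .t [nat_lit 1413507, nat_lit 1449445, nat_lit 1510695, nat_lit 1908427, nat_lit 1582912, nat_lit 1704452, nat_lit 1808007, nat_lit 1785582],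
   .t [nat_lit 1742532, nat_lit 1970860, nat_lit 1779246, nat_lit 1883017, nat_lit 1722032, nat_lit 1585925, nat_lit 1857332],
   .t [nat_lit 1588814, nat_lit 1638913, nat_lit 1771170, nat_lit 1588037, nat_lit 1903115, nat_lit 1611456, nat_lit 1748527],
   .t [nat_lit 1620681, nat_lit 1812015, nat_lit 1588814, nat_lit 1788656],
   .t [nat_lit 1409314, nat_lit 1706565, nat_lit 1611456, nat_lit 1549739, nat_lit 1783470, nat_lit 1948495, nat_lit 1755795, nat_lit 1920881],
   .t [nat_lit 1182912, nat_lit 1579713, nat_lit 1508708, nat_lit 1901065, nat_lit 1351107, nat_lit 1781575],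
   .t [nat_lit 1683299, nat_lit 1511845, nat_lit 1939022, nat_lit 1445220, nat_lit 1717932, nat_lit 1755795],
   .t [nat_lit 1380737, nat_lit 1771170, nat_lit 1542471, nat_lit 1451464, nat_lit 1879913, nat_lit 1908427, nat_lit 1745700, nat_lit 1948495],
   .t [nat_lit 1647361, nat_lit 1451464, nat_lit 1837578, nat_lit 1717932, nat_lit 1780302, nat_lit 1508770, nat_lit 1620681, nat_lit 1753745],
   .t [nat_lit 1413538, nat_lit 1745700, nat_lit 1444165, nat_lit 1545607, nat_lit 1878888, nat_lit 1783470, nat_lit 1948495, nat_lit 1908427],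
   .t [nat_lit 1682273, nat_lit 1580738, nat_lit 1544582, nat_lit 1513895, nat_lit 1837578, nat_lit 1738340, nat_lit 1946383, nat_lit 1783470],
   .t [nat_lit 1313088, nat_lit 1616705, nat_lit 1508770, nat_lit 1901065, nat_lit 1451464, nat_lit 1586732],
   .t [nat_lit 1717932, nat_lit 1684045, nat_lit 1755795],
   .t [nat_lit 1443140, nat_lit 1970860, nat_lit 1616705, nat_lit 1922961],
   .t [nat_lit 1583874, nat_lit 1745700, nat_lit 1836616, nat_lit 1652394, nat_lit 1905165, nat_lit 1870657],
   .t [nat_lit 1905165, nat_lit 1673795, nat_lit 1737252, nat_lit 1845064, nat_lit 1871465, nat_lit 1652394, nat_lit 1583874, nat_lit 1614624],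
   .t [nat_lit 1182912, nat_lit 1583874, nat_lit 1652394, nat_lit 1704452, nat_lit 1673795, nat_lit 1874541, nat_lit 1857332],
   .t [nat_lit 1508708, nat_lit 1648449, nat_lit 1409314, nat_lit 1673795, nat_lit 1740326, nat_lit 1610400, nat_lit 1874541, nat_lit 1914670],
   .t [nat_lit 1740326, nat_lit 1907371, nat_lit 1617731],
   .t [nat_lit 1577600, nat_lit 1213570, nat_lit 1444165, nat_lit 1511845, nat_lit 1906190, nat_lit 1717932, nat_lit 1747812, nat_lit 1934145],
   .t [nat_lit 1511845, nat_lit 1717932, nat_lit 1906190, nat_lit 1448420, nat_lit 1687398, nat_lit 1753745, nat_lit 1951571],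
   .t [nat_lit 1716098, nat_lit 1511845, nat_lit 1476964, nat_lit 1971854],
   .t [nat_lit 1647361, nat_lit 1409314, nat_lit 1684200, nat_lit 1903115, nat_lit 1713708, nat_lit 1607264, nat_lit 1950546, nat_lit 1859444],
   .t [nat_lit 1445220, nat_lit 1409314, nat_lit 1577600, nat_lit 1713708, nat_lit 1608195],
   .t [nat_lit 1316224, nat_lit 1704452, nat_lit 1475846, nat_lit 1511845, nat_lit 1782414, nat_lit 1579713],
   .t [nat_lit 1579651, nat_lit 1745700, nat_lit 1511845, nat_lit 1875782, nat_lit 1445127, nat_lit 1906190, nat_lit 1717932],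
   .t [nat_lit 1607264, nat_lit 1314081, nat_lit 1704452, nat_lit 1875782, nat_lit 1579651, nat_lit 1943339, nat_lit 1413383, nat_lit 1920881],
   .t [nat_lit 1748806, nat_lit 1511845, nat_lit 1906190, nat_lit 1445220, nat_lit 1579651, nat_lit 1717932],
   .t [nat_lit 1250532, nat_lit 1905445, nat_lit 1875782],
   .t [nat_lit 1247457, nat_lit 1318275, nat_lit 1344771, nat_lit 1576482, nat_lit 1618569, nat_lit 1707526],
   .t [nat_lit 1644162, nat_lit 1704452, nat_lit 1585925, nat_lit 1935947, nat_lit 1838944, nat_lit 1413507],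
   .t [nat_lit 1545607, nat_lit 1842703, nat_lit 1585925],
   .t [nat_lit 1617731, nat_lit 1513895, nat_lit 1941227, nat_lit 1707526, nat_lit 1816239, nat_lit 1916782, nat_lit 1753745],
   .t [nat_lit 1581824, nat_lit 1213570, nat_lit 1837578, nat_lit 1878888, nat_lit 1774245, nat_lit 1638913, nat_lit 1950546, nat_lit 1922870],
   .t [nat_lit 1443140, nat_lit 1740326, nat_lit 1970860, nat_lit 1415651, nat_lit 1916811, nat_lit 1682273, nat_lit 1951571],
   .t [nat_lit 1611456, nat_lit 1576482, nat_lit 1679075, nat_lit 1706565, nat_lit 1513895, nat_lit 1802758, nat_lit 1783470, nat_lit 1755795],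
   .t [nat_lit 1611456, nat_lit 1509733, nat_lit 1802758, nat_lit 1781575, nat_lit 1940079, nat_lit 1646306, nat_lit 1916782, nat_lit 1688145],
   .t [nat_lit 1583874, nat_lit 1870595, nat_lit 1510695, nat_lit 1842703, nat_lit 1943339, nat_lit 1916782, nat_lit 1847114],
   .t [nat_lit 1682273, nat_lit 1282245, nat_lit 1545607, nat_lit 1651338, nat_lit 1972911, nat_lit 1738340, nat_lit 1954706],
   .t [nat_lit 1907495, nat_lit 1878888, nat_lit 1654506, nat_lit 1842703, nat_lit 1811206, nat_lit 1950546],
   .t [nat_lit 1687398, nat_lit 1842703, nat_lit 1950546, nat_lit 1886995, nat_lit 1907495],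
   .t [nat_lit 1644162, nat_lit 1278115, nat_lit 1871465, nat_lit 1345888, nat_lit 1748775, nat_lit 1724082],
   .t [nat_lit 1612451, nat_lit 1684230, nat_lit 1805927, nat_lit 1752813, nat_lit 1842703, nat_lit 1753745, nat_lit 1717932],
   .t [nat_lit 1742532, nat_lit 1442053, nat_lit 1970860, nat_lit 1614624, nat_lit 1891217],
   .t [nat_lit 1585925, nat_lit 1884013, nat_lit 1938959, nat_lit 1717932, nat_lit 1857332],
   .t [nat_lit 1345888, nat_lit 1540483, nat_lit 1651338, nat_lit 1838665, nat_lit 1715727, nat_lit 1583874],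
   .t [nat_lit 1349056, nat_lit 1443140, nat_lit 1717932, nat_lit 1511845, nat_lit 1933897, nat_lit 1682273, nat_lit 1755795],
   .t [nat_lit 1509733, nat_lit 1713864, nat_lit 1933897, nat_lit 1644162, nat_lit 1785582, nat_lit 1318368, nat_lit 1814375],
   .t [nat_lit 1651338, nat_lit 1717932, nat_lit 1746477, nat_lit 1616457],
   .t [nat_lit 1579682, nat_lit 1544582, nat_lit 1485288, nat_lit 1453514, nat_lit 1903115, nat_lit 1745700, nat_lit 1882957],
   .t [nat_lit 1611456, nat_lit 1344771, nat_lit 1449445, nat_lit 1805927, nat_lit 1671713, nat_lit 1515913, nat_lit 1785582],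
   .t [nat_lit 1245315, nat_lit 1871465, nat_lit 1544582, nat_lit 1582912, nat_lit 1684045, nat_lit 1947439, nat_lit 1919856],
   .t [nat_lit 1379681, nat_lit 1245315, nat_lit 1739270, nat_lit 1413538, nat_lit 1717932, nat_lit 1574464, nat_lit 1651338],
   .t [nat_lit 1540514, nat_lit 1448420, nat_lit 1739270, nat_lit 1577600, nat_lit 1717932],
   .t [nat_lit 1612451, nat_lit 1544582, nat_lit 1451464, nat_lit 1871465, nat_lit 1745700, nat_lit 1686063],
   .t [nat_lit 1580738, nat_lit 1739365, nat_lit 1510695, nat_lit 1545607, nat_lit 1875503, nat_lit 1681187, nat_lit 1722032, nat_lit 1782414],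
   .t [nat_lit 1545607, nat_lit 1486313, nat_lit 1908427, nat_lit 1746477, nat_lit 1782414, nat_lit 1588037, nat_lit 1722032],
   .t [nat_lit 1181857, nat_lit 1738340, nat_lit 1686311, nat_lit 1717932, nat_lit 1873421, nat_lit 1782414, nat_lit 1580738],
   .t [nat_lit 1181857, nat_lit 1612451, nat_lit 1738340, nat_lit 1684230, nat_lit 1840652, nat_lit 1576482],
   .t [nat_lit 1317281, nat_lit 1687398, nat_lit 1282245, nat_lit 1939207, nat_lit 1717932, nat_lit 1738340, nat_lit 1448420, nat_lit 1839752],
   .t [nat_lit 1182912, nat_lit 1317281, nat_lit 1442053, nat_lit 1808007, nat_lit 1738340, nat_lit 1679075, nat_lit 1717932],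
   .t [nat_lit 1511845, nat_lit 1451464, nat_lit 1486313, nat_lit 1939083, nat_lit 1752813, nat_lit 1811300, nat_lit 1717932],
   .t [nat_lit 1576482, nat_lit 1747812, nat_lit 1837578, nat_lit 1943339, nat_lit 1413507, nat_lit 1618569, nat_lit 1889045],
   .t [nat_lit 1648480, nat_lit 1314081, nat_lit 1413507, nat_lit 1442053, nat_lit 1939083, nat_lit 1705540],
   .t [nat_lit 1617731, nat_lit 1449445, nat_lit 1707526, nat_lit 1588875, nat_lit 1513895, nat_lit 1717932, nat_lit 1906190, nat_lit 1753745],
   .t [nat_lit 1316224, nat_lit 1671713, nat_lit 1616643, nat_lit 1443140, nat_lit 1871465, nat_lit 1511845, nat_lit 1845064, nat_lit 1914670],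
   .t [nat_lit 1345888, nat_lit 1474852, nat_lit 1839752, nat_lit 1548714, nat_lit 1383906, nat_lit 1715975],
   .t [nat_lit 1247457, nat_lit 1738340, nat_lit 1511845, nat_lit 1414594, nat_lit 1941227, nat_lit 1816239, nat_lit 1687398],
   .t [nat_lit 1543526, nat_lit 1868328, nat_lit 1612451, nat_lit 1318368, nat_lit 1814375, nat_lit 1955639],
   .t [nat_lit 1687398, nat_lit 1652456, nat_lit 1901065, nat_lit 1746477, nat_lit 1318368, nat_lit 1776295, nat_lit 1819346, nat_lit 1951571],
   .t [nat_lit 1543526, nat_lit 1947439, nat_lit 1868328, nat_lit 1513895, nat_lit 1617731, nat_lit 1318368, nat_lit 1916782],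
   .t [nat_lit 1348000, nat_lit 1878888, nat_lit 1651338, nat_lit 1717932, nat_lit 1933897, nat_lit 1745700],
   .t [nat_lit 1443140, nat_lit 1740326, nat_lit 1970860, nat_lit 1415651, nat_lit 1616705, nat_lit 1916811],
   .t [nat_lit 1413600, nat_lit 1682273, nat_lit 1443140, nat_lit 1934145, nat_lit 1738340, nat_lit 1916811, nat_lit 1970860],
   .t [nat_lit 1582912, nat_lit 1278115, nat_lit 1904171, nat_lit 1621737, nat_lit 1938959, nat_lit 1814375],
   .t [nat_lit 1213570, nat_lit 1935947, nat_lit 1847114, nat_lit 1511845, nat_lit 1682273, nat_lit 1656432, nat_lit 1914670, nat_lit 1884945],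
   .t [nat_lit 1621891, nat_lit 1966636, nat_lit 1815183, nat_lit 1707744],
   .t [nat_lit 1314081, nat_lit 1585925, nat_lit 1836616, nat_lit 1939083, nat_lit 1713708, nat_lit 1683299, nat_lit 1656432],
   .t [nat_lit 1770021, nat_lit 1654506, nat_lit 1906190, nat_lit 1948495, nat_lit 1616736, nat_lit 1819346],
   .t [nat_lit 1580738, nat_lit 1739365, nat_lit 1513895, nat_lit 1873452, nat_lit 1782414, nat_lit 1685286, nat_lit 1722032],
   .t [nat_lit 1613507, nat_lit 1545607, nat_lit 1707621, nat_lit 1782414, nat_lit 1686063],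
   .t [nat_lit 1738340, nat_lit 1654506, nat_lit 1937997, nat_lit 1816239, nat_lit 1682273],
   .t [nat_lit 1646306, nat_lit 1545607, nat_lit 1739365, nat_lit 1684045, nat_lit 1816239],
   .t [nat_lit 1686403, nat_lit 1738340, nat_lit 1511845, nat_lit 1717932, nat_lit 1971854, nat_lit 1445313],
   .t [nat_lit 1648480, nat_lit 1413569, nat_lit 1474852, nat_lit 1574464, nat_lit 1966605, nat_lit 1948555],
   .t [nat_lit 1943339, nat_lit 1477057, nat_lit 1515913, nat_lit 1868328, nat_lit 1618445, nat_lit 1574464, nat_lit 1650530],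
   .t [nat_lit 1574464, nat_lit 1739457, nat_lit 1650530, nat_lit 1515913, nat_lit 1943339, nat_lit 1868328, nat_lit 1782414, nat_lit 1722032],
   .t [nat_lit 1642082, nat_lit 1686403, nat_lit 1545607, nat_lit 1706565, nat_lit 1782414, nat_lit 1973967],
   .t [nat_lit 1345888, nat_lit 1739457, nat_lit 1650530, nat_lit 1770021, nat_lit 1381762, nat_lit 1934954, nat_lit 1618569, nat_lit 1724082],
   .t [nat_lit 1653634, nat_lit 1967724, nat_lit 1782414, nat_lit 1739457, nat_lit 1724082],
   .t [nat_lit 1676993, nat_lit 1507621, nat_lit 1934954, nat_lit 1582912, nat_lit 1714764, nat_lit 1782414, nat_lit 1919856],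
   .t [nat_lit 1588037, nat_lit 1836616, nat_lit 1318337, nat_lit 1808007, nat_lit 1919856, nat_lit 1954583],
   .t [nat_lit 1838882, nat_lit 1410371, nat_lit 1706565, nat_lit 1873608, nat_lit 1647361, nat_lit 1517963, nat_lit 1782414],
   .t [nat_lit 1345888, nat_lit 1415651, nat_lit 1482182, nat_lit 1540359, nat_lit 1838882, nat_lit 1909513, nat_lit 1882957],
   .t [nat_lit 1415651, nat_lit 1742532, nat_lit 1509733, nat_lit 1544582, nat_lit 1838882, nat_lit 1880845, nat_lit 1782414, nat_lit 1717932],
   .t [nat_lit 1415651, nat_lit 1444165, nat_lit 1811206, nat_lit 1873608, nat_lit 1838882, nat_lit 1720044, nat_lit 1517963, nat_lit 1782414],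
   .t [nat_lit 1838882, nat_lit 1410371, nat_lit 1712900, nat_lit 1509733, nat_lit 1873608, nat_lit 1380737, nat_lit 1782414],
   .t [nat_lit 1509733, nat_lit 1873608, nat_lit 1942314, nat_lit 1714764, nat_lit 1650530, nat_lit 1782414],
   .t [nat_lit 1348000, nat_lit 1588037, nat_lit 1868328, nat_lit 1849132, nat_lit 1909513, nat_lit 1782414, nat_lit 1742532, nat_lit 1722032],
   .t [nat_lit 1480132, nat_lit 1780487, nat_lit 1839752, nat_lit 1548714, nat_lit 1711845, nat_lit 1817295],
   .t [nat_lit 1245315, nat_lit 1805927, nat_lit 1938152, nat_lit 1318368, nat_lit 1687398],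
   .t [nat_lit 1380737, nat_lit 1588037, nat_lit 1902122, nat_lit 1782414, nat_lit 1742532, nat_lit 1722032],
   .t [nat_lit 1687398, nat_lit 1713864, nat_lit 1933897, nat_lit 1717932, nat_lit 1513895, nat_lit 1318368, nat_lit 1782414, nat_lit 1755795],
   .t [nat_lit 1182912, nat_lit 1933897, nat_lit 1612451, nat_lit 1443140, nat_lit 1713708, nat_lit 1682273, nat_lit 1755795],
   .t [nat_lit 1802758, nat_lit 1513895, nat_lit 1451464, nat_lit 1717932, nat_lit 1318368, nat_lit 1621737, nat_lit 1753745],
   .t [nat_lit 1707744, nat_lit 1344771, nat_lit 1671713, nat_lit 1811114, nat_lit 1616457, nat_lit 1755795],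
   .t [nat_lit 1737252, nat_lit 1585925, nat_lit 1839752, nat_lit 1717932, nat_lit 1811021, nat_lit 1611456, nat_lit 1788656],
   .t [nat_lit 1348000, nat_lit 1443140, nat_lit 1717932, nat_lit 1901065, nat_lit 1682273, nat_lit 1753745, nat_lit 1951571],
   .t [nat_lit 1771232, nat_lit 1643137, nat_lit 1442053, nat_lit 1811021, nat_lit 1717932, nat_lit 1742532],
   .t [nat_lit 1707744, nat_lit 1583874, nat_lit 1608195, nat_lit 1737252, nat_lit 1548714, nat_lit 1717932, nat_lit 1839752, nat_lit 1815183],
   .t [nat_lit 1742532, nat_lit 1442053, nat_lit 1577600, nat_lit 1811021, nat_lit 1717932, nat_lit 1788656],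
   .t [nat_lit 1317281, nat_lit 1508708, nat_lit 1905289, nat_lit 1451464, nat_lit 1748806, nat_lit 1717932],
   .t [nat_lit 1350051, nat_lit 1480132, nat_lit 1544582, nat_lit 1838665, nat_lit 1585925, nat_lit 1817295, nat_lit 1788656],
   .t [nat_lit 1675937, nat_lit 1771139, nat_lit 1713988, nat_lit 1744582, nat_lit 1510695, nat_lit 1874541, nat_lit 1914670],
   .t [nat_lit 1247457, nat_lit 1613507, nat_lit 1475846, nat_lit 1707682, nat_lit 1515913, nat_lit 1746477, nat_lit 1782414],
   .t [nat_lit 1712900, nat_lit 1806982, nat_lit 1510695, nat_lit 1845064, nat_lit 1908427, nat_lit 1415651, nat_lit 1785582],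
   .t [nat_lit 1582912, nat_lit 1511845, nat_lit 1879913, nat_lit 1939083, nat_lit 1704452, nat_lit 1914670],
   .t [nat_lit 1707744, nat_lit 1409314, nat_lit 1344771, nat_lit 1804871, nat_lit 1842827, nat_lit 1647361],
   .t [nat_lit 1707744, nat_lit 1409314, nat_lit 1681187, nat_lit 1968779, nat_lit 1892243],
   .t [nat_lit 1611456, nat_lit 1642082, nat_lit 1344771, nat_lit 1706565, nat_lit 1671713, nat_lit 1515913, nat_lit 1782414],
   .t [nat_lit 1508832, nat_lit 1380737, nat_lit 1704452, nat_lit 1782414, nat_lit 1588938],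
   .t [nat_lit 1580738, nat_lit 1344771, nat_lit 1712900, nat_lit 1510695, nat_lit 1837578, nat_lit 1380737, nat_lit 1782414],
   .t [nat_lit 1811329, nat_lit 1376514, nat_lit 1968842, nat_lit 1574464, nat_lit 1788656],
   .t [nat_lit 1317281, nat_lit 1742532, nat_lit 1442053, nat_lit 1806982, nat_lit 1607264, nat_lit 1717932, nat_lit 1789681],
   .t [nat_lit 1788656, nat_lit 1892243, nat_lit 1983254, nat_lit 1855282],
   .t [nat_lit 1966729, nat_lit 1648480, nat_lit 1954706],
   .t [nat_lit 1617731, nat_lit 1970860, nat_lit 1445220, nat_lit 1922961],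
   .t [nat_lit 1617731, nat_lit 1511845, nat_lit 1906190, nat_lit 1445220, nat_lit 1717932, nat_lit 1753745],
   .t [nat_lit 1582912, nat_lit 1511845, nat_lit 1619625, nat_lit 1971854, nat_lit 1704452, nat_lit 1922961],
   .t [nat_lit 1409314, nat_lit 1449445, nat_lit 1772039, nat_lit 1611456, nat_lit 1713708, nat_lit 1588875],
   .t [nat_lit 1611456, nat_lit 1449445, nat_lit 1901065, nat_lit 1588875, nat_lit 1713708, nat_lit 1781575],
   .t [nat_lit 1843045, nat_lit 1510695, nat_lit 1873452, nat_lit 1943339, nat_lit 1913614, nat_lit 1617731],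
   .t [nat_lit 1616736, nat_lit 1704452, nat_lit 1511845, nat_lit 1542471, nat_lit 1580738, nat_lit 1873452, nat_lit 1782414, nat_lit 1947439],
   .t [nat_lit 1577600, nat_lit 1213570, nat_lit 1608195, nat_lit 1314081, nat_lit 1442053, nat_lit 1746477, nat_lit 1717932],
   .t [nat_lit 1574464, nat_lit 1314081, nat_lit 1644162, nat_lit 1835528, nat_lit 1746477, nat_lit 1608195, nat_lit 1586981, nat_lit 1889045],
   .t [nat_lit 1349056, nat_lit 1679075, nat_lit 1802758, nat_lit 1513895, nat_lit 1871465, nat_lit 1586981],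
   .t [nat_lit 1215712, nat_lit 1638913, nat_lit 1586981, nat_lit 1673795, nat_lit 1875566, nat_lit 1508770],
   .t [nat_lit 1638913, nat_lit 1771170, nat_lit 1673795, nat_lit 1586981, nat_lit 1740326, nat_lit 1874541, nat_lit 1611456],
   .t [nat_lit 1215712, nat_lit 1638913, nat_lit 1586981, nat_lit 1673795, nat_lit 1875566, nat_lit 1508770],
   .t [nat_lit 1314081, nat_lit 1738340, nat_lit 1806982, nat_lit 1513895, nat_lit 1679075, nat_lit 1451464, nat_lit 1717932],
   .t [nat_lit 1247457, nat_lit 1475846, nat_lit 1580738, nat_lit 1515913, nat_lit 1746477, nat_lit 1782414, nat_lit 1722032],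
   .t [nat_lit 1316224, nat_lit 1704452, nat_lit 1542471, nat_lit 1511845, nat_lit 1782414, nat_lit 1485288, nat_lit 1580738],
   .t [nat_lit 1383906, nat_lit 1540452, nat_lit 1905445, nat_lit 1939207, nat_lit 1870688, nat_lit 1847114],
   .t [nat_lit 1748867, nat_lit 1970860, nat_lit 1445220],
   .t [nat_lit 1314081, nat_lit 1738340, nat_lit 1511845, nat_lit 1676931, nat_lit 1451464, nat_lit 1717932],
   .t [nat_lit 1349056, nat_lit 1317281, nat_lit 1508708, nat_lit 1282245, nat_lit 1868328, nat_lit 1781575, nat_lit 1914670, nat_lit 1620681],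
   .t [nat_lit 1351107, nat_lit 1511845, nat_lit 1748775, nat_lit 1873545, nat_lit 1717932, nat_lit 1445220],
   .t [nat_lit 1316224, nat_lit 1617731, nat_lit 1445220, nat_lit 1774245, nat_lit 1868328, nat_lit 1922870],
   .t [nat_lit 1707682, nat_lit 1617731, nat_lit 1509733, nat_lit 1873452, nat_lit 1782414, nat_lit 1922870],
   .t [nat_lit 1582912, nat_lit 1511845, nat_lit 1619625, nat_lit 1873452, nat_lit 1782414, nat_lit 1704452, nat_lit 1922870],
   .t [nat_lit 1711845, nat_lit 1513895, nat_lit 1873452, nat_lit 1782414, nat_lit 1685286, nat_lit 1820371],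
   .t [nat_lit 1379681, nat_lit 1245315, nat_lit 1607264, nat_lit 1544582, nat_lit 1453514, nat_lit 1686063],
   .t [nat_lit 1182912, nat_lit 1317281, nat_lit 1376514, nat_lit 1673795, nat_lit 1717932, nat_lit 1738340, nat_lit 1651338],
   .t [nat_lit 1574464, nat_lit 1181857, nat_lit 1934114, nat_lit 1717932, nat_lit 1873421, nat_lit 1448420, nat_lit 1687398, nat_lit 1755795],
   .t [nat_lit 1279170, nat_lit 1935947, nat_lit 1651338, nat_lit 1317281, nat_lit 1717932, nat_lit 1748775, nat_lit 1878888],
   .t [nat_lit 1644162, nat_lit 1278115, nat_lit 1707526, nat_lit 1345888, nat_lit 1907495, nat_lit 1879913, nat_lit 1950546],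
   .t [nat_lit 1582912, nat_lit 1380737, nat_lit 1508615, nat_lit 1908427, nat_lit 1417545, nat_lit 1704452, nat_lit 1782414],
   .t [nat_lit 1704452, nat_lit 1588037, nat_lit 1938028, nat_lit 1782414, nat_lit 1611456, nat_lit 1920881],
   .t [nat_lit 1742532, nat_lit 1711845, nat_lit 1811114, nat_lit 1517963, nat_lit 1413383, nat_lit 1782414],
   .t [nat_lit 1380737, nat_lit 1585925, nat_lit 1771014, nat_lit 1841834, nat_lit 1742532],
   .t [nat_lit 1647361, nat_lit 1580738, nat_lit 1706565, nat_lit 1971854, nat_lit 1508615, nat_lit 1858448],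
   .t [nat_lit 1414594, nat_lit 1772039, nat_lit 1620681, nat_lit 1549739, nat_lit 1449445, nat_lit 1717932, nat_lit 1753745],
   .t [nat_lit 1415651, nat_lit 1654506, nat_lit 1517963, nat_lit 1740326, nat_lit 1782414, nat_lit 1820371, nat_lit 1724082],
   .t [nat_lit 1545607, nat_lit 1908427, nat_lit 1782414, nat_lit 1588037, nat_lit 1722032, nat_lit 1748527],
   .t [nat_lit 1574464, nat_lit 1379681, nat_lit 1650530, nat_lit 1444165, nat_lit 1938959, nat_lit 1540483],
   .t [nat_lit 1540483, nat_lit 1486313, nat_lit 1904171, nat_lit 1582912, nat_lit 1618445],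
   .t [nat_lit 1316224, nat_lit 1584962, nat_lit 1474852, nat_lit 1839752, nat_lit 1549739, nat_lit 1706565, nat_lit 1913614, nat_lit 1653263],
   .t [nat_lit 1348000, nat_lit 1704452, nat_lit 1914761, nat_lit 1983316],
   .t [nat_lit 1540483, nat_lit 1510695, nat_lit 1582912, nat_lit 1715727, nat_lit 1782414, nat_lit 1908427],
   .t [nat_lit 1914761, nat_lit 1449445, nat_lit 1510695, nat_lit 1549739, nat_lit 1617731, nat_lit 1971854, nat_lit 1713708],
   .t [nat_lit 1247457, nat_lit 1738340, nat_lit 1511845, nat_lit 1684230, nat_lit 1414594, nat_lit 1941227, nat_lit 1717932, nat_lit 1859444],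
   .t [nat_lit 1607264, nat_lit 1247457, nat_lit 1409314, nat_lit 1842827, nat_lit 1713708, nat_lit 1684230],
   .t [nat_lit 1611456, nat_lit 1279170, nat_lit 1737252, nat_lit 1588037, nat_lit 1772039, nat_lit 1907310, nat_lit 1675937],
   .t [nat_lit 1279170, nat_lit 1579651, nat_lit 1713988, nat_lit 1413569, nat_lit 1620681, nat_lit 1772039, nat_lit 1904171],
   .t [nat_lit 1713988, nat_lit 1544582, nat_lit 1510695, nat_lit 1842827, nat_lit 1415651, nat_lit 1913614],
   .t [nat_lit 1215712, nat_lit 1376514, nat_lit 1745700, nat_lit 1870595, nat_lit 1449445, nat_lit 1970860, nat_lit 1851274],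
   .t [nat_lit 1707682, nat_lit 1617731, nat_lit 1444165, nat_lit 1485288, nat_lit 1515913, nat_lit 1588875, nat_lit 1746477, nat_lit 1906190],
   .t [nat_lit 1648449, nat_lit 1748713, nat_lit 1905165, nat_lit 1717932, nat_lit 1508708, nat_lit 1782414, nat_lit 1819346],
   .t [nat_lit 1611456, nat_lit 1675937, nat_lit 1642082, nat_lit 1245315, nat_lit 1706565, nat_lit 1508739, nat_lit 1782414, nat_lit 1740326],
   .t [nat_lit 1415651, nat_lit 1509733, nat_lit 1644162, nat_lit 1720044, nat_lit 1707526, nat_lit 1782414, nat_lit 1819346],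
   .t [nat_lit 1508739, nat_lit 1642082, nat_lit 1706565, nat_lit 1611456, nat_lit 1782414, nat_lit 1671713],
   .t [nat_lit 1350051, nat_lit 1742532, nat_lit 1707621, nat_lit 1717932, nat_lit 1806982, nat_lit 1782414, nat_lit 1686249],
   .t [nat_lit 1683299, nat_lit 1509733, nat_lit 1740326, nat_lit 1939207, nat_lit 1580738, nat_lit 1841772, nat_lit 1782414, nat_lit 1722032],
   .t [nat_lit 1580738, nat_lit 1413507, nat_lit 1250532, nat_lit 1740326, nat_lit 1509733, nat_lit 1782414, nat_lit 1722032],
   .t [nat_lit 1345888, nat_lit 1413507, nat_lit 1510695, nat_lit 1580738, nat_lit 1704452, nat_lit 1782414],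
   .t [nat_lit 1413507, nat_lit 1474852, nat_lit 1740326, nat_lit 1513895, nat_lit 1908427, nat_lit 1582912, nat_lit 1782414, nat_lit 1722032],
   .t [nat_lit 1618725, nat_lit 1545607, nat_lit 1486313, nat_lit 1908427, nat_lit 1746477, nat_lit 1891157],
   .t [nat_lit 1713957, nat_lit 1510695, nat_lit 1875843, nat_lit 1971854],
   .t [nat_lit 1182912, nat_lit 1247457, nat_lit 1508739, nat_lit 1704452, nat_lit 1580738, nat_lit 1782414],
   .t [nat_lit 1181857, nat_lit 1508739, nat_lit 1576482, nat_lit 1742532, nat_lit 1782414, nat_lit 1722032],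
   .t [nat_lit 1182912, nat_lit 1645281, nat_lit 1802853, nat_lit 1508739, nat_lit 1742532, nat_lit 1782414, nat_lit 1724082],
   .t [nat_lit 1873732, nat_lit 1707621, nat_lit 1620681, nat_lit 1413507, nat_lit 1943339, nat_lit 1920881, nat_lit 1782414],
   .t [nat_lit 1350051, nat_lit 1480132, nat_lit 1707621, nat_lit 1806982, nat_lit 1686249],
   .t [nat_lit 1348000, nat_lit 1540483, nat_lit 1740326, nat_lit 1710820, nat_lit 1618569, nat_lit 1816239],
   .t [nat_lit 1316224, nat_lit 1580738, nat_lit 1344771, nat_lit 1739365, nat_lit 1510695, nat_lit 1671713, nat_lit 1782414, nat_lit 1722032],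
   .t [nat_lit 1684324, nat_lit 1511845, nat_lit 1873545, nat_lit 1812078, nat_lit 1717932, nat_lit 1955639],
   .t [nat_lit 1379681, nat_lit 1508770, nat_lit 1739365, nat_lit 1906190, nat_lit 1717932, nat_lit 1617731, nat_lit 1753745, nat_lit 1684138],
   .t [nat_lit 1682273, nat_lit 1444165, nat_lit 1906190, nat_lit 1508770, nat_lit 1717932, nat_lit 1753745, nat_lit 1951571],
   .t [nat_lit 1345888, nat_lit 1707682, nat_lit 1617731, nat_lit 1966729, nat_lit 1922961],
   .t [nat_lit 1642082, nat_lit 1681187, nat_lit 1742532, nat_lit 1706565, nat_lit 1515913, nat_lit 1872552, nat_lit 1782414],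
   .t [nat_lit 1409314, nat_lit 1608195, nat_lit 1448420, nat_lit 1543526, nat_lit 1577600, nat_lit 1713708],
   .t [nat_lit 1215712, nat_lit 1414594, nat_lit 1449445, nat_lit 1507621, nat_lit 1608195, nat_lit 1549739, nat_lit 1586732],
   .t [nat_lit 1739457, nat_lit 1580738, nat_lit 1745700, nat_lit 1511845, nat_lit 1508615, nat_lit 1873452, nat_lit 2830990, nat_lit 1586732, nat_lit 2770608],
   .t [nat_lit 1902432, nat_lit 1380737, nat_lit 1588037, nat_lit 1704452, nat_lit 1782414, nat_lit 1939146],
   .t [nat_lit 1345888, nat_lit 1540483, nat_lit 1618569, nat_lit 1576482, nat_lit 1715727],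
   .t [nat_lit 1710820, nat_lit 1905289, nat_lit 1779246, nat_lit 1948495, nat_lit 1687398, nat_lit 1820371],
   .t [nat_lit 1612451, nat_lit 1711845, nat_lit 1805927, nat_lit 1906190, nat_lit 1817295, nat_lit 1687398, nat_lit 1753745, nat_lit 1956695],
   .t [nat_lit 1247457, nat_lit 1650530, nat_lit 1508708, nat_lit 1970860, nat_lit 1744582, nat_lit 1782414, nat_lit 1954706],
   .t [nat_lit 1739457, nat_lit 1409314, nat_lit 1681187, nat_lit 1607264, nat_lit 1904171, nat_lit 1891157],
   .t [nat_lit 1711845, nat_lit 1544582, nat_lit 1814375, nat_lit 1907371, nat_lit 1742532, nat_lit 1782414, nat_lit 1948495],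
   .t [nat_lit 1679075, nat_lit 1745700, nat_lit 1513895, nat_lit 1451464, nat_lit 1871465, nat_lit 1806982, nat_lit 1717932],
   .t [nat_lit 1686403, nat_lit 1480132, nat_lit 1871465, nat_lit 1970860, nat_lit 1585925, nat_lit 1746477, nat_lit 1853232],
   .t [nat_lit 1780581, nat_lit 1544582, nat_lit 1513895, nat_lit 1453514, nat_lit 1873732, nat_lit 1908427, nat_lit 1947439],
   .t [nat_lit 1182912, nat_lit 1638913, nat_lit 1579682, nat_lit 1706565, nat_lit 1410371, nat_lit 1742532, nat_lit 1517963, nat_lit 1782414],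
   .t [nat_lit 1770021, nat_lit 1883017, nat_lit 1971854, nat_lit 1582912, nat_lit 1722032, nat_lit 1922870],
   .t [nat_lit 1711845, nat_lit 1805927, nat_lit 1620681, nat_lit 1906190, nat_lit 1681187, nat_lit 1753745, nat_lit 1891157],
   .t [nat_lit 1381762, nat_lit 1681187, nat_lit 1805927, nat_lit 1620681, nat_lit 1870378, nat_lit 1782414, nat_lit 1711845],
   .t [nat_lit 1707682, nat_lit 1648387, nat_lit 1706565, nat_lit 1840652, nat_lit 1782414, nat_lit 1620681, nat_lit 1753745],
   .t [nat_lit 1313088, nat_lit 1380737, nat_lit 1344771, nat_lit 1704452, nat_lit 1510695, nat_lit 1580738, nat_lit 1782414],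
   .t [nat_lit 1902432, nat_lit 1739457, nat_lit 1414594, nat_lit 1704452, nat_lit 1970860, nat_lit 1585925, nat_lit 1948555, nat_lit 1858388],
   .t [nat_lit 1413569, nat_lit 1588037, nat_lit 1939083, nat_lit 1902432, nat_lit 1704452],
   .t [nat_lit 1348000, nat_lit 1213570, nat_lit 1509733, nat_lit 1802945, nat_lit 1717932, nat_lit 1748713, nat_lit 1782414],
   .t [nat_lit 1577600, nat_lit 1279170, nat_lit 1608195, nat_lit 1713988, nat_lit 1510695, nat_lit 1317281, nat_lit 1868328, nat_lit 1914670],
   .t [nat_lit 1182912, nat_lit 1317281, nat_lit 1868328, nat_lit 1385832, nat_lit 1443140, nat_lit 1515913, nat_lit 1617731, nat_lit 1914670],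
   .t [nat_lit 1317281, nat_lit 1717932, nat_lit 1803846, nat_lit 1451464, nat_lit 1686249, nat_lit 1755795],
   .t [nat_lit 1181857, nat_lit 1410371, nat_lit 1576482, nat_lit 1873732, nat_lit 1911563, nat_lit 1853232],
   .t [nat_lit 1213570, nat_lit 1608195, nat_lit 1740326, nat_lit 1872552, nat_lit 1317281, nat_lit 1914670, nat_lit 1588037],
   .t [nat_lit 1540452, nat_lit 1511845, nat_lit 1453514, nat_lit 1677024, nat_lit 1652332, nat_lit 1813071],
   .t [nat_lit 1215712, nat_lit 1383906, nat_lit 1540452, nat_lit 1511845, nat_lit 1673795, nat_lit 1715914, nat_lit 1783470, nat_lit 1755795],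
   .t [nat_lit 1579744, nat_lit 1278115, nat_lit 1445220, nat_lit 1938182, nat_lit 1840652, nat_lit 1814375],
   .t [nat_lit 1409314, nat_lit 1706565, nat_lit 1611456, nat_lit 1648170, nat_lit 1780363],
   .t [nat_lit 1443140, nat_lit 1675937, nat_lit 1517963, nat_lit 1715727, nat_lit 1785582, nat_lit 1753745, nat_lit 1820371],
   .t [nat_lit 1643137, nat_lit 1383906, nat_lit 1742532, nat_lit 1442053, nat_lit 1574464, nat_lit 1548714, nat_lit 1772039, nat_lit 1717932],
   .t [nat_lit 1873452, nat_lit 1376514, nat_lit 1608195, nat_lit 1509733, nat_lit 1574464, nat_lit 1942314, nat_lit 1445313, nat_lit 1650530],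
   .t [nat_lit 1318337, nat_lit 1442053, nat_lit 1939207, nat_lit 1574464, nat_lit 1850188, nat_lit 1919856],
   .t [nat_lit 1511845, nat_lit 1545607, nat_lit 1451464, nat_lit 1875689, nat_lit 1745700, nat_lit 1816239],
   .t [nat_lit 1508770, nat_lit 1739365, nat_lit 1946506, nat_lit 1717932, nat_lit 1971854, nat_lit 1682273],
   .t [nat_lit 1737252, nat_lit 1806982, nat_lit 1878888, nat_lit 1946506, nat_lit 1717932, nat_lit 1972973, nat_lit 1614624],
   .t [nat_lit 1279170, nat_lit 1444165, nat_lit 1906190, nat_lit 1513895, nat_lit 1682273, nat_lit 1717932, nat_lit 1753745, nat_lit 1951571],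
   .t [nat_lit 1682273, nat_lit 1444165, nat_lit 1971854, nat_lit 1508770, nat_lit 1922961, nat_lit 1717932, nat_lit 1951571],
   .t [nat_lit 1348000, nat_lit 1576482, nat_lit 1540483, nat_lit 1485288, nat_lit 1837578, nat_lit 1712900, nat_lit 1618569],
   .t [nat_lit 1477088, nat_lit 1644162, nat_lit 1278115, nat_lit 1720044, nat_lit 1805927, nat_lit 1684045],
   .t [nat_lit 1589122, nat_lit 1704452, nat_lit 1511845, nat_lit 1477088, nat_lit 1971854],
   .t [nat_lit 1582912, nat_lit 1612451, nat_lit 1282245, nat_lit 1873452, nat_lit 1510695, nat_lit 1704452, nat_lit 1782414, nat_lit 1922870],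
   .t [nat_lit 1316224, nat_lit 1704452, nat_lit 1475846, nat_lit 1511845, nat_lit 1782414, nat_lit 1645281, nat_lit 1819346],
   .t [nat_lit 1348000, nat_lit 1250532, nat_lit 1802853, nat_lit 1941227, nat_lit 1486313, nat_lit 1687398],
   .t [nat_lit 1589122, nat_lit 1511845, nat_lit 1485288, nat_lit 1837578, nat_lit 1712900, nat_lit 1971854],
   .t [nat_lit 1414594, nat_lit 1870595, nat_lit 1745700, nat_lit 1543526, nat_lit 1841896, nat_lit 1511845, nat_lit 1816239],
   .t [nat_lit 1414594, nat_lit 1870595, nat_lit 1448420, nat_lit 1543526, nat_lit 1511845, nat_lit 1849132],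
   .t [nat_lit 1414594, nat_lit 1870595, nat_lit 1543526, nat_lit 1513895, nat_lit 1449445, nat_lit 1849132],
   .t [nat_lit 1647361, nat_lit 1618632, nat_lit 1942314, nat_lit 1813071, nat_lit 1789681, nat_lit 1869416, nat_lit 1851244],
   .t [nat_lit 1380737, nat_lit 1474852, nat_lit 1845064, nat_lit 1508832, nat_lit 1942314, nat_lit 1880845, nat_lit 1916782],
   .t [nat_lit 1802758, nat_lit 1776295, nat_lit 1713864, nat_lit 1318368, nat_lit 1621737, nat_lit 1753745],
   .t [nat_lit 1907587, nat_lit 1588037, nat_lit 1707526, nat_lit 1971854],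
   .t [nat_lit 1443140, nat_lit 1938152, nat_lit 1317281, nat_lit 1813071, nat_lit 1755795, nat_lit 1687398, nat_lit 1717932],
   .t [nat_lit 1652486, nat_lit 1511845, nat_lit 1840652, nat_lit 1710820, nat_lit 1782414, nat_lit 1819346],
   .t [nat_lit 1317281, nat_lit 1376514, nat_lit 1739270, nat_lit 1717932, nat_lit 1574464, nat_lit 1651338],
   .t [nat_lit 1643137, nat_lit 1673795, nat_lit 1842020, nat_lit 1707526, nat_lit 1934954, nat_lit 1583874],
   .t [nat_lit 1681187, nat_lit 1474852, nat_lit 1805927, nat_lit 1839752, nat_lit 1717932, nat_lit 1318368, nat_lit 1752813, nat_lit 1880845],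
   .t [nat_lit 1681187, nat_lit 1738340, nat_lit 1806982, nat_lit 1907433, nat_lit 1717932, nat_lit 1880845, nat_lit 1838913],
   .t [nat_lit 1582912, nat_lit 1934145, nat_lit 1213570, nat_lit 1814375, nat_lit 1905289, nat_lit 1903115, nat_lit 1711845],
   .t [nat_lit 1409314, nat_lit 1350051, nat_lit 1742532, nat_lit 1449445, nat_lit 1772039, nat_lit 1577600, nat_lit 1543526, nat_lit 1717932],
   .t [nat_lit 1579651, nat_lit 1712900, nat_lit 1511845, nat_lit 1475846, nat_lit 1838913, nat_lit 1906190],
   .t [nat_lit 1314081, nat_lit 1738340, nat_lit 1875782, nat_lit 1612451, nat_lit 1943339, nat_lit 1413383, nat_lit 1920881],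
   .t [nat_lit 1215712, nat_lit 1704452, nat_lit 1902339, nat_lit 1908427, nat_lit 1413569, nat_lit 1588037, nat_lit 1858388],
   .t [nat_lit 1511845, nat_lit 1545607, nat_lit 1486313, nat_lit 1908427, nat_lit 1713988, nat_lit 1782414],
   .t [nat_lit 1247457, nat_lit 1738340, nat_lit 1511845, nat_lit 1873452, nat_lit 1580738, nat_lit 1782414, nat_lit 1685286, nat_lit 1722032],
   .t [nat_lit 1215712, nat_lit 1638913, nat_lit 1583874, nat_lit 1410371, nat_lit 1449445, nat_lit 1884013, nat_lit 1935947, nat_lit 1849132],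
   .t [nat_lit 1313088, nat_lit 1770021, nat_lit 1644162, nat_lit 1878888, nat_lit 1951571, nat_lit 1724082, nat_lit 1922870],
   .t [nat_lit 1449445, nat_lit 1543526, nat_lit 1513895, nat_lit 1971854, nat_lit 1683299, nat_lit 1717932, nat_lit 1955731],
   .t [nat_lit 1617731, nat_lit 1449445, nat_lit 1513895, nat_lit 1906190, nat_lit 1717932, nat_lit 1687398, nat_lit 1753745, nat_lit 1937003],
   .t [nat_lit 1638913, nat_lit 1579682, nat_lit 1738340, nat_lit 1706565, nat_lit 1806982, nat_lit 1611456, nat_lit 1789681],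
   .t [nat_lit 1576482, nat_lit 1278115, nat_lit 1542471, nat_lit 1878888, nat_lit 1840652, nat_lit 1614624, nat_lit 1946383],
   .t [nat_lit 1379681, nat_lit 1738340, nat_lit 1806982, nat_lit 1513895, nat_lit 1679075, nat_lit 1453514, nat_lit 1717932],
   .t [nat_lit 1344771, nat_lit 1778500, nat_lit 1904171, nat_lit 1380737, nat_lit 1453514, nat_lit 1620681],
   .t [nat_lit 1380737, nat_lit 1873732, nat_lit 1442053, nat_lit 1909513, nat_lit 1934954, nat_lit 1648480, nat_lit 1855282],
   .t [nat_lit 1181857, nat_lit 1475846, nat_lit 1414594, nat_lit 1513895, nat_lit 1908427, nat_lit 1778500],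
   .t [nat_lit 1716069, nat_lit 1742532, nat_lit 1509733, nat_lit 1676962, nat_lit 1938028, nat_lit 1782414],
   .t [nat_lit 1653605, nat_lit 1742532, nat_lit 1706565, nat_lit 1938028, nat_lit 1676962, nat_lit 1782414],
   .t [nat_lit 1413538, nat_lit 1443140, nat_lit 1878888, nat_lit 1935947, nat_lit 1717932, nat_lit 1745700, nat_lit 1643137],
   .t [nat_lit 1381762, nat_lit 1710820, nat_lit 1739270, nat_lit 1652394, nat_lit 1511845, nat_lit 1782414, nat_lit 1819346],
   .t [nat_lit 1379681, nat_lit 1245315, nat_lit 1739270, nat_lit 1413538, nat_lit 1652394, nat_lit 1574464],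
   .t [nat_lit 1448420, nat_lit 1739270, nat_lit 1549739, nat_lit 1717932, nat_lit 1413538, nat_lit 1586825],
   .t [nat_lit 1540514, nat_lit 1448420, nat_lit 1739270, nat_lit 1610400, nat_lit 1586732],
   .t [nat_lit 1379681, nat_lit 1644162, nat_lit 1245315, nat_lit 1574464, nat_lit 1511845, nat_lit 1739270, nat_lit 1453514, nat_lit 1717932],
   .t [nat_lit 1379681, nat_lit 1650530, nat_lit 1278115, nat_lit 1574464, nat_lit 1545607, nat_lit 1870378, nat_lit 1618445, nat_lit 1947439],
   .t [nat_lit 1511845, nat_lit 1545607, nat_lit 1485288, nat_lit 1842890, nat_lit 1712900, nat_lit 1782414],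
   .t [nat_lit 1607264, nat_lit 1181857, nat_lit 1376514, nat_lit 1808007, nat_lit 1842890, nat_lit 1712900, nat_lit 1789681],
   .t [nat_lit 1742532, nat_lit 1946506, nat_lit 1970860, nat_lit 1780581],
   .t [nat_lit 1868328, nat_lit 1778313, nat_lit 1582912, nat_lit 1724082, nat_lit 1820371, nat_lit 1919856, nat_lit 1955639],
   .t [nat_lit 1279170, nat_lit 1681187, nat_lit 1710820, nat_lit 1739457, nat_lit 1872552, nat_lit 1778313, nat_lit 1805927],
   .t [nat_lit 1650530, nat_lit 1705540, nat_lit 1872552, nat_lit 1778313, nat_lit 1943339, nat_lit 1739457],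
   .t [nat_lit 1581824, nat_lit 1621891, nat_lit 1511845, nat_lit 1485288, nat_lit 1971854, nat_lit 1704452, nat_lit 1838634],
   .t [nat_lit 1574464, nat_lit 1379681, nat_lit 1901065, nat_lit 1453514, nat_lit 1549739, nat_lit 1586732, nat_lit 1653263, nat_lit 1617731],
   .t [nat_lit 1215712, nat_lit 1638913, nat_lit 1410371, nat_lit 1711845, nat_lit 1517963, nat_lit 1782414, nat_lit 1819346],
   .t [nat_lit 1379681, nat_lit 1738340, nat_lit 1806982, nat_lit 1350051, nat_lit 1453514, nat_lit 1717932, nat_lit 1686249],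
   .t [nat_lit 1379681, nat_lit 1443140, nat_lit 1511845, nat_lit 1971854, nat_lit 1748867, nat_lit 1717932],
   .t [nat_lit 1477057, nat_lit 1616674, nat_lit 1410371, nat_lit 1871465, nat_lit 1746477, nat_lit 1686187],
   .t [nat_lit 1681187, nat_lit 1739365, nat_lit 1873608, nat_lit 1619625, nat_lit 1318306, nat_lit 1773095],
   .t [nat_lit 1215712, nat_lit 1540514, nat_lit 1739365, nat_lit 1875627, nat_lit 1415651, nat_lit 1685286],
   .t [nat_lit 1213570, nat_lit 1579621, nat_lit 1938182, nat_lit 1837578, nat_lit 1682273],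
   .t [nat_lit 1742532, nat_lit 1771109, nat_lit 1513895, nat_lit 1842827, nat_lit 1717932, nat_lit 1413569, nat_lit 1684230],
   .t [nat_lit 1413569, nat_lit 1250532, nat_lit 1684230, nat_lit 1717932, nat_lit 1511845, nat_lit 1842827, nat_lit 1738340],
   .t [nat_lit 1653634, nat_lit 1705540, nat_lit 1970860, nat_lit 1445313, nat_lit 1739395],
   .t [nat_lit 1279170, nat_lit 1579651, nat_lit 1742532, nat_lit 1588037, nat_lit 1904171, nat_lit 1772039, nat_lit 1413569, nat_lit 1722032],
   .t [nat_lit 1742532, nat_lit 1806982, nat_lit 1907371, nat_lit 1715790, nat_lit 1588037, nat_lit 1788656],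
   .t [nat_lit 1612451, nat_lit 1282245, nat_lit 1873452, nat_lit 1445220, nat_lit 1748775],
   .t [nat_lit 1646306, nat_lit 1739365, nat_lit 1511845, nat_lit 1685286, nat_lit 1776295, nat_lit 1873732, nat_lit 1939022, nat_lit 1924982],
   .t [nat_lit 1742532, nat_lit 1686187, nat_lit 1938028, nat_lit 1782414, nat_lit 1716069],
   .t [nat_lit 1415651, nat_lit 1742532, nat_lit 1707621, nat_lit 1685286, nat_lit 1513895, nat_lit 1785582, nat_lit 1806982, nat_lit 1875627],
   .t [nat_lit 1348000, nat_lit 1583874, nat_lit 1477057, nat_lit 1443140, nat_lit 1901065, nat_lit 1850188],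
   .t [nat_lit 1682273, nat_lit 1642082, nat_lit 1245315, nat_lit 1313088, nat_lit 1544582, nat_lit 1836616, nat_lit 1946383],
   .t [nat_lit 1680161, nat_lit 1738340, nat_lit 1451464, nat_lit 1970860, nat_lit 1883017],
   .t [nat_lit 1682273, nat_lit 1642082, nat_lit 1245315, nat_lit 1313088, nat_lit 1905165, nat_lit 1475846, nat_lit 1950546],
   .t [nat_lit 1673795, nat_lit 1871465, nat_lit 1651338, nat_lit 1717932, nat_lit 1746477, nat_lit 1583874, nat_lit 1853232],
   .t [nat_lit 1443140, nat_lit 1905165, nat_lit 1682273, nat_lit 1717932, nat_lit 1950546, nat_lit 1755795],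
   .t [nat_lit 1376514, nat_lit 1673795, nat_lit 1745700, nat_lit 1871465, nat_lit 1717932, nat_lit 1348000, nat_lit 1651338],
   .t [nat_lit 1838913, nat_lit 1673795, nat_lit 1738340, nat_lit 1651338, nat_lit 1717932, nat_lit 1905165, nat_lit 1583874],
   .t [nat_lit 1577600, nat_lit 1616705, nat_lit 1443140, nat_lit 1901065, nat_lit 1746477, nat_lit 1717932],
   .t [nat_lit 1413507, nat_lit 1279170, nat_lit 1250532, nat_lit 1838913, nat_lit 1903115, nat_lit 1585925],
   .t [nat_lit 1182912, nat_lit 1317281, nat_lit 1644162, nat_lit 1442053, nat_lit 1673795, nat_lit 1738340, nat_lit 1717932],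
   .t [nat_lit 1317281, nat_lit 1738340, nat_lit 1442053, nat_lit 1611456, nat_lit 1806982, nat_lit 1717932, nat_lit 1789681],
   .t [nat_lit 1842049, nat_lit 1742532, nat_lit 1585925, nat_lit 1771014, nat_lit 1970860],
   .t [nat_lit 1317281, nat_lit 1442053, nat_lit 1611456, nat_lit 1771014, nat_lit 1717932, nat_lit 1753745],
   .t [nat_lit 1415651, nat_lit 1542471, nat_lit 1908427, nat_lit 1583874, nat_lit 1707526, nat_lit 1858388],
   .t [nat_lit 1245315, nat_lit 1543526, nat_lit 1449445, nat_lit 1781575, nat_lit 1905196, nat_lit 1611456],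
   .t [nat_lit 1642082, nat_lit 1410371, nat_lit 1509733, nat_lit 1676993, nat_lit 1714764, nat_lit 1782414],
   .t [nat_lit 1653605, nat_lit 1803846, nat_lit 1907310, nat_lit 1676993, nat_lit 1956695],
   .t [nat_lit 1643137, nat_lit 1448420, nat_lit 1781575, nat_lit 1902153, nat_lit 1549739, nat_lit 1744582, nat_lit 1717932],
   .t [nat_lit 1317281, nat_lit 1717932, nat_lit 1771014, nat_lit 1451464, nat_lit 1620681, nat_lit 1753745],
   .t [nat_lit 1675937, nat_lit 1644162, nat_lit 1585925, nat_lit 1836616, nat_lit 1717932, nat_lit 1874541, nat_lit 1739270, nat_lit 1745700],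
   .t [nat_lit 1317281, nat_lit 1644162, nat_lit 1585925, nat_lit 1739270, nat_lit 1717932, nat_lit 1836616],
   .t [nat_lit 1215712, nat_lit 1671713, nat_lit 1711845, nat_lit 1782414, nat_lit 1508739, nat_lit 1820371],
   .t [nat_lit 1574464, nat_lit 1247457, nat_lit 1351107, nat_lit 1409314, nat_lit 1543526, nat_lit 1817295, nat_lit 1788656],
   .t [nat_lit 1742532, nat_lit 1509733, nat_lit 1806982, nat_lit 1972973, nat_lit 1716098, nat_lit 1783470],
   .t [nat_lit 1415651, nat_lit 1509733, nat_lit 1644162, nat_lit 1752813, nat_lit 1707526, nat_lit 1783470, nat_lit 1819346],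
   .t [nat_lit 1838882, nat_lit 1742532, nat_lit 1509733, nat_lit 1413507, nat_lit 1782414, nat_lit 1889045],
   .t [nat_lit 1611456, nat_lit 1711845, nat_lit 1513895, nat_lit 1586732, nat_lit 1802758, nat_lit 1782414],
   .t [nat_lit 1648418, nat_lit 1710820, nat_lit 1739270, nat_lit 1515913, nat_lit 1872552, nat_lit 1782414, nat_lit 1819346],
   .t [nat_lit 1616674, nat_lit 1651338, nat_lit 1586732, nat_lit 1874541, nat_lit 1739270, nat_lit 1724082],
   .t [nat_lit 1607264, nat_lit 1682273, nat_lit 1704452, nat_lit 1513895, nat_lit 1453514, nat_lit 1941227, nat_lit 1806982, nat_lit 1586732],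
   .t [nat_lit 1415651, nat_lit 1802758, nat_lit 1588999, nat_lit 1941227, nat_lit 1838944],
   .t [nat_lit 1679075, nat_lit 1802758, nat_lit 1588999, nat_lit 1940079, nat_lit 1838944],
   .t [nat_lit 1843074, nat_lit 1585925, nat_lit 1808007, nat_lit 1717932, nat_lit 1972973, nat_lit 1739270],
   .t [nat_lit 1614624, nat_lit 1511845, nat_lit 1808007, nat_lit 1451464, nat_lit 1875689, nat_lit 1737252, nat_lit 1717932],
   .t [nat_lit 1621891, nat_lit 1737252, nat_lit 1511845, nat_lit 1805927, nat_lit 1971854, nat_lit 1477088, nat_lit 1646306, nat_lit 1724082],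
   .t [nat_lit 1646306, nat_lit 1740326, nat_lit 1513895, nat_lit 1476995, nat_lit 1782414, nat_lit 1820371, nat_lit 1724082],
   .t [nat_lit 1511845, nat_lit 1808007, nat_lit 1451464, nat_lit 1875689, nat_lit 1745700, nat_lit 1717932],
   .t [nat_lit 1250532, nat_lit 1318306, nat_lit 1444165, nat_lit 1806982, nat_lit 1747688, nat_lit 1717932],
   .t [nat_lit 1682273, nat_lit 1443140, nat_lit 1739365, nat_lit 1808007, nat_lit 1938152, nat_lit 1318306, nat_lit 1717932],
   .t [nat_lit 1443140, nat_lit 1511845, nat_lit 1545607, nat_lit 1875566, nat_lit 1745700, nat_lit 1682273, nat_lit 1816239, nat_lit 1938152],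
   .t [nat_lit 1348000, nat_lit 1213570, nat_lit 1444165, nat_lit 1747688, nat_lit 1671713, nat_lit 1778313, nat_lit 1717932, nat_lit 1820371],
   .t [nat_lit 1318244, nat_lit 1415651, nat_lit 1475846, nat_lit 1675937, nat_lit 1805927, nat_lit 1752813],
   .t [nat_lit 1642082, nat_lit 1344771, nat_lit 1742532, nat_lit 1706565, nat_lit 1675937, nat_lit 1515913, nat_lit 1782414],
   .t [nat_lit 1511845, nat_lit 1676806, nat_lit 1586732, nat_lit 1710820, nat_lit 1782414, nat_lit 1820371],
   .t [nat_lit 1415651, nat_lit 1509733, nat_lit 1720044, nat_lit 1840652, nat_lit 1642082, nat_lit 1684230, nat_lit 1782414, nat_lit 1819346],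
   .t [nat_lit 1279170, nat_lit 1652580, nat_lit 1706565, nat_lit 1939207, nat_lit 1317281, nat_lit 1839752],
   .t [nat_lit 1345888, nat_lit 1279170, nat_lit 1868328, nat_lit 1618569, nat_lit 1317281, nat_lit 1715975, nat_lit 1717932, nat_lit 1857332],
   .t [nat_lit 1707744, nat_lit 1344771, nat_lit 1671713, nat_lit 1618569, nat_lit 1811052],
   .t [nat_lit 1213570, nat_lit 1509733, nat_lit 1744582, nat_lit 1715975, nat_lit 1675937, nat_lit 1841772, nat_lit 1782414],
   .t [nat_lit 1445344, nat_lit 1279170, nat_lit 1671713, nat_lit 1841772, nat_lit 1608195, nat_lit 1588999],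
   .t [nat_lit 1650530, nat_lit 1706565, nat_lit 1517963, nat_lit 1971854, nat_lit 1946506],
   .t [nat_lit 1648387, nat_lit 1859474, nat_lit 1707744, nat_lit 1966729],
   .t [nat_lit 1574464, nat_lit 1247457, nat_lit 1648387, nat_lit 1409314, nat_lit 1842703, nat_lit 1543526],
   .t [nat_lit 1279170, nat_lit 1935947, nat_lit 1453514, nat_lit 1513895, nat_lit 1682273, nat_lit 1717932, nat_lit 1755795],
   .t [nat_lit 1414594, nat_lit 1513895, nat_lit 1717932, nat_lit 1941227, nat_lit 1706565, nat_lit 1815183, nat_lit 1687398, nat_lit 1755795],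
   .t [nat_lit 1215712, nat_lit 1409314, nat_lit 1706565, nat_lit 1908427, nat_lit 1782414, nat_lit 1648387, nat_lit 1850188],
   .t [nat_lit 1582912, nat_lit 1711845, nat_lit 1510695, nat_lit 1840652, nat_lit 1934083, nat_lit 1782414, nat_lit 1924982],
   .t [nat_lit 1580738, nat_lit 1706565, nat_lit 1814375, nat_lit 1517963, nat_lit 1906190, nat_lit 1946383, nat_lit 1654506, nat_lit 1858388],
   .t [nat_lit 1376514, nat_lit 1742532, nat_lit 1706565, nat_lit 1577600, nat_lit 1717932, nat_lit 1548714, nat_lit 1782414, nat_lit 1653263],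
   .t [nat_lit 1579682, nat_lit 1752813, nat_lit 1653263, nat_lit 1477057, nat_lit 1803846],
   .t [nat_lit 1739457, nat_lit 1381762, nat_lit 1705540, nat_lit 1652394, nat_lit 1511845, nat_lit 1782414],
   .t [nat_lit 1579713, nat_lit 1544582, nat_lit 1705540, nat_lit 1782414, nat_lit 1653263],
   .t [nat_lit 1579682, nat_lit 1706565, nat_lit 1544582, nat_lit 1742532, nat_lit 1782414, nat_lit 1653263],
   .t [nat_lit 1576482, nat_lit 1245315, nat_lit 1706565, nat_lit 1544582, nat_lit 1611456, nat_lit 1782414, nat_lit 1653263],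
   .t [nat_lit 1675937, nat_lit 1742532, nat_lit 1711845, nat_lit 1805927, nat_lit 1508739, nat_lit 1782414],
   .t [nat_lit 1316224, nat_lit 1868328, nat_lit 1513895, nat_lit 1785582, nat_lit 1449445, nat_lit 1685286, nat_lit 1820371],
   .t [nat_lit 1742532, nat_lit 1509733, nat_lit 1544582, nat_lit 1841834, nat_lit 1383906, nat_lit 1781575, nat_lit 1913614],
   .t [nat_lit 1182912, nat_lit 1317281, nat_lit 1617731, nat_lit 1508708, nat_lit 1901065, nat_lit 1451464, nat_lit 1717932, nat_lit 1753745],
   .t [nat_lit 1878888, nat_lit 1651338, nat_lit 1935947, nat_lit 1717932, nat_lit 1413538, nat_lit 1745700],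
   .t [nat_lit 1318306, nat_lit 1442053, nat_lit 1611456, nat_lit 1772039, nat_lit 1717932, nat_lit 1753745],
   .t [nat_lit 1772039, nat_lit 1717932, nat_lit 1318306, nat_lit 1451464, nat_lit 1620681, nat_lit 1753745],
   .t [nat_lit 1582912, nat_lit 1739365, nat_lit 1939207, nat_lit 1619625, nat_lit 1318306, nat_lit 1835528, nat_lit 1920881],
   .t [nat_lit 1414594, nat_lit 1618725, nat_lit 1542471, nat_lit 1485288, nat_lit 1515913, nat_lit 1908427, nat_lit 1746477, nat_lit 1891157],
   .t [nat_lit 1580738, nat_lit 1476871, nat_lit 1515913, nat_lit 1906190, nat_lit 1618725, nat_lit 1746477, nat_lit 1891157],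
   .t [nat_lit 1215712, nat_lit 1934145, nat_lit 1738340, nat_lit 1586981, nat_lit 1511845, nat_lit 1679075, nat_lit 1906190, nat_lit 1892213],
   .t [nat_lit 1279170, nat_lit 1742532, nat_lit 1442053, nat_lit 1772039, nat_lit 1717932, nat_lit 1317281, nat_lit 1577600],
   .t [nat_lit 1348000, nat_lit 1314081, nat_lit 1443140, nat_lit 1868328, nat_lit 1911563, nat_lit 1617731, nat_lit 1717932, nat_lit 1857332],
   .t [nat_lit 1349056, nat_lit 1584962, nat_lit 1802883, nat_lit 1904171, nat_lit 1706565, nat_lit 1653263, nat_lit 1621737],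
   .t [nat_lit 1711845, nat_lit 1510695, nat_lit 1971854, nat_lit 1812355],
   .t [nat_lit 1651338, nat_lit 1966636, nat_lit 1616736, nat_lit 1954706],
   .t [nat_lit 1381762, nat_lit 1445220, nat_lit 1511845, nat_lit 1847114, nat_lit 1608195, nat_lit 1914670, nat_lit 1884945],
   .t [nat_lit 1379681, nat_lit 1409314, nat_lit 1608195, nat_lit 1443140, nat_lit 1577600, nat_lit 1713708],
   .t [nat_lit 1318368, nat_lit 1409314, nat_lit 1543526, nat_lit 1451464, nat_lit 1608195, nat_lit 1513895, nat_lit 1586732],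
   .t [nat_lit 1345888, nat_lit 1314081, nat_lit 1507621, nat_lit 1713708, nat_lit 1836616, nat_lit 1617731, nat_lit 1913614, nat_lit 1644162],
   .t [nat_lit 1383906, nat_lit 1608195, nat_lit 1474852, nat_lit 1543526, nat_lit 1577600, nat_lit 1453514, nat_lit 1713708, nat_lit 1513895],
   .t [nat_lit 1612451, nat_lit 1745700, nat_lit 1511845, nat_lit 1475846, nat_lit 1873452, nat_lit 1782414, nat_lit 1707713],
   .t [nat_lit 1771170, nat_lit 1613507, nat_lit 1745700, nat_lit 1511845, nat_lit 1542471, nat_lit 1485288, nat_lit 1445313, nat_lit 1873452],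
   .t [nat_lit 1215712, nat_lit 1580738, nat_lit 1704452, nat_lit 1511845, nat_lit 1652332, nat_lit 1673795, nat_lit 1782414],
   .t [nat_lit 1477057, nat_lit 1676962, nat_lit 1507621, nat_lit 1607264, nat_lit 1746477],
   .t [nat_lit 1313088, nat_lit 1540483, nat_lit 1879913, nat_lit 1576482, nat_lit 1911563, nat_lit 1451464, nat_lit 1948495, nat_lit 1853232],
   .t [nat_lit 1247457, nat_lit 1344771, nat_lit 1449445, nat_lit 1576482, nat_lit 1840652, nat_lit 1811206, nat_lit 1621737],
   .t [nat_lit 1247457, nat_lit 1576482, nat_lit 1278115, nat_lit 1607264, nat_lit 1840652, nat_lit 1684230],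
   .t [nat_lit 1415651, nat_lit 1442053, nat_lit 1811206, nat_lit 1545607, nat_lit 1842827, nat_lit 1707744],
   .t [nat_lit 1682273, nat_lit 1444165, nat_lit 1971854, nat_lit 1508770, nat_lit 1717932, nat_lit 1955731],
   .t [nat_lit 1638913, nat_lit 1588037, nat_lit 1934954, nat_lit 1714764, nat_lit 1782414, nat_lit 1611456, nat_lit 1920881],
   .t [nat_lit 1379681, nat_lit 1282245, nat_lit 1873452, nat_lit 1453514, nat_lit 1513895, nat_lit 1738340, nat_lit 1612451, nat_lit 1685286],
   .t [nat_lit 1675937, nat_lit 1588037, nat_lit 1902122, nat_lit 1780302, nat_lit 1742532, nat_lit 1656432],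
   .t [nat_lit 1607264, nat_lit 1645281, nat_lit 1684230, nat_lit 1545607, nat_lit 1842766, nat_lit 1770021, nat_lit 1817295],
   .t [nat_lit 1676931, nat_lit 1745700, nat_lit 1511845, nat_lit 1875566, nat_lit 1717932, nat_lit 1445127],
   .t [nat_lit 1415651, nat_lit 1443140, nat_lit 1805927, nat_lit 1675937, nat_lit 1517963, nat_lit 1720044, nat_lit 1744582, nat_lit 1782414],
   .t [nat_lit 1350051, nat_lit 1745700, nat_lit 1806982, nat_lit 1875689, nat_lit 1445127, nat_lit 1717932],
   .t [nat_lit 1350051, nat_lit 1442053, nat_lit 1744582, nat_lit 1808007, nat_lit 1838665, nat_lit 1581824, nat_lit 1717932, nat_lit 1788656],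
   .t [nat_lit 1614624, nat_lit 1802883, nat_lit 1443140, nat_lit 1871465, nat_lit 1713708, nat_lit 1682273, nat_lit 1938152],
   .t [nat_lit 1802883, nat_lit 1684200, nat_lit 1871465, nat_lit 1713708, nat_lit 1614624],
   .t [nat_lit 1380737, nat_lit 1580738, nat_lit 1513895, nat_lit 1738340, nat_lit 1870378, nat_lit 1782414, nat_lit 1685286, nat_lit 1722032],
   .t [nat_lit 1576482, nat_lit 1351107, nat_lit 1747688, nat_lit 1542471, nat_lit 1517963, nat_lit 1417545, nat_lit 1815183, nat_lit 1722032],
   .t [nat_lit 1580738, nat_lit 1507621, nat_lit 1545607, nat_lit 1837578, nat_lit 1648480, nat_lit 1813071, nat_lit 1782414, nat_lit 1954583],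
   .t [nat_lit 1574464, nat_lit 1181857, nat_lit 1933866, nat_lit 1742532, nat_lit 1517963, nat_lit 1650530, nat_lit 1618445, nat_lit 1783470],
   .t [nat_lit 1611456, nat_lit 1711845, nat_lit 1814375, nat_lit 1517963, nat_lit 1933866, nat_lit 1782414],
   .t [nat_lit 1345888, nat_lit 1814375, nat_lit 1933866, nat_lit 1381762, nat_lit 1711845, nat_lit 1618569],
   .t [nat_lit 1676962, nat_lit 1507621, nat_lit 1477088, nat_lit 1746477, nat_lit 1785582, nat_lit 1820371],
   .t [nat_lit 1802914, nat_lit 1742532, nat_lit 1509733, nat_lit 1413600, nat_lit 1785582],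
   .t [nat_lit 1477088, nat_lit 1278115, nat_lit 1543526, nat_lit 1748775, nat_lit 1873421, nat_lit 1579682],
   .t [nat_lit 1379681, nat_lit 1738340, nat_lit 1905289, nat_lit 1681187, nat_lit 1882957, nat_lit 1453514, nat_lit 1717932],
   .t [nat_lit 1445282, nat_lit 1344771, nat_lit 1480132, nat_lit 1706565, nat_lit 1905289, nat_lit 1647361, nat_lit 1850188],
   .t [nat_lit 1182912, nat_lit 1868328, nat_lit 1710820, nat_lit 1515913, nat_lit 1681187, nat_lit 1782414, nat_lit 1820371],
   .t [nat_lit 1316224, nat_lit 1510695, nat_lit 1711845, nat_lit 1868328, nat_lit 1782414, nat_lit 1681187, nat_lit 1820371],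
   .t [nat_lit 1379681, nat_lit 1245315, nat_lit 1870378, nat_lit 1413538, nat_lit 1574464, nat_lit 1685286, nat_lit 1656432],
   .t [nat_lit 1379681, nat_lit 1245315, nat_lit 1870378, nat_lit 1413538, nat_lit 1607264, nat_lit 1685286],
   .t [nat_lit 1643137, nat_lit 1673795, nat_lit 1745700, nat_lit 1477926, nat_lit 1451464, nat_lit 1874541, nat_lit 1508770, nat_lit 1717932],
   .t [nat_lit 1247457, nat_lit 1344771, nat_lit 1642082, nat_lit 1744582, nat_lit 1515913, nat_lit 1782414, nat_lit 1724082],
   .t [nat_lit 1737252, nat_lit 1541446, nat_lit 1710820, nat_lit 1517963, nat_lit 1413600, nat_lit 1675937, nat_lit 1782414, nat_lit 1820371],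
   .t [nat_lit 1250532, nat_lit 1839752, nat_lit 1449445, nat_lit 1909513, nat_lit 1543526, nat_lit 1746477, nat_lit 1717932, nat_lit 1617731],
   .t [nat_lit 1586981, nat_lit 1511845, nat_lit 1676806, nat_lit 1710820, nat_lit 1971854, nat_lit 1892243],
   .t [nat_lit 1213570, nat_lit 1673795, nat_lit 1871465, nat_lit 1845064, nat_lit 1905445, nat_lit 1647361],
   .t [nat_lit 1349056, nat_lit 1673795, nat_lit 1508770, nat_lit 1871465, nat_lit 1586981, nat_lit 1638913],
   .t [nat_lit 1643137, nat_lit 1474852, nat_lit 1607264, nat_lit 1713708, nat_lit 1684045],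
   .t [nat_lit 1182912, nat_lit 1870657, nat_lit 1579682, nat_lit 1344771, nat_lit 1901065, nat_lit 1745700],
   .t [nat_lit 1379681, nat_lit 1508770, nat_lit 1444165, nat_lit 1586732, nat_lit 1617731, nat_lit 1906190],
   .t [nat_lit 1616705, nat_lit 1444165, nat_lit 1586732, nat_lit 1508770, nat_lit 1906190],
   .t [nat_lit 1681187, nat_lit 1710820, nat_lit 1740326, nat_lit 1515913, nat_lit 1872552, nat_lit 1782414, nat_lit 1820371],
   .t [nat_lit 1182912, nat_lit 1638913, nat_lit 1410371, nat_lit 1710820, nat_lit 1517963, nat_lit 1782414, nat_lit 1819346],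
   .t [nat_lit 1215712, nat_lit 1966636, nat_lit 1449445, nat_lit 1621891],
   .t [nat_lit 1448420, nat_lit 1543526, nat_lit 1970860, nat_lit 1748867],
   .t [nat_lit 1379681, nat_lit 1443140, nat_lit 1511845, nat_lit 1808007, nat_lit 1619625, nat_lit 1351107, nat_lit 1748713, nat_lit 1713708],
   .t [nat_lit 1644162, nat_lit 1585925, nat_lit 1513895, nat_lit 1717932, nat_lit 1842766, nat_lit 1739270],
   .t [nat_lit 1247457, nat_lit 1508739, nat_lit 1707526, nat_lit 1908427, nat_lit 1414594, nat_lit 1585925, nat_lit 1858388],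
   .t [nat_lit 1644162, nat_lit 1711845, nat_lit 1740326, nat_lit 1513895, nat_lit 1476995, nat_lit 1782414, nat_lit 1820371, nat_lit 1724082],
   .t [nat_lit 1653634, nat_lit 1972973, nat_lit 1783470, nat_lit 1739270, nat_lit 1819346],
   .t [nat_lit 1415651, nat_lit 1588037, nat_lit 1707526, nat_lit 1916811, nat_lit 1971854],
   .t [nat_lit 1213570, nat_lit 1476995, nat_lit 1740326, nat_lit 1449445, nat_lit 1513895, nat_lit 1675937, nat_lit 1785582, nat_lit 1820371],
   .t [nat_lit 1414594, nat_lit 1739270, nat_lit 1513895, nat_lit 1908427, nat_lit 1586981, nat_lit 1891157],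
   .t [nat_lit 1316224, nat_lit 1675937, nat_lit 1737252, nat_lit 1475846, nat_lit 1513895, nat_lit 1711845, nat_lit 1782414, nat_lit 1820371],
   .t [nat_lit 1415651, nat_lit 1742532, nat_lit 1509733, nat_lit 1970860, nat_lit 1642082, nat_lit 1782414, nat_lit 1752966, nat_lit 1724082],
   .t [nat_lit 1182912, nat_lit 1213570, nat_lit 1673795, nat_lit 1442053, nat_lit 1317281, nat_lit 1717932, nat_lit 1755795],
   .t [nat_lit 1316224, nat_lit 1638913, nat_lit 1710820, nat_lit 1475846, nat_lit 1511845, nat_lit 1782414, nat_lit 1819346],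
   .t [nat_lit 1742532, nat_lit 1213570, nat_lit 1706565, nat_lit 1653605, nat_lit 1782414, nat_lit 1675937, nat_lit 1938028],
   .t [nat_lit 1652609, nat_lit 1742532, nat_lit 1706565, nat_lit 1970860, nat_lit 1508770, nat_lit 1782414],
   .t [nat_lit 1650530, nat_lit 1742532, nat_lit 1706565, nat_lit 1517963, nat_lit 1938090, nat_lit 1782414],
   .t [nat_lit 1742532, nat_lit 1509733, nat_lit 1938090, nat_lit 1383906, nat_lit 1814375, nat_lit 1785582],
   .t [nat_lit 1376514, nat_lit 1608195, nat_lit 1449445, nat_lit 1805927, nat_lit 1873452, nat_lit 1581824, nat_lit 1654506, nat_lit 1855282],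
   .t [nat_lit 1445344, nat_lit 1583874, nat_lit 1608195, nat_lit 1738340, nat_lit 1548714, nat_lit 1839752, nat_lit 1671713, nat_lit 1717932],
   .t [nat_lit 1317281, nat_lit 1738340, nat_lit 1717932, nat_lit 1806982, nat_lit 1451464, nat_lit 1620681, nat_lit 1789681],
   .t [nat_lit 1317281, nat_lit 1742532, nat_lit 1585925, nat_lit 1771014, nat_lit 1970860, nat_lit 1849224],
   .t [nat_lit 1316224, nat_lit 1642082, nat_lit 1681187, nat_lit 1883017, nat_lit 1966792, nat_lit 1782414, nat_lit 1706565],
   .t [nat_lit 1744582, nat_lit 1814375, nat_lit 1517963, nat_lit 1940079, nat_lit 1782414, nat_lit 1654506, nat_lit 1724082],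
   .t [nat_lit 1351107, nat_lit 1710820, nat_lit 1543526, nat_lit 1778313, nat_lit 1814375, nat_lit 1817295, nat_lit 1938152],
   .t [nat_lit 1510695, nat_lit 1941227, nat_lit 1453514, nat_lit 1681187, nat_lit 1884013, nat_lit 1813071, nat_lit 1717932, nat_lit 1755795],
   .t [nat_lit 1313088, nat_lit 1802883, nat_lit 1510695, nat_lit 1580738, nat_lit 1451464, nat_lit 1653263, nat_lit 1714764, nat_lit 1785582],
   .t [nat_lit 1477088, nat_lit 1279170, nat_lit 1966729, nat_lit 1451464, nat_lit 1513895, nat_lit 1548714, nat_lit 1747841, nat_lit 1717932],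
   .t [nat_lit 1543526, nat_lit 1513895, nat_lit 1453514, nat_lit 1679075, nat_lit 1813071, nat_lit 1717932, nat_lit 1755795],
   .t [nat_lit 1588037, nat_lit 1544582, nat_lit 1907371, nat_lit 1715727, nat_lit 1782414, nat_lit 1742532],
   .t [nat_lit 1611456, nat_lit 1511845, nat_lit 1802758, nat_lit 1448420, nat_lit 1717932, nat_lit 1785582, nat_lit 1753745],
   .t [nat_lit 1781575, nat_lit 1508739, nat_lit 1737252, nat_lit 1449445, nat_lit 1543526, nat_lit 1907310, nat_lit 1611456, nat_lit 1675937],
   .t [nat_lit 1413600, nat_lit 1213570, nat_lit 1638913, nat_lit 1935947, nat_lit 1589093],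
   .t [nat_lit 1317281, nat_lit 1717932, nat_lit 1803846, nat_lit 1451464, nat_lit 1788656, nat_lit 1620681, nat_lit 1753745],
   .t [nat_lit 1445313, nat_lit 1245315, nat_lit 1574464, nat_lit 1511845, nat_lit 1808007, nat_lit 1744582, nat_lit 1717932, nat_lit 1788656],
   .t [nat_lit 1579651, nat_lit 1938182, nat_lit 1879913, nat_lit 1445220, nat_lit 1746477, nat_lit 1853232, nat_lit 1717932],
   .t [nat_lit 1317281, nat_lit 1617731, nat_lit 1508708, nat_lit 1839752, nat_lit 1717932, nat_lit 1740326, nat_lit 1913614],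
   .t [nat_lit 1349056, nat_lit 1737252, nat_lit 1513895, nat_lit 1543526, nat_lit 1711845, nat_lit 1905289, nat_lit 1816239, nat_lit 1617731],
   .t [nat_lit 1448420, nat_lit 1744582, nat_lit 1542471, nat_lit 1970860, nat_lit 1517963, nat_lit 1716098, nat_lit 1782414],
   .t [nat_lit 1542471, nat_lit 1486313, nat_lit 1580738, nat_lit 1517963, nat_lit 1746477, nat_lit 1782414, nat_lit 1722032],
   .t [nat_lit 1415651, nat_lit 1744582, nat_lit 1542471, nat_lit 1642082, nat_lit 1780363, nat_lit 1724082],
   .t [nat_lit 1182912, nat_lit 1409314, nat_lit 1739395, nat_lit 1448420, nat_lit 1713708, nat_lit 1621675],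
   .t [nat_lit 1345888, nat_lit 1617731, nat_lit 1507621, nat_lit 1873452, nat_lit 1838882, nat_lit 1913614],
   .t [nat_lit 1650530, nat_lit 1742532, nat_lit 1706565, nat_lit 1515913, nat_lit 1943339, nat_lit 1839752, nat_lit 1782414, nat_lit 1889045],
   .t [nat_lit 1612451, nat_lit 1686342, nat_lit 1873452, nat_lit 1782414, nat_lit 1707621, nat_lit 1922870],
   .t [nat_lit 1348000, nat_lit 1379681, nat_lit 1443140, nat_lit 1507621, nat_lit 1808007, nat_lit 1351107, nat_lit 1748713, nat_lit 1717932],
   .t [nat_lit 1182912, nat_lit 1508770, nat_lit 1673795, nat_lit 1448420, nat_lit 1621614, nat_lit 1586732, nat_lit 1638913],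
   .t [nat_lit 1739365, nat_lit 1619625, nat_lit 1873421, nat_lit 1582912, nat_lit 1920881, nat_lit 1934114],
   .t [nat_lit 1616674, nat_lit 1739365, nat_lit 1548714, nat_lit 1873608, nat_lit 1783470, nat_lit 1686063],
   .t [nat_lit 1588037, nat_lit 1808007, nat_lit 1486313, nat_lit 1779246, nat_lit 1908427, nat_lit 1752813, nat_lit 1722032],
   .t [nat_lit 1415651, nat_lit 1282245, nat_lit 1971854, nat_lit 1845064, nat_lit 1510695, nat_lit 1712900, nat_lit 1916811],
   .t [nat_lit 1348000, nat_lit 1545607, nat_lit 1835528, nat_lit 1908427, nat_lit 1712900, nat_lit 1782414, nat_lit 1486313, nat_lit 1588037],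
   .t [nat_lit 1313088, nat_lit 1213570, nat_lit 1770021, nat_lit 1675937, nat_lit 1485288, nat_lit 1752813, nat_lit 1820371],
   .t [nat_lit 1379681, nat_lit 1245315, nat_lit 1607264, nat_lit 1282245, nat_lit 1873452, nat_lit 1453514, nat_lit 1686311],
   .t [nat_lit 1278115, nat_lit 1445220, nat_lit 1610400, nat_lit 1873452, nat_lit 1748775],
   .t [nat_lit 1574464, nat_lit 1181857, nat_lit 1278115, nat_lit 1742532, nat_lit 1642082, nat_lit 1789681, nat_lit 1808007, nat_lit 1722032],
   .t [nat_lit 1409314, nat_lit 1742532, nat_lit 1449445, nat_lit 1543526, nat_lit 1772039, nat_lit 1577600, nat_lit 1713708, nat_lit 1612451],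
   .t [nat_lit 1607264, nat_lit 1379681, nat_lit 1474852, nat_lit 1806982, nat_lit 1415651, nat_lit 1713708, nat_lit 1684138, nat_lit 1752813],
   .t [nat_lit 1379681, nat_lit 1409314, nat_lit 1444165, nat_lit 1611456, nat_lit 1713708, nat_lit 1771139],
   .t [nat_lit 1742532, nat_lit 1621675, nat_lit 1814375, nat_lit 1905196, nat_lit 1782414, nat_lit 1711845, nat_lit 1948495],
   .t [nat_lit 1681187, nat_lit 1742532, nat_lit 1711845, nat_lit 1805927, nat_lit 1515913, nat_lit 1872552, nat_lit 1782414],
   .t [nat_lit 1351107, nat_lit 1385832, nat_lit 1838634, nat_lit 1515913, nat_lit 1715975, nat_lit 1618569],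
   .t [nat_lit 1613507, nat_lit 1817479, nat_lit 1868328, nat_lit 1975084, nat_lit 1782414, nat_lit 1707744],
   .t [nat_lit 1279170, nat_lit 1608195, nat_lit 1868328, nat_lit 1445344, nat_lit 1317281, nat_lit 1588999, nat_lit 1717932, nat_lit 1857332],
   .t [nat_lit 1618569, nat_lit 1681187, nat_lit 1868328, nat_lit 1445344, nat_lit 1720044, nat_lit 1811052],
   .t [nat_lit 1445344, nat_lit 1344771, nat_lit 1671713, nat_lit 1618569, nat_lit 1548714, nat_lit 1747564, nat_lit 1717932],
   .t [nat_lit 1802853, nat_lit 1654506, nat_lit 1840652, nat_lit 1946383, nat_lit 1616736, nat_lit 1884945, nat_lit 1855282],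
   .t [nat_lit 1317281, nat_lit 1738340, nat_lit 1717932, nat_lit 1839752, nat_lit 1946383, nat_lit 1687398],
   .t [nat_lit 1934083, nat_lit 1687398, nat_lit 1874541, nat_lit 1445344, nat_lit 1717932, nat_lit 1857332],
   .t [nat_lit 1618569, nat_lit 1576482, nat_lit 1410371, nat_lit 1706565, nat_lit 1648449, nat_lit 1517963, nat_lit 1906190],
   .t [nat_lit 1583874, nat_lit 1608195, nat_lit 1868328, nat_lit 1548714, nat_lit 1445344, nat_lit 1717932, nat_lit 1857332],
   .t [nat_lit 1737252, nat_lit 1839752, nat_lit 1548714, nat_lit 1911563, nat_lit 1717932, nat_lit 1445344, nat_lit 1617731],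
   .t [nat_lit 1213570, nat_lit 1608195, nat_lit 1314081, nat_lit 1511845, nat_lit 1451464, nat_lit 1717932, nat_lit 1753745],
   .t [nat_lit 1617731, nat_lit 1513895, nat_lit 1941227, nat_lit 1740326, nat_lit 1816239, nat_lit 1916782],
   .t [nat_lit 1345888, nat_lit 1213570, nat_lit 1671713, nat_lit 1618569, nat_lit 1716069, nat_lit 1938028],
   .t [nat_lit 1677024, nat_lit 1540483, nat_lit 1585925, nat_lit 1746477, nat_lit 1816239, nat_lit 1656432, nat_lit 1838665],
   .t [nat_lit 1713988, nat_lit 1838665, nat_lit 1651338, nat_lit 1413507, nat_lit 1911563],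
   .t [nat_lit 1448420, nat_lit 1282245, nat_lit 1742532, nat_lit 1872552, nat_lit 1515913, nat_lit 1549739, nat_lit 1781575, nat_lit 1914670],
   .t [nat_lit 1742532, nat_lit 1781575, nat_lit 1905289, nat_lit 1812139, nat_lit 1711845],
   .t [nat_lit 1348000, nat_lit 1585925, nat_lit 1868328, nat_lit 1515913, nat_lit 1742532, nat_lit 1914670, nat_lit 1722032, nat_lit 1858388],
   .t [nat_lit 1509733, nat_lit 1814375, nat_lit 1644162, nat_lit 1973998, nat_lit 1954706],
   .t [nat_lit 1250532, nat_lit 1511845, nat_lit 1453514, nat_lit 1941227, nat_lit 1813071, nat_lit 1717932, nat_lit 1687398, nat_lit 1755795],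
   .t [nat_lit 1182912, nat_lit 1704452, nat_lit 1588999, nat_lit 1940079, nat_lit 1679075, nat_lit 1859444],
   .t [nat_lit 1901065, nat_lit 1588875, nat_lit 1713708, nat_lit 1445344, nat_lit 1617731],
   .t [nat_lit 1642082, nat_lit 1686403, nat_lit 1511845, nat_lit 1717932, nat_lit 1705540, nat_lit 1971854, nat_lit 1782414, nat_lit 1739457],
   .t [nat_lit 1653605, nat_lit 1811052, nat_lit 1782414, nat_lit 1873608, nat_lit 1855282, nat_lit 1954583],
   .t [nat_lit 1742532, nat_lit 1507621, nat_lit 1938028, nat_lit 1648480, nat_lit 1782414, nat_lit 1724082],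
   .t [nat_lit 1676993, nat_lit 1704452, nat_lit 1588037, nat_lit 1938028, nat_lit 1782414, nat_lit 1902432],
   .t [nat_lit 1739488, nat_lit 1279170, nat_lit 1442053, nat_lit 1545607, nat_lit 1317281, nat_lit 1816239],
   .t [nat_lit 1442053, nat_lit 1677024, nat_lit 1548714, nat_lit 1813071, nat_lit 1717932, nat_lit 1755795],
   .t [nat_lit 1771232, nat_lit 1317281, nat_lit 1742532, nat_lit 1442053, nat_lit 1806982, nat_lit 1717932],
   .t [nat_lit 1739488, nat_lit 1383906, nat_lit 1540452, nat_lit 1511845, nat_lit 1453514, nat_lit 1808007, nat_lit 1717932],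
   .t [nat_lit 1316224, nat_lit 1642082, nat_lit 1278115, nat_lit 1706565, nat_lit 1782414, nat_lit 1686311, nat_lit 1873608],
   .t [nat_lit 1739457, nat_lit 1642082, nat_lit 1350051, nat_lit 1902153, nat_lit 1806982, nat_lit 1684324, nat_lit 1717932, nat_lit 1956695],
   .t [nat_lit 1215712, nat_lit 1648387, nat_lit 1859474, nat_lit 1711845, nat_lit 1966729],
   .t [nat_lit 1707682, nat_lit 1351107, nat_lit 1747812, nat_lit 1542471, nat_lit 1905289, nat_lit 1817295, nat_lit 1956695],
   .t [nat_lit 1811300, nat_lit 1442053, nat_lit 1611456, nat_lit 1904171, nat_lit 1413507, nat_lit 1956695],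
   .t [nat_lit 1181857, nat_lit 1344771, nat_lit 1576482, nat_lit 1840652, nat_lit 1712900, nat_lit 1618569],
   .t [nat_lit 1348000, nat_lit 1247457, nat_lit 1318275, nat_lit 1738340, nat_lit 1442053, nat_lit 1707682, nat_lit 1873545, nat_lit 1685286],
   .t [nat_lit 1348000, nat_lit 1213570, nat_lit 1739395, nat_lit 1838665, nat_lit 1717932, nat_lit 1638913, nat_lit 1585925],
   .t [nat_lit 1376514, nat_lit 1585925, nat_lit 1345888, nat_lit 1413507, nat_lit 1838665, nat_lit 1811114, nat_lit 1742532, nat_lit 1788656],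
   .t [nat_lit 1348000, nat_lit 1802883, nat_lit 1585925, nat_lit 1717932, nat_lit 1838665, nat_lit 1742532, nat_lit 1788656],
   .t [nat_lit 1574464, nat_lit 1317281, nat_lit 1802883, nat_lit 1442053, nat_lit 1611456, nat_lit 1740326, nat_lit 1717932, nat_lit 1788656],
   .t [nat_lit 1710820, nat_lit 1744582, nat_lit 1805927, nat_lit 1872552, nat_lit 1778313, nat_lit 1681187],
   .t [nat_lit 1279170, nat_lit 1742532, nat_lit 1585925, nat_lit 1772039, nat_lit 1842049, nat_lit 1970860],
   .t [nat_lit 1348000, nat_lit 1379681, nat_lit 1705540, nat_lit 1901065, nat_lit 1617731, nat_lit 1652394, nat_lit 1753745],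
   .t [nat_lit 1611456, nat_lit 1383906, nat_lit 1737252, nat_lit 1585925, nat_lit 1772039, nat_lit 1851274, nat_lit 1970860],
   .t [nat_lit 1383906, nat_lit 1742532, nat_lit 1585925, nat_lit 1772039, nat_lit 1851274, nat_lit 1970860],
   .t [nat_lit 1710820, nat_lit 1905196, nat_lit 1782414, nat_lit 1686342, nat_lit 1820371],
   .t [nat_lit 1247457, nat_lit 1508739, nat_lit 1576482, nat_lit 1618569, nat_lit 1351107, nat_lit 1707526],
   .t [nat_lit 1415651, nat_lit 1588037, nat_lit 1808007, nat_lit 1785582, nat_lit 1707526, nat_lit 1908427],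
   .t [nat_lit 1875782, nat_lit 1939207, nat_lit 1920881, nat_lit 1579621, nat_lit 1853232],
   .t [nat_lit 1345888, nat_lit 1415651, nat_lit 1507621, nat_lit 1744582, nat_lit 1545607, nat_lit 1576482, nat_lit 1782414, nat_lit 1722032],
   .t [nat_lit 1345888, nat_lit 1213570, nat_lit 1802883, nat_lit 1314081, nat_lit 1453514, nat_lit 1511845, nat_lit 1485288, nat_lit 1720044],
   .t [nat_lit 1511845, nat_lit 1485288, nat_lit 1840652, nat_lit 1782414, nat_lit 1712900, nat_lit 1588938],
   .t [nat_lit 1381762, nat_lit 1617731, nat_lit 1509733, nat_lit 1838634, nat_lit 1782414, nat_lit 1954583, nat_lit 1924982],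
   .t [nat_lit 1842020, nat_lit 1541446, nat_lit 1413600, nat_lit 1517963, nat_lit 1638913, nat_lit 1913614, nat_lit 1950546],
   .t [nat_lit 1704452, nat_lit 1588037, nat_lit 1808007, nat_lit 1785582, nat_lit 1413600, nat_lit 1908427],
   .t [nat_lit 1511845, nat_lit 1685286, nat_lit 1873608, nat_lit 1811052, nat_lit 1782414, nat_lit 1710820],
   .t [nat_lit 1612451, nat_lit 1742532, nat_lit 1686342, nat_lit 1905289, nat_lit 1779246, nat_lit 1707621],
   .t [nat_lit 1613507, nat_lit 1250532, nat_lit 1872552, nat_lit 1707621, nat_lit 1515913, nat_lit 1746477, nat_lit 1782414, nat_lit 1685286],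
   .t [nat_lit 1182912, nat_lit 1586981, nat_lit 1704452, nat_lit 1874541, nat_lit 1971854, nat_lit 1686403],
   .t [nat_lit 1577600, nat_lit 1250532, nat_lit 1707621, nat_lit 1920881, nat_lit 1875782, nat_lit 1853232, nat_lit 1934083],
   .t [nat_lit 1677024, nat_lit 1540545, nat_lit 1511845, nat_lit 1803846, nat_lit 1448420, nat_lit 1717932, nat_lit 1755795],
   .t [nat_lit 1704452, nat_lit 1588037, nat_lit 1808007, nat_lit 1905352, nat_lit 1771232, nat_lit 1318337],
   .t [nat_lit 1443140, nat_lit 1814375, nat_lit 1938152, nat_lit 1317281, nat_lit 1517963, nat_lit 1744582, nat_lit 1782414, nat_lit 1717932],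
   .t [nat_lit 1344771, nat_lit 1778500, nat_lit 1510695, nat_lit 1908427, nat_lit 1380737, nat_lit 1453514],
   .t [nat_lit 1611456, nat_lit 1704452, nat_lit 1585925, nat_lit 1515913, nat_lit 1746477, nat_lit 1970860, nat_lit 1849224, nat_lit 1782414],
   .t [nat_lit 1589122, nat_lit 1448420, nat_lit 1772039, nat_lit 1970860, nat_lit 1744582],
   .t [nat_lit 1677024, nat_lit 1540545, nat_lit 1449445, nat_lit 1814375, nat_lit 1517963, nat_lit 1934954],
   .t [nat_lit 1413569, nat_lit 1802883, nat_lit 1740326, nat_lit 1686249, nat_lit 1549739, nat_lit 1448420, nat_lit 1607264, nat_lit 1717932],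
   .t [nat_lit 1574464, nat_lit 1413569, nat_lit 1250532, nat_lit 1507621, nat_lit 1744582, nat_lit 1549739, nat_lit 1816239, nat_lit 1788656],
   .t [nat_lit 1684324, nat_lit 1511845, nat_lit 1939207, nat_lit 1875566, nat_lit 1857332, nat_lit 1717932],
   .t [nat_lit 1511845, nat_lit 1451464, nat_lit 1748713, nat_lit 1939083, nat_lit 1712900, nat_lit 1816239, nat_lit 1851244],
   .t [nat_lit 1511845, nat_lit 1453514, nat_lit 1939083, nat_lit 1747812, nat_lit 1717932],
   .t [nat_lit 1313088, nat_lit 1350051, nat_lit 1507621, nat_lit 1676962, nat_lit 1740326, nat_lit 1485288, nat_lit 1621614],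
   .t [nat_lit 1181857, nat_lit 1475846, nat_lit 1840652, nat_lit 1513895, nat_lit 1580738, nat_lit 1712900, nat_lit 1782414],
   .t [nat_lit 1742532, nat_lit 1716069, nat_lit 1515913, nat_lit 1943339, nat_lit 1872552, nat_lit 1782414],
   .t [nat_lit 1445220, nat_lit 1643137, nat_lit 1683299, nat_lit 1607264, nat_lit 1713708, nat_lit 1933897],
   .t [nat_lit 1607264, nat_lit 1379681, nat_lit 1507621, nat_lit 1713708, nat_lit 1453514, nat_lit 1686403, nat_lit 1971854],
   .t [nat_lit 1313088, nat_lit 1707682, nat_lit 1613507, nat_lit 1737252, nat_lit 1511845, nat_lit 1485288, nat_lit 1785582, nat_lit 1808007],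
   .t [nat_lit 1642082, nat_lit 1706565, nat_lit 1883017, nat_lit 1971854, nat_lit 1681187],
   .t [nat_lit 1381762, nat_lit 1681187, nat_lit 1773095, nat_lit 1620681, nat_lit 1870378, nat_lit 1782414, nat_lit 1711845, nat_lit 1820371],
   .t [nat_lit 1379681, nat_lit 1508770, nat_lit 1837578, nat_lit 1717932, nat_lit 1617731, nat_lit 1913614, nat_lit 1753745],
   .t [nat_lit 1380737, nat_lit 1650530, nat_lit 1474852, nat_lit 1574464, nat_lit 1943339, nat_lit 1837578, nat_lit 1880845],
   .t [nat_lit 1577600, nat_lit 1707682, nat_lit 1617731, nat_lit 1742532, nat_lit 1509733, nat_lit 1901065, nat_lit 1779246],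
   .t [nat_lit 1614624, nat_lit 1737252, nat_lit 1444165, nat_lit 1544582, nat_lit 1485288, nat_lit 1676962, nat_lit 1874541],
   .t [nat_lit 1745700, nat_lit 1511845, nat_lit 1542471, nat_lit 1485288, nat_lit 1875566, nat_lit 1676962],
   .t [nat_lit 1317281, nat_lit 1713988, nat_lit 1686249, nat_lit 1803846, nat_lit 1872552, nat_lit 1755795, nat_lit 1914670],
   .t [nat_lit 1585925, nat_lit 1515913, nat_lit 1746477, nat_lit 1971854, nat_lit 1849224, nat_lit 1722032],
   .t [nat_lit 1742532, nat_lit 1711845, nat_lit 1653387, nat_lit 1717932, nat_lit 1811021, nat_lit 1782414, nat_lit 1413383],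
   .t [nat_lit 1379681, nat_lit 1443140, nat_lit 1970860, nat_lit 1748867],
   .t [nat_lit 1379681, nat_lit 1738340, nat_lit 1686342, nat_lit 1905196, nat_lit 1453514, nat_lit 1612451],
   .t [nat_lit 1607264, nat_lit 1379681, nat_lit 1770021, nat_lit 1686311, nat_lit 1873452, nat_lit 1453514, nat_lit 1613507],
   .t [nat_lit 1379681, nat_lit 1245315, nat_lit 1607264, nat_lit 1511845, nat_lit 1586732, nat_lit 1453514, nat_lit 1906190, nat_lit 1686342],
   .t [nat_lit 1351107, nat_lit 1585925, nat_lit 1707526, nat_lit 1545607, nat_lit 1776295, nat_lit 1883017, nat_lit 1973967, nat_lit 1857332],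
   .t [nat_lit 1350051, nat_lit 1717932, nat_lit 1707526, nat_lit 1782414, nat_lit 1973967, nat_lit 1883017, nat_lit 1588999, nat_lit 1857332],
   .t [nat_lit 1247457, nat_lit 1836616, nat_lit 1744582, nat_lit 1548714, nat_lit 1717932, nat_lit 1583874, nat_lit 1815183, nat_lit 1788656],
   .t [nat_lit 1449445, nat_lit 1621737, nat_lit 1549739, nat_lit 1586732, nat_lit 1938959, nat_lit 1814375],
   .t [nat_lit 1642082, nat_lit 1681187, nat_lit 1901065, nat_lit 1882957, nat_lit 1588814, nat_lit 1477088],
   .t [nat_lit 1642082, nat_lit 1883017, nat_lit 1968718, nat_lit 1681187],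
   .t [nat_lit 1744582, nat_lit 1814375, nat_lit 1515913, nat_lit 1943339, nat_lit 1841896, nat_lit 1782414, nat_lit 1889045],
   .t [nat_lit 1704452, nat_lit 1585925, nat_lit 1938028, nat_lit 1677024, nat_lit 1859444],
   .t [nat_lit 1215712, nat_lit 1671713, nat_lit 1279170, nat_lit 1608195, nat_lit 1940079, nat_lit 1589093],
   .t [nat_lit 1448420, nat_lit 1748806, nat_lit 1970860, nat_lit 1916811],
   .t [nat_lit 1279170, nat_lit 1350051, nat_lit 1742532, nat_lit 1442053, nat_lit 1772039, nat_lit 1717932, nat_lit 1314081, nat_lit 1577600],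
   .t [nat_lit 1379681, nat_lit 1443140, nat_lit 1970860, nat_lit 1753745, nat_lit 1617731, nat_lit 1921936],
   .t [nat_lit 1748867, nat_lit 1966729, nat_lit 1549739, nat_lit 1445344, nat_lit 1717932],
   .t [nat_lit 1181857, nat_lit 1508615, nat_lit 1840652, nat_lit 1580738, nat_lit 1712900, nat_lit 1782414],
   .t [nat_lit 1540483, nat_lit 1773095, nat_lit 1618569, nat_lit 1842703, nat_lit 1582912, nat_lit 1921814],
   .t [nat_lit 1351107, nat_lit 1509733, nat_lit 1545607, nat_lit 1576482, nat_lit 1715727, nat_lit 1618569],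
   .t [nat_lit 1576482, nat_lit 1542471, nat_lit 1385832, nat_lit 1618569, nat_lit 1715727, nat_lit 1318275],
   .t [nat_lit 1445344, nat_lit 1344771, nat_lit 1966729, nat_lit 1548714, nat_lit 1747841, nat_lit 1717932],
   .t [nat_lit 1313088, nat_lit 1613507, nat_lit 1507621, nat_lit 1545607, nat_lit 1707682, nat_lit 1746477, nat_lit 1485288, nat_lit 1782414],
   .t [nat_lit 1379681, nat_lit 1738340, nat_lit 1970860, nat_lit 1453514, nat_lit 1686403],
   .t [nat_lit 1379681, nat_lit 1771170, nat_lit 1444165, nat_lit 1748775, nat_lit 1873452, nat_lit 1613507],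
   .t [nat_lit 1970860, nat_lit 1922961, nat_lit 1684324, nat_lit 1951571],
   .t [nat_lit 1812294, nat_lit 1620681, nat_lit 1841772, nat_lit 1782414, nat_lit 1920881, nat_lit 1954583],
   .t [nat_lit 1348000, nat_lit 1213570, nat_lit 1608195, nat_lit 1314081, nat_lit 1717932, nat_lit 1868328, nat_lit 1585925, nat_lit 1857332],
   .t [nat_lit 1580738, nat_lit 1415651, nat_lit 1250532, nat_lit 1544582, nat_lit 1509733, nat_lit 1740326, nat_lit 1782414, nat_lit 1722032],
   .t [nat_lit 1739457, nat_lit 1381762, nat_lit 1410371, nat_lit 1904171, nat_lit 1782414, nat_lit 1588037, nat_lit 1722032],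
   .t [nat_lit 1182912, nat_lit 1802945, nat_lit 1778500, nat_lit 1344771, nat_lit 1902153, nat_lit 1645281],
   .t [nat_lit 1317281, nat_lit 1644162, nat_lit 1585925, nat_lit 1772039, nat_lit 1717932, nat_lit 1836616, nat_lit 1744582],
   .t [nat_lit 1445313, nat_lit 1812355, nat_lit 1742532, nat_lit 1507621, nat_lit 1607264, nat_lit 1970860, nat_lit 1789681],
   .t [nat_lit 1745700, nat_lit 1946506, nat_lit 1970860, nat_lit 1878888],
   .t [nat_lit 1585925, nat_lit 1838665, nat_lit 1812139, nat_lit 1413507, nat_lit 1742532, nat_lit 1788656],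
   .t [nat_lit 1811329, nat_lit 1742532, nat_lit 1442053, nat_lit 1574464, nat_lit 1970860, nat_lit 1788656],
   .t [nat_lit 1316224, nat_lit 1638913, nat_lit 1443140, nat_lit 1616457, nat_lit 1511845, nat_lit 1713864, nat_lit 1783470, nat_lit 1753745],
   .t [nat_lit 1576482, nat_lit 1681187, nat_lit 1507621, nat_lit 1611456, nat_lit 1837578, nat_lit 1714764, nat_lit 1782414, nat_lit 1886995],
   .t [nat_lit 1607264, nat_lit 1802883, nat_lit 1713988, nat_lit 1871465, nat_lit 1675937, nat_lit 1920881, nat_lit 1955639],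
   .t [nat_lit 1676931, nat_lit 1507621, nat_lit 1740326, nat_lit 1451464, nat_lit 1874541, nat_lit 1614624, nat_lit 1717932],
   .t [nat_lit 1614624, nat_lit 1802883, nat_lit 1740326, nat_lit 1451464, nat_lit 1907433, nat_lit 1717932, nat_lit 1882957],
   .t [nat_lit 1742532, nat_lit 1907587, nat_lit 1705540, nat_lit 1588037, nat_lit 1806982, nat_lit 1445313, nat_lit 1970860, nat_lit 1788656],
   .t [nat_lit 1317281, nat_lit 1902122, nat_lit 1385832, nat_lit 1717932, nat_lit 1748806, nat_lit 1782414, nat_lit 1620681],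
   .t [nat_lit 1577600, nat_lit 1443140, nat_lit 1385832, nat_lit 1901065, nat_lit 1317281, nat_lit 1748806, nat_lit 1717932],
   .t [nat_lit 1679075, nat_lit 1738340, nat_lit 1806982, nat_lit 1513895, nat_lit 1445313, nat_lit 1717932],
   .t [nat_lit 1614624, nat_lit 1744582, nat_lit 1808007, nat_lit 1717932, nat_lit 1874541, nat_lit 1789681, nat_lit 1585925, nat_lit 1835528],
   .t [nat_lit 1607264, nat_lit 1247457, nat_lit 1318275, nat_lit 1576482, nat_lit 1835528, nat_lit 1684230],
   .t [nat_lit 1413507, nat_lit 1510695, nat_lit 1908427, nat_lit 1582912, nat_lit 1704452, nat_lit 1782414],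
   .t [nat_lit 1182912, nat_lit 1213570, nat_lit 1608195, nat_lit 1671713, nat_lit 1874541, nat_lit 1586981],
   .t [nat_lit 1582912, nat_lit 1213570, nat_lit 1608195, nat_lit 1871465, nat_lit 1905445, nat_lit 1671713],
   .t [nat_lit 1704452, nat_lit 1621799, nat_lit 1872552, nat_lit 1515913, nat_lit 1746477, nat_lit 1782414, nat_lit 1477088, nat_lit 1580738],
   .t [nat_lit 1707744, nat_lit 1681187, nat_lit 1507621, nat_lit 1816239, nat_lit 1884013, nat_lit 1971854, nat_lit 1955731],
   .t [nat_lit 1445344, nat_lit 1213570, nat_lit 1608195, nat_lit 1671713, nat_lit 1511845, nat_lit 1588814, nat_lit 1652332],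
   .t [nat_lit 1707744, nat_lit 1318275, nat_lit 1742532, nat_lit 1507621, nat_lit 1812263, nat_lit 1872552, nat_lit 1782414],
   .t [nat_lit 1376514, nat_lit 1745700, nat_lit 1444165, nat_lit 1806982, nat_lit 1611456, nat_lit 1874541, nat_lit 1717932, nat_lit 1789681],
   .t [nat_lit 1379681, nat_lit 1278115, nat_lit 1607264, nat_lit 1873452, nat_lit 1814375, nat_lit 1752813, nat_lit 1684138, nat_lit 1947439],
   .t [nat_lit 1611456, nat_lit 1410371, nat_lit 1588037, nat_lit 1904171, nat_lit 1380737, nat_lit 1782414, nat_lit 1704452],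
   .t [nat_lit 1451464, nat_lit 1870409, nat_lit 1318306, nat_lit 1717932, nat_lit 1686311, nat_lit 1755795],
   .t [nat_lit 1215712, nat_lit 1580738, nat_lit 1739365, nat_lit 1933866, nat_lit 1517963, nat_lit 1683299, nat_lit 1782414, nat_lit 1722032],
   .t [nat_lit 1638913, nat_lit 1580738, nat_lit 1738340, nat_lit 1686311, nat_lit 1937997, nat_lit 1783470, nat_lit 1870688],
   .t [nat_lit 1278115, nat_lit 1710820, nat_lit 1543526, nat_lit 1611456, nat_lit 1905196, nat_lit 1814375, nat_lit 1782414, nat_lit 1948495],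
   .t [nat_lit 1707744, nat_lit 1344771, nat_lit 1507621, nat_lit 1840652, nat_lit 1647361, nat_lit 1782414, nat_lit 1819346],
   .t [nat_lit 1574464, nat_lit 1181857, nat_lit 1376514, nat_lit 1939146, nat_lit 1712900, nat_lit 1919856, nat_lit 1858388],
   .t [nat_lit 1380737, nat_lit 1742532, nat_lit 1442053, nat_lit 1574464, nat_lit 1811114, nat_lit 1788656],
   .t [nat_lit 1413569, nat_lit 1279170, nat_lit 1608195, nat_lit 1448420, nat_lit 1510695, nat_lit 1549739, nat_lit 1717932, nat_lit 1753745],
   .t [nat_lit 1676993, nat_lit 1442053, nat_lit 1574464, nat_lit 1778189, nat_lit 1652332],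
   .t [nat_lit 1653605, nat_lit 1717932, nat_lit 1811021, nat_lit 1782414, nat_lit 1873608, nat_lit 1955639],
   .t [nat_lit 1671713, nat_lit 1902370, nat_lit 1772039, nat_lit 1620681, nat_lit 1875566, nat_lit 1582912],
   .t [nat_lit 1585925, nat_lit 1871465, nat_lit 1717932, nat_lit 1746477, nat_lit 1971854, nat_lit 1686403, nat_lit 1853232],
   .t [nat_lit 1313088, nat_lit 1742532, nat_lit 1843045, nat_lit 1413383, nat_lit 1911563, nat_lit 1771170, nat_lit 1934145],
   .t [nat_lit 1747841, nat_lit 1443140, nat_lit 1970860],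
   .t [nat_lit 1511845, nat_lit 1685286, nat_lit 1805927, nat_lit 1971854, nat_lit 1613507, nat_lit 1710820, nat_lit 1891217],
   .t [nat_lit 1317281, nat_lit 1474852, nat_lit 1806982, nat_lit 1607264, nat_lit 1713708, nat_lit 1684200],
   .t [nat_lit 1712900, nat_lit 1511845, nat_lit 1475846, nat_lit 1645281, nat_lit 1840652, nat_lit 1782414, nat_lit 1819346],
   .t [nat_lit 1675937, nat_lit 1744582, nat_lit 1653511, nat_lit 1836616, nat_lit 1811052, nat_lit 1782414, nat_lit 1710820],
   .t [nat_lit 1349056, nat_lit 1279170, nat_lit 1612451, nat_lit 1509733, nat_lit 1868328, nat_lit 1314081, nat_lit 1715975, nat_lit 1857332],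
   .t [nat_lit 1351107, nat_lit 1588999, nat_lit 1901065, nat_lit 1445344, nat_lit 1850188],
   .t [nat_lit 1644162, nat_lit 1278115, nat_lit 1805927, nat_lit 1313088, nat_lit 1720044, nat_lit 1485288, nat_lit 1684045],
   .t [nat_lit 1671713, nat_lit 1612451, nat_lit 1803846, nat_lit 1713864, nat_lit 1871465, nat_lit 1581824, nat_lit 1788656, nat_lit 1857332],
   .t [nat_lit 1182912, nat_lit 1247457, nat_lit 1376514, nat_lit 1738340, nat_lit 1679075, nat_lit 1548714, nat_lit 1816239],
   .t [nat_lit 1902432, nat_lit 1181857, nat_lit 1868328, nat_lit 1414594, nat_lit 1620681, nat_lit 1778500, nat_lit 1943339],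
   .t [nat_lit 1902432, nat_lit 1380737, nat_lit 1620681, nat_lit 1943339, nat_lit 1737252, nat_lit 1782414, nat_lit 1847114, nat_lit 1889045],
   .t [nat_lit 1313088, nat_lit 1618569, nat_lit 1868328, nat_lit 1943339, nat_lit 1714764, nat_lit 1650530],
   .t [nat_lit 1376514, nat_lit 1706565, nat_lit 1618569, nat_lit 1943339, nat_lit 1316224, nat_lit 1919856, nat_lit 1847114, nat_lit 1884945],
   .t [nat_lit 1847114, nat_lit 1943339, nat_lit 1714764, nat_lit 1919856, nat_lit 1618569, nat_lit 1886995, nat_lit 1688145],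
   .t [nat_lit 1704452, nat_lit 1585925, nat_lit 1970860, nat_lit 1782414, nat_lit 1611456, nat_lit 1922961, nat_lit 1850188],
   .t [nat_lit 1612451, nat_lit 1967878, nat_lit 1782414, nat_lit 1707713, nat_lit 1922961, nat_lit 1850188],
   .t [nat_lit 1409314, nat_lit 1742532, nat_lit 1449445, nat_lit 1772039, nat_lit 1577600, nat_lit 1549739, nat_lit 1717932],
   .t [nat_lit 1486313, nat_lit 1517963, nat_lit 1746477, nat_lit 1684138, nat_lit 1785582, nat_lit 1820371],
   .t [nat_lit 1348000, nat_lit 1545607, nat_lit 1908427, nat_lit 1704452, nat_lit 1782414, nat_lit 1486313, nat_lit 1585925, nat_lit 1850188],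
   .t [nat_lit 1409314, nat_lit 1608195, nat_lit 1448420, nat_lit 1586981, nat_lit 1543526, nat_lit 1872552, nat_lit 1316224, nat_lit 1746477],
   .t [nat_lit 1742532, nat_lit 1711845, nat_lit 1805927, nat_lit 1905289, nat_lit 1686187, nat_lit 1779246, nat_lit 1617731],
   .t [nat_lit 1745700, nat_lit 1806982, nat_lit 1510695, nat_lit 1451464, nat_lit 1613507, nat_lit 1874541, nat_lit 1717932, nat_lit 1789681],
   .t [nat_lit 1574464, nat_lit 1314081, nat_lit 1742532, nat_lit 1442053, nat_lit 1970860, nat_lit 1812355, nat_lit 1788656],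
   .t [nat_lit 1676931, nat_lit 1738340, nat_lit 1449445, nat_lit 1510695, nat_lit 1549739, nat_lit 1413569, nat_lit 1717932],
   .t [nat_lit 1350051, nat_lit 1803846, nat_lit 1445313, nat_lit 1717932, nat_lit 1788656, nat_lit 1620681, nat_lit 1753745],
   .t [nat_lit 1414594, nat_lit 1608195, nat_lit 1684324, nat_lit 1850188, nat_lit 1937003, nat_lit 1884945, nat_lit 1905445],
   .t [nat_lit 1617731, nat_lit 1742532, nat_lit 1905289, nat_lit 1686187, nat_lit 1779246, nat_lit 1707621],
   .t [nat_lit 1345888, nat_lit 1579682, nat_lit 1282245, nat_lit 1737252, nat_lit 1588999, nat_lit 1840652, nat_lit 1486313, nat_lit 1618445],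
   .t [nat_lit 1613507, nat_lit 1509733, nat_lit 1545607, nat_lit 1486313, nat_lit 1707682, nat_lit 1746477, nat_lit 1782414],
   .t [nat_lit 1182912, nat_lit 1442053, nat_lit 1545607, nat_lit 1415651, nat_lit 1875627, nat_lit 1745700],
   .t [nat_lit 1838882, nat_lit 1278115, nat_lit 1742532, nat_lit 1772039, nat_lit 1717932, nat_lit 1577600, nat_lit 1880845],
   .t [nat_lit 1345888, nat_lit 1770021, nat_lit 1840652, nat_lit 1650530, nat_lit 1618569, nat_lit 1819346, nat_lit 1954583],
   .t [nat_lit 1934083, nat_lit 1782414, nat_lit 1924982, nat_lit 1707744, nat_lit 1850188],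
   .t [nat_lit 1644162, nat_lit 1608195, nat_lit 1511845, nat_lit 1740326, nat_lit 1842020, nat_lit 1913614, nat_lit 1950546, nat_lit 1717932],
   .t [nat_lit 1611456, nat_lit 1576482, nat_lit 1344771, nat_lit 1706565, nat_lit 1638913, nat_lit 1515913, nat_lit 1782414],
   .t [nat_lit 1577600, nat_lit 1383906, nat_lit 1717932, nat_lit 1548714, nat_lit 1451464, nat_lit 1772039, nat_lit 1620681, nat_lit 1737252],
   .t [nat_lit 1802914, nat_lit 1742532, nat_lit 1706565, nat_lit 1654506, nat_lit 1517963, nat_lit 1413600, nat_lit 1782414],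
   .t [nat_lit 1802883, nat_lit 1543526, nat_lit 1513895, nat_lit 1451464, nat_lit 1318368, nat_lit 1748713, nat_lit 1717932],
   .t [nat_lit 1713988, nat_lit 1507621, nat_lit 1413600, nat_lit 1939083, nat_lit 1916782],
   .t [nat_lit 1676931, nat_lit 1507621, nat_lit 1445344, nat_lit 1746477, nat_lit 1717932, nat_lit 1785582, nat_lit 1820371],
   .t [nat_lit 1215712, nat_lit 1638913, nat_lit 1279170, nat_lit 1448420, nat_lit 1673795, nat_lit 1511845, nat_lit 1652332, nat_lit 1588814],
   .t [nat_lit 1215712, nat_lit 1638913, nat_lit 1279170, nat_lit 1509733, nat_lit 1720044, nat_lit 1415651, nat_lit 1782414, nat_lit 1819346],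
   .t [nat_lit 1314081, nat_lit 1351107, nat_lit 1250532, nat_lit 1905352, nat_lit 1771109, nat_lit 1686342],
   .t [nat_lit 1449445, nat_lit 1510695, nat_lit 1676931, nat_lit 1746477, nat_lit 1717932, nat_lit 1785582, nat_lit 1820371],
   .t [nat_lit 1574464, nat_lit 1314081, nat_lit 1644162, nat_lit 1442053, nat_lit 1608195, nat_lit 1746477, nat_lit 1717932],
   .t [nat_lit 1739457, nat_lit 1381762, nat_lit 1410371, nat_lit 1507621, nat_lit 1904171, nat_lit 1782414, nat_lit 1582912, nat_lit 1722032],
   .t [nat_lit 1706565, nat_lit 1620681, nat_lit 1840652, nat_lit 1782414, nat_lit 1648418, nat_lit 1884945],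
   .t [nat_lit 1182912, nat_lit 1647361, nat_lit 1376514, nat_lit 1673795, nat_lit 1874541, nat_lit 1443140, nat_lit 1717932, nat_lit 1857332],
   .t [nat_lit 1712900, nat_lit 1475846, nat_lit 1842049, nat_lit 1905165, nat_lit 1983316],
   .t [nat_lit 1410371, nat_lit 1588037, nat_lit 1904171, nat_lit 1782414, nat_lit 1747841, nat_lit 1873608, nat_lit 1975084, nat_lit 1722032],
   .t [nat_lit 1250532, nat_lit 1905352, nat_lit 1449445, nat_lit 1548714, nat_lit 1714764, nat_lit 1783470, nat_lit 1686342, nat_lit 1755795],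
   .t [nat_lit 1379681, nat_lit 1245315, nat_lit 1475846, nat_lit 1716069, nat_lit 1577600, nat_lit 1942314, nat_lit 1840652, nat_lit 1880845],
   .t [nat_lit 1774245, nat_lit 1685286, nat_lit 1840652, nat_lit 1880845, nat_lit 1710820, nat_lit 1753745, nat_lit 1820371],
   .t [nat_lit 1474852, nat_lit 1839752, nat_lit 1975053, nat_lit 1349056, nat_lit 1588037, nat_lit 1722032, nat_lit 1922961],
   .t [nat_lit 1480132, nat_lit 1850188, nat_lit 1774245, nat_lit 1880845, nat_lit 1922870],
   .t [nat_lit 1607264, nat_lit 1314081, nat_lit 1442053, nat_lit 1545607, nat_lit 1351107, nat_lit 1817295, nat_lit 1789681],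
   .t [nat_lit 1474852, nat_lit 1839752, nat_lit 1975053, nat_lit 1582912, nat_lit 1722032, nat_lit 1922961],
   .t [nat_lit 1870595, nat_lit 1543526, nat_lit 1841896, nat_lit 1318306, nat_lit 1748775, nat_lit 1816239],
   .t [nat_lit 1345888, nat_lit 1612451, nat_lit 1745700, nat_lit 1544582, nat_lit 1835528, nat_lit 1576482, nat_lit 1486313, nat_lit 1880845],
   .t [nat_lit 1314081, nat_lit 1738340, nat_lit 1806982, nat_lit 1907495, nat_lit 1679075, nat_lit 1717932, nat_lit 1845064, nat_lit 1880845],
   .t [nat_lit 1607264, nat_lit 1679075, nat_lit 1802758, nat_lit 1907495, nat_lit 1838913, nat_lit 1884945],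
   .t [nat_lit 1745700, nat_lit 1752966, nat_lit 1485288, nat_lit 1970860, nat_lit 1651338, nat_lit 1874541, nat_lit 1724082],
   .t [nat_lit 1245315, nat_lit 1838944, nat_lit 1544582, nat_lit 1880845, nat_lit 1947439],
   .t [nat_lit 1644162, nat_lit 1770021, nat_lit 1621830, nat_lit 1717932, nat_lit 1913614, nat_lit 1477088, nat_lit 1841741, nat_lit 1751757],
   .t [nat_lit 1548714, nat_lit 1717932, nat_lit 1878888, nat_lit 1815183, nat_lit 1955639],
   .t [nat_lit 1682273, nat_lit 1651338, nat_lit 1548714, nat_lit 1717932, nat_lit 1836616, nat_lit 1977103, nat_lit 1955731],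
   .t [nat_lit 1182912, nat_lit 1376514, nat_lit 1476995, nat_lit 1874541, nat_lit 1712900, nat_lit 1651338, nat_lit 1855282],
   .t [nat_lit 1611456, nat_lit 1966636, nat_lit 1782661],
   .t [nat_lit 1579682, nat_lit 1544582, nat_lit 1835528, nat_lit 1745700, nat_lit 1477088, nat_lit 1880845],
   .t [nat_lit 1611456, nat_lit 1650530, nat_lit 1901065, nat_lit 1943339, nat_lit 1880845, nat_lit 1706565, nat_lit 1586732, nat_lit 1858388],
   .t [nat_lit 1884013, nat_lit 1815183, nat_lit 1789681, nat_lit 1717932, nat_lit 1922870, nat_lit 1951571],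
   .t [nat_lit 1579713, nat_lit 1778469, nat_lit 1875782, nat_lit 1939207, nat_lit 1902432, nat_lit 1835528],
   .t [nat_lit 1884013, nat_lit 1815183, nat_lit 1717932, nat_lit 1922870, nat_lit 1956695],
   .t [nat_lit 1676993, nat_lit 1745700, nat_lit 1442053, nat_lit 1544582, nat_lit 1902432, nat_lit 1940079, nat_lit 1891157],
   .t [nat_lit 1574464, nat_lit 1654506, nat_lit 1717932, nat_lit 1946383, nat_lit 1802945, nat_lit 1858388, nat_lit 1905165, nat_lit 1747812],
   .t [nat_lit 1585925, nat_lit 1477926, nat_lit 1808007, nat_lit 1874541, nat_lit 1718988, nat_lit 1779246, nat_lit 1679075, nat_lit 1853232],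
   .t [nat_lit 1745700, nat_lit 1651338, nat_lit 1970860, nat_lit 1878888, nat_lit 1954706],
   .t [nat_lit 1719173, nat_lit 1451464, nat_lit 1975053, nat_lit 1619625, nat_lit 1840652, nat_lit 1753745],
   .t [nat_lit 1682273, nat_lit 1409314, nat_lit 1935947, nat_lit 1651338, nat_lit 1717932, nat_lit 1348000, nat_lit 1738340],
   .t [nat_lit 1884013, nat_lit 1815183, nat_lit 1717932, nat_lit 1955639],
   .t [nat_lit 1738340, nat_lit 1651338, nat_lit 1970860, nat_lit 1682273, nat_lit 1954706],
   .t [nat_lit 1577600, nat_lit 1443140, nat_lit 1770021, nat_lit 1873421, nat_lit 1616705, nat_lit 1717932, nat_lit 1922870],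
   .t [nat_lit 1710820, nat_lit 1905165, nat_lit 1816454, nat_lit 1983316],
   .t [nat_lit 1445313, nat_lit 1245315, nat_lit 1607264, nat_lit 1511845, nat_lit 1676806, nat_lit 1586732],
   .t [nat_lit 1382881, nat_lit 1836616, nat_lit 1717932, nat_lit 1975053, nat_lit 1946506, nat_lit 1752966, nat_lit 1985396],
   .t [nat_lit 1850188, nat_lit 1783470, nat_lit 1880845, nat_lit 1922870],
   .t [nat_lit 1215712, nat_lit 1843074, nat_lit 1712900, nat_lit 1442053, nat_lit 1739395, nat_lit 1970860],
   .t [nat_lit 1611456, nat_lit 1344771, nat_lit 1588037, nat_lit 1740326, nat_lit 1874541, nat_lit 1717932, nat_lit 1778313, nat_lit 1782414, nat_lit 1671713, nat_lit 1722032, nat_lit 1922870],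
   .t [nat_lit 1811300, nat_lit 1475846, nat_lit 1413569, nat_lit 1686249, nat_lit 1549739, nat_lit 1940079],
   .t [nat_lit 1475846, nat_lit 1513895, nat_lit 1318337],
   .t [nat_lit 1247457, nat_lit 1376514, nat_lit 1443140, nat_lit 1511845, nat_lit 1685286, nat_lit 1873421, nat_lit 1318337, nat_lit 1574464, nat_lit 1717932, nat_lit 1755795],
   .t [nat_lit 1771232, nat_lit 1317281, nat_lit 1376514, nat_lit 1804871, nat_lit 1717932, nat_lit 1744582, nat_lit 1651338],
   .t [nat_lit 1413569, nat_lit 1245315, nat_lit 1771232, nat_lit 1510695, nat_lit 1744582, nat_lit 1549739, nat_lit 1816239],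
   .t [nat_lit 1579744, nat_lit 1250532, nat_lit 1744582, nat_lit 1544582, nat_lit 1442053, nat_lit 1778189, nat_lit 1816239],
   .t [nat_lit 1873732, nat_lit 1711845, nat_lit 1938182, nat_lit 1776295, nat_lit 1857332, nat_lit 1924982],
   .t [nat_lit 1511845, nat_lit 1545607, nat_lit 1485288, nat_lit 1453514, nat_lit 1875627, nat_lit 1745700],
   .t [nat_lit 1870688, nat_lit 1579682, nat_lit 1511845, nat_lit 1685286, nat_lit 1704452, nat_lit 1971854, nat_lit 1955731],
   .t [nat_lit 1313088, nat_lit 1618445, nat_lit 2785828, nat_lit 1685286, nat_lit 1616736, nat_lit 1872552, nat_lit 1579682, nat_lit 1970860, nat_lit 1955731],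
   .t [nat_lit 1344771, nat_lit 1510695, nat_lit 1811114, nat_lit 1748590, nat_lit 1682273, nat_lit 1941227],
   .t [nat_lit 1445313, nat_lit 1245315, nat_lit 1607264, nat_lit 1681187, nat_lit 1620681, nat_lit 1717932, nat_lit 1972973, nat_lit 1740326, nat_lit 1806982, nat_lit 1891217],
   .t [nat_lit 1607264, nat_lit 1681187, nat_lit 1250532, nat_lit 1318337, nat_lit 1442053, nat_lit 1883017, nat_lit 1970860, nat_lit 1740326],
   .t [nat_lit 1379681, nat_lit 1409314, nat_lit 1681187, nat_lit 1837578, nat_lit 1607264, nat_lit 1884945],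
   .t [nat_lit 1611456, nat_lit 1279170, nat_lit 1737252, nat_lit 1585925, nat_lit 1772039, nat_lit 1717932, nat_lit 1841741, nat_lit 1643137],
   .t [nat_lit 1278115, nat_lit 1838665, nat_lit 1545607, nat_lit 1453514, nat_lit 1345888, nat_lit 1583874, nat_lit 1653263],
   .t [nat_lit 1580738, nat_lit 1413507, nat_lit 1250532, nat_lit 1707526, nat_lit 1509733, nat_lit 1782414],
   .t [nat_lit 1413507, nat_lit 1742532, nat_lit 1442053, nat_lit 1904171, nat_lit 1614624, nat_lit 1891157],
   .t [nat_lit 1348000, nat_lit 1247457, nat_lit 1318275, nat_lit 1738340, nat_lit 2490629, nat_lit 1576482, nat_lit 1611456, nat_lit 1840652, nat_lit 1778313, nat_lit 1685286, nat_lit 1889045],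
   .t [nat_lit 1351107, nat_lit 1448420, nat_lit 1511845, nat_lit 2592102, nat_lit 1873452, nat_lit 1814375, nat_lit 1486313, nat_lit 1612451, nat_lit 1955639],
   .t [nat_lit 1448420, nat_lit 1814375, nat_lit 1872552, nat_lit 1515913, nat_lit 1549739, nat_lit 1717932, nat_lit 1744582, nat_lit 1782414, nat_lit 1955639],
   .t [nat_lit 1379681, nat_lit 1443140, nat_lit 1806982, nat_lit 1350051, nat_lit 1748713, nat_lit 1717932],
   .t [nat_lit 1677024, nat_lit 1540514, nat_lit 1449445, nat_lit 1717932, nat_lit 1804871, nat_lit 1755795],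
   .t [nat_lit 1213570, nat_lit 2755141, nat_lit 1580738, nat_lit 1543526, nat_lit 1513895, nat_lit 1380737, nat_lit 1938959, nat_lit 1453514, nat_lit 1652486, nat_lit 1612451, nat_lit 1755795, nat_lit 1789681, nat_lit 1859444],
   .t [nat_lit 1580738, nat_lit 1543526, nat_lit 1814375, nat_lit 1873452, nat_lit 1739365, nat_lit 1782414, nat_lit 1653263, nat_lit 1612451, nat_lit 1724082, nat_lit 1955639],
   .t [nat_lit 1313088, nat_lit 1616457, nat_lit 1802914, nat_lit 1788656, nat_lit 1713864, nat_lit 1753745],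
   .t [nat_lit 1582912, nat_lit 1314081, nat_lit 1771170, nat_lit 1608195, nat_lit 1966792, nat_lit 1922961],
   .t [nat_lit 1739457, nat_lit 1648418, nat_lit 1507621, nat_lit 1574464, nat_lit 1840652, nat_lit 1782414, nat_lit 1889045],
   .t [nat_lit 1181857, nat_lit 1318244, nat_lit 1808007, nat_lit 1836616, nat_lit 1650530, nat_lit 1889045, nat_lit 1955639],
   .t [nat_lit 1379681, nat_lit 1383906, nat_lit 1685286, nat_lit 1814375, nat_lit 1752813, nat_lit 1870378, nat_lit 1612451, nat_lit 1934954],
   .t [nat_lit 1588037, nat_lit 1971854, nat_lit 1722032, nat_lit 1922961],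
   .t [nat_lit 1676962, nat_lit 1415651, nat_lit 1282245, nat_lit 1476964, nat_lit 1805927, nat_lit 1752813],
   .t [nat_lit 1314081, nat_lit 1771170, nat_lit 1278115, nat_lit 1345888, nat_lit 1715914, nat_lit 1747688, nat_lit 1808007],
   .t [nat_lit 1415651, nat_lit 1687398, nat_lit 1908427, nat_lit 1942314, nat_lit 1813071, nat_lit 1717932, nat_lit 1882957, nat_lit 1445127, nat_lit 1785582, nat_lit 1755795],
   .t [nat_lit 1616643, nat_lit 1443140, nat_lit 1839752, nat_lit 1317281, nat_lit 1740326, nat_lit 1717932],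
   .t [nat_lit 1345888, nat_lit 1474852, nat_lit 1839752, nat_lit 1942314, nat_lit 1714764, nat_lit 1650530, nat_lit 1880845],
   .t [nat_lit 1379681, nat_lit 1213570, nat_lit 1933866, nat_lit 1413600, nat_lit 1785582, nat_lit 1608195, nat_lit 1588037, nat_lit 1924982],
   .t [nat_lit 1247457, nat_lit 1902122, nat_lit 1744582, nat_lit 1780363, nat_lit 1584962, nat_lit 1722032],
   .t [nat_lit 1383906, nat_lit 1588037, nat_lit 1677024, nat_lit 1916782, nat_lit 1933866, nat_lit 1804871, nat_lit 1656432],
   .t [nat_lit 1618725, nat_lit 1740326, nat_lit 1808007, nat_lit 1874541, nat_lit 1679075, nat_lit 1717932],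
   .t [nat_lit 1574464, nat_lit 1966792, nat_lit 1811329, nat_lit 1788656],
   .t [nat_lit 1350051, nat_lit 1448420, nat_lit 1687398, nat_lit 1805927, nat_lit 1905289, nat_lit 1744582, nat_lit 1717932, nat_lit 1956695],
   .t [nat_lit 1313088, nat_lit 1413383, nat_lit 1711845, nat_lit 1742532, nat_lit 1517963, nat_lit 1802914, nat_lit 1782414],
   .t [nat_lit 1476964, nat_lit 1511845, nat_lit 1847114, nat_lit 1611456, nat_lit 1714764, nat_lit 1782414, nat_lit 1934114, nat_lit 1886995, nat_lit 1920881],
   .t [nat_lit 1616736, nat_lit 1507621, nat_lit 1939083, nat_lit 1453514, nat_lit 1746477, nat_lit 1717932],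
   .t [nat_lit 1870688, nat_lit 1642082, nat_lit 1617731, nat_lit 1442053, nat_lit 1939083, nat_lit 1901065, nat_lit 1581824, nat_lit 1746477, nat_lit 1717932, nat_lit 1855282],
   .t [nat_lit 1348000, nat_lit 1247457, nat_lit 1540483, nat_lit 1448420, nat_lit 1475846, nat_lit 1744582, nat_lit 1576482, nat_lit 1782414, nat_lit 1515913, nat_lit 1722032],
   .t [nat_lit 1213570, nat_lit 1413507, nat_lit 1509733, nat_lit 1642082, nat_lit 1706565, nat_lit 1782414, nat_lit 1742532, nat_lit 1675937],
   .t [nat_lit 1345888, nat_lit 1383906, nat_lit 1282245, nat_lit 1545607, nat_lit 1651338, nat_lit 1704452, nat_lit 1874541, nat_lit 1486313, nat_lit 1588999, nat_lit 1855282],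
   .t [nat_lit 1685286, nat_lit 1870378, nat_lit 1714764, nat_lit 1618445, nat_lit 1579682, nat_lit 1755795],
   .t [nat_lit 1742532, nat_lit 1707621, nat_lit 1413507, nat_lit 1782414, nat_lit 1686187],
   .t [nat_lit 1742532, nat_lit 1938028, nat_lit 1816239, nat_lit 1855282, nat_lit 1585925, nat_lit 1788656, nat_lit 1884013],
   .t [nat_lit 1379681, nat_lit 1245315, nat_lit 1443140, nat_lit 1282245, nat_lit 1873421, nat_lit 1717932, nat_lit 1748775, nat_lit 1577600],
   .t [nat_lit 1379681, nat_lit 1409314, nat_lit 1673795, nat_lit 1738340, nat_lit 1717932, nat_lit 1348000, nat_lit 1651338],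
   .t [nat_lit 1742532, nat_lit 1449445, nat_lit 1916811, nat_lit 1970860, nat_lit 1781575],
   .t [nat_lit 1611456, nat_lit 1350051, nat_lit 1449445, nat_lit 1805927, nat_lit 1882957, nat_lit 1901065, nat_lit 1785582, nat_lit 1586732, nat_lit 1685286],
   .t [nat_lit 1680161, nat_lit 1376514, nat_lit 1851274, nat_lit 1967724, nat_lit 1445344, nat_lit 1870595],
   .t [nat_lit 1348000, nat_lit 1247457, nat_lit 1613507, nat_lit 1475846, nat_lit 1576482, nat_lit 1515913, nat_lit 1704452, nat_lit 1782414],
   .t [nat_lit 1676962, nat_lit 1474852, nat_lit 1449445, nat_lit 1806982, nat_lit 1513895, nat_lit 1607264, nat_lit 1713708, nat_lit 1752813, nat_lit 1477057],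
   .t [nat_lit 1345888, nat_lit 1671713, nat_lit 1613507, nat_lit 1705540, nat_lit 1511845, nat_lit 1545607, nat_lit 1642082, nat_lit 1486313, nat_lit 1782414],
   .t [nat_lit 1316224, nat_lit 1687398, nat_lit 1619625, nat_lit 1868328, nat_lit 1513895, nat_lit 1449445, nat_lit 1812078, nat_lit 1955639],
   .t [nat_lit 1414594, nat_lit 1608195, nat_lit 1589093, nat_lit 1510695, nat_lit 1812015, nat_lit 1941227],
   .t [nat_lit 1349056, nat_lit 1704452, nat_lit 1542471, nat_lit 1580738, nat_lit 1517963, nat_lit 1511845, nat_lit 1486313, nat_lit 1782414],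
   .t [nat_lit 1181857, nat_lit 1410371, nat_lit 1712900, nat_lit 1445127, nat_lit 1742532, nat_lit 1843074, nat_lit 1970860, nat_lit 1517963, nat_lit 1782414],
   .t [nat_lit 1215712, nat_lit 1380737, nat_lit 1442053, nat_lit 1875627, nat_lit 1548714, nat_lit 1738340, nat_lit 1415651, nat_lit 1685286],
   .t [nat_lit 1445220, nat_lit 1806982, nat_lit 1907433, nat_lit 1746477, nat_lit 1717932, nat_lit 1617731],
   .t [nat_lit 1646306, nat_lit 1737252, nat_lit 1806982, nat_lit 1513895, nat_lit 1477088, nat_lit 1785582, nat_lit 1820371, nat_lit 1724082],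
   .t [nat_lit 1588037, nat_lit 1802758, nat_lit 1907371, nat_lit 1785582, nat_lit 1413600, nat_lit 1742532],
   .t [nat_lit 1676931, nat_lit 1507621, nat_lit 1445344, nat_lit 1746477, nat_lit 1621614, nat_lit 1717932],
   .t [nat_lit 1616643, nat_lit 1445282, nat_lit 1783470, nat_lit 1922961, nat_lit 1850188, nat_lit 1968842],
   .t [nat_lit 1385832, nat_lit 1621737, nat_lit 1933866, nat_lit 1318368, nat_lit 1814375],
   .t [nat_lit 1508770, nat_lit 1608195, nat_lit 1477926, nat_lit 1907310, nat_lit 1582912, nat_lit 1671713],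
   .t [nat_lit 1742532, nat_lit 1839752, nat_lit 1975053, nat_lit 1783470, nat_lit 1588037, nat_lit 1722032, nat_lit 1922961],
   .t [nat_lit 1576482, nat_lit 1968997, nat_lit 1840652, nat_lit 1880845, nat_lit 1947439, nat_lit 1612451, nat_lit 1752966],
   .t [nat_lit 1774245, nat_lit 1651338, nat_lit 1718988, nat_lit 1906190, nat_lit 1747812, nat_lit 1950546],
   .t [nat_lit 1474852, nat_lit 1970860, nat_lit 1582912, nat_lit 1913614, nat_lit 1891217, nat_lit 1751757, nat_lit 1853232],
   .t [nat_lit 1902370, nat_lit 1858388, nat_lit 1739457, nat_lit 1889045],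
   .t [nat_lit 1744582, nat_lit 1717932, nat_lit 1618569, nat_lit 1943339, nat_lit 1841772, nat_lit 1715975, nat_lit 1859444, nat_lit 1789681, nat_lit 1880845]]

theorem okb3 : all5 db b3 (nat_lit 4500) = true := by decide +kernel

theorem lenb3 : b3.length = 1189 := by decide +kernel

end Pool.Agent.H36.QT.D
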